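import Mathlib

/-!
Functions on the lattice `ℤⁿ` with bounds for the first and the second differences.
-/

set_option maxHeartbeats 1000000

namespace Pool.Agent.U167.HP.An

open Filter Topology

variable {n : ℕ}

/-- The difference in the direction `i`. -/
def D (i : Fin n) (F : (Fin n → ℤ) → ℝ) (x : Fin n → ℤ) : ℝ :=
  F (Function.update x i (x i + 1)) - F x

/-- The distance. -/
def d1 (x y : Fin n → ℤ) : ℕ := ∑ k, (x k - y k).natAbs

/-- The box around `c`. -/
def Box (c : Fin n → ℝ) (ρ : ℝ) (x : Fin n → ℤ) : Prop := ∀ k, |(x k : ℝ) - c k| ≤ ρ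

theorem d1_update (x y : Fin n → ℤ) (k : Fin n) (w : ℤ) :
    d1 (Function.update x k w) y + (x k - y k).natAbs = d1 x y + (w - y k).natAbs := by
  unfold d1
  rw [← Finset.add_sum_erase _ _ (Finset.mem_univ k),
    ← Finset.add_sum_erase Finset.univ (fun j => (x j - y j).natAbs) (Finset.mem_univ k)]
  have : ∑ j ∈ Finset.univ.erase k, (Function.update x k w j - y j).natAbs =
      ∑ j ∈ Finset.univ.erase k, (x j - y j).natAbs := by
    apply Finset.sum_congr rfl
    intro j hj
    rw [Function.update_of_ne (Finset.ne_of_mem_erase hj)]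
  rw [this, Function.update_self]
  omega

theorem d1_zero {x y : Fin n → ℤ} (h : d1 x y = 0) : x = y := by
  unfold d1 at h
  rw [Finset.sum_eq_zero_iff] at h
  ext k
  have := h k (Finset.mem_univ k)
  omega

/-- One step towards `y`. -/
theorem step {c : Fin n → ℝ} {ρ : ℝ} {x y : Fin n → ℤ} (hx : Box c ρ x) (hy : Box c ρ y)
    (h : 0 < d1 x y) : ∃ k, (x k < y k ∧ Box c ρ (Function.update x k (x k + 1)) ∧
      d1 (Function.update x k (x k + 1)) y + 1 = d1 x y) ∨
      (y k < x k ∧ Box c ρ (Function.update x k (x k - 1)) ∧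
      d1 (Function.update x k (x k - 1)) y + 1 = d1 x y) := by
  obtain ⟨k, hk⟩ : ∃ k, x k ≠ y k := by
    by_contra hcon
    push Not at hcon
    have : x = y := by ext k; exact hcon k
    subst this
    unfold d1 at h
    simp at h
  refine ⟨k, ?_⟩
  rcases lt_or_gt_of_ne hk with h1 | h1
  · left
    refine ⟨h1, ?_, ?_⟩
    · intro j
      by_cases hj : j = k
      · subst hj
        rw [Function.update_self]
        have a1 := abs_le.mp (hx j)
        have a2 := abs_le.mp (hy j)
        have a3 : ((x j + 1 : ℤ) : ℝ) ≤ y j := by exact_mod_cast h1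
        rw [abs_le]
        push_cast at a3 ⊢
        constructor <;> linarith
      · rw [Function.update_of_ne hj]
        exact hx j
    · have := d1_update x y k (x k + 1)
      omega
  · right
    refine ⟨h1, ?_, ?_⟩
    · intro j
      by_cases hj : j = k
      · subst hj
        rw [Function.update_self]
        have a1 := abs_le.mp (hx j)
        have a2 := abs_le.mp (hy j)
        have a3 : ((y j : ℤ) : ℝ) ≤ ((x j - 1 : ℤ) : ℝ) := by exact_mod_cast (by omega)
        rw [abs_le]
        push_cast at a3 ⊢
        constructor <;> linarith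
      · rw [Function.update_of_ne hj]
        exact hx j
    · have := d1_update x y k (x k - 1)
      omega

theorem upd_upd (x : Fin n → ℤ) (k : Fin n) :
    Function.update (Function.update x k (x k - 1)) k (Function.update x k (x k - 1) k + 1) = x := by
  rw [Function.update_idem, Function.update_self, sub_add_cancel, Function.update_eq_self]

/-- The discrete mean value inequality. -/
theorem lip {H : (Fin n → ℤ) → ℝ} {c : Fin n → ℝ} {ρ L : ℝ}
    (hL : ∀ x, Box c ρ x → ∀ i, |D i H x| ≤ L) :
    ∀ (N : ℕ) (x y : Fin n → ℤ), d1 x y = N → Box c ρ x → Box c ρ y → |H x - H y| ≤ L * N := by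
  intro N
  induction N with
  | zero =>
    intro x y h _ _
    rw [d1_zero h]
    simp
  | succ N ih =>
    intro x y h hx hy
    obtain ⟨k, ⟨h1, h2, h3⟩ | ⟨h1, h2, h3⟩⟩ := step hx hy (by omega)
    · have a1 := ih _ y (by omega) h2 hy
      have a2 := hL x hx k
      unfold D at a2
      rw [abs_sub_comm] at a2
      calc |H x - H y| ≤ |H x - H (Function.update x k (x k + 1))| +
            |H (Function.update x k (x k + 1)) - H y| := abs_sub_le _ _ _
        _ ≤ L + L * N := add_le_add a2 a1
        _ = L * ((N + 1 : ℕ) : ℝ) := by push_cast; ring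
    · have a1 := ih _ y (by omega) h2 hy
      have a2 := hL _ h2 k
      unfold D at a2
      rw [upd_upd] at a2
      calc |H x - H y| ≤ |H x - H (Function.update x k (x k - 1))| +
            |H (Function.update x k (x k - 1)) - H y| := abs_sub_le _ _ _
        _ ≤ L + L * N := add_le_add a2 a1
        _ = L * ((N + 1 : ℕ) : ℝ) := by push_cast; ring

/-- The error in the discrete Taylor formula. -/
def err (H : (Fin n → ℤ) → ℝ) (z x : Fin n → ℤ) : ℝ :=
  H x - H z - ∑ k, ((x k : ℝ) - z k) * D k H z

theorem err_update (H : (Fin n → ℤ) → ℝ) (z x : Fin n → ℤ) (k : Fin n) (w : ℤ) :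
    err H z (Function.update x k w) - err H z x =
      (H (Function.update x k w) - H x) - ((w : ℝ) - x k) * D k H z := by
  unfold err
  have : ∑ j, ((Function.update x k w j : ℝ) - z j) * D j H z =
      ∑ j, ((x j : ℝ) - z j) * D j H z + ((w : ℝ) - x k) * D k H z := by
    rw [← Finset.add_sum_erase _ _ (Finset.mem_univ k),
      ← Finset.add_sum_erase Finset.univ (fun j => ((x j : ℝ) - z j) * D j H z)
        (Finset.mem_univ k)]
    have h1 : ∑ j ∈ Finset.univ.erase k, ((Function.update x k w j : ℝ) - z j) * D j H z =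
        ∑ j ∈ Finset.univ.erase k, ((x j : ℝ) - z j) * D j H z := by
      apply Finset.sum_congr rfl
      intro j hj
      rw [Function.update_of_ne (Finset.ne_of_mem_erase hj)]
    rw [h1, Function.update_self]
    ring
  rw [this]
  ring

/-- The discrete Taylor formula. -/
theorem taylor {H : (Fin n → ℤ) → ℝ} {c : Fin n → ℝ} {ρ K : ℝ} (hK : 0 ≤ K)
    (hL : ∀ x, Box c ρ x → ∀ i j, |D j (D i H) x| ≤ K) {z : Fin n → ℤ} (hz : Box c ρ z) :
    ∀ (N : ℕ) (x : Fin n → ℤ), d1 x z = N → Box c ρ x → |err H z x| ≤ K * N ^ 2 := by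
  intro N
  induction N with
  | zero =>
    intro x h _
    rw [d1_zero h]
    unfold err
    simp
  | succ N ih =>
    intro x h hx
    have hstep : (N : ℝ) ^ 2 + (N + 1) ≤ ((N + 1 : ℕ) : ℝ) ^ 2 := by
      push_cast
      nlinarith [Nat.cast_nonneg (α := ℝ) N]
    obtain ⟨k, ⟨h1, h2, h3⟩ | ⟨h1, h2, h3⟩⟩ := step hx hz (by omega)
    · have a1 := ih _ (by omega) h2
      have a2 := lip (fun x hx j => hL x hx k j) (N + 1) x z (by omega) hx hz
      have a3 := err_update H z x k (x k + 1)
      have a4 : err H z x = err H z (Function.update x k (x k + 1)) - (D k H x - D k H z) := by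
        unfold D at a3 ⊢
        push_cast at a3
        linarith
      rw [a4]
      calc |err H z (Function.update x k (x k + 1)) - (D k H x - D k H z)|
          ≤ |err H z (Function.update x k (x k + 1))| + |D k H x - D k H z| := abs_sub _ _
        _ ≤ K * N ^ 2 + K * ((N + 1 : ℕ) : ℝ) := add_le_add a1 a2
        _ = K * ((N : ℝ) ^ 2 + (N + 1)) := by push_cast; ring
        _ ≤ K * ((N + 1 : ℕ) : ℝ) ^ 2 := mul_le_mul_of_nonneg_left hstep hK
    · have a1 := ih _ (by omega) h2
      have a2 := lip (fun x hx j => hL x hx k j) N _ z (by omega) h2 hz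
      have a3 := err_update H z x k (x k - 1)
      have a4 : err H z x = err H z (Function.update x k (x k - 1)) +
          (D k H (Function.update x k (x k - 1)) - D k H z) := by
        unfold D at a3 ⊢
        rw [upd_upd]
        push_cast at a3
        linarith
      rw [a4]
      calc |err H z (Function.update x k (x k - 1)) +
            (D k H (Function.update x k (x k - 1)) - D k H z)|
          ≤ |err H z (Function.update x k (x k - 1))| +
            |D k H (Function.update x k (x k - 1)) - D k H z| := abs_add_le _ _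
        _ ≤ K * N ^ 2 + K * N := add_le_add a1 a2
        _ ≤ K * ((N : ℝ) ^ 2 + (N + 1)) := by
            have : (N : ℝ) ^ 2 + N ≤ (N : ℝ) ^ 2 + (N + 1) := by linarith
            nlinarith
        _ ≤ K * ((N + 1 : ℕ) : ℝ) ^ 2 := mul_le_mul_of_nonneg_left hstep hK

end Pool.Agent.U167.HP.An
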