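import Pool.Agent.U167.HP.An

/-!
Scaling limits of functions on `ℤⁿ`: existence along subsequences.
-/

set_option maxHeartbeats 1000000

namespace Pool.Agent.U167.HP.An

open Filter Topology

variable {n : ℕ}

/-- The points are at mutual distance at least `m`. -/
def Sep (m : ℤ) (x : Fin n → ℤ) : Prop := ∀ i j, i ≠ j → m ≤ |x i - x j|

/-- The points are at mutual distance at least `σ`. -/
def SepR (σ : ℝ) (u : Fin n → ℝ) : Prop := ∀ i j, i ≠ j → σ ≤ |u i - u j|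

/-- The bounds for the first and second differences. -/
structure Reg (F : (Fin n → ℤ) → ℝ) (K L : ℝ) : Prop where
  nonneg : 0 ≤ K
  nonneg' : 0 ≤ L
  bd : ∀ x, |F x| ≤ 1
  first : ∀ x (m : ℤ), 1 ≤ m → Sep m x → ∀ i, |D i F x| ≤ K / m
  second : ∀ x (m : ℤ), 1 ≤ m → Sep m x → ∀ i j, |D j (D i F) x| ≤ L / m ^ 2

variable {F : (Fin n → ℤ) → ℝ} {K L : ℝ}

theorem Reg.first' (h : Reg F K L) {x : Fin n → ℤ} {s : ℝ} (hs : 0 < s)
    (hx : ∀ i j, i ≠ j → s ≤ |(x i : ℝ) - x j|) (i : Fin n) : |D i F x| ≤ K / s := by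
  have h1 : 1 ≤ ⌈s⌉ := Int.one_le_ceil_iff.mpr hs
  refine (h.first x ⌈s⌉ h1 ?_ i).trans ?_
  · intro j k hjk
    have := hx j k hjk
    rw [Int.ceil_le]
    push_cast
    exact this
  · exact div_le_div_of_nonneg_left h.nonneg hs (Int.le_ceil s)

theorem Reg.second' (h : Reg F K L) {x : Fin n → ℤ} {s : ℝ} (hs : 0 < s)
    (hx : ∀ i j, i ≠ j → s ≤ |(x i : ℝ) - x j|) (i j : Fin n) :
    |D j (D i F) x| ≤ L / s ^ 2 := by
  have h1 : 1 ≤ ⌈s⌉ := Int.one_le_ceil_iff.mpr hs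
  refine (h.second x ⌈s⌉ h1 ?_ i j).trans ?_
  · intro j k hjk
    have := hx j k hjk
    rw [Int.ceil_le]
    push_cast
    exact this
  · have := Int.le_ceil s
    exact div_le_div_of_nonneg_left h.nonneg' (by positivity) (pow_le_pow_left₀ hs.le this 2)

/-- Points in the box are separated. -/
theorem sep_box {u : Fin n → ℝ} {σ : ℝ} (hu : SepR σ u) {N : ℝ} (hN : 0 < N)
    {x : Fin n → ℤ} (hx : Box (fun k => N * u k) (N * σ / 4) x) :
    ∀ i j, i ≠ j → N * σ / 2 ≤ |(x i : ℝ) - x j| := by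
  intro i j hij
  have h1 := hu i j hij
  have h2 := hx i
  have h3 := hx j
  have h4 : N * |u i - u j| ≤ |(x i : ℝ) - x j| + N * σ / 4 + N * σ / 4 := by
    rw [← abs_of_pos hN, ← abs_mul, abs_of_pos hN]
    have e : N * (u i - u j) = ((x i : ℝ) - x j) - ((x i : ℝ) - N * u i) +
        ((x j : ℝ) - N * u j) := by ring
    rw [e]
    have a1 := abs_add_le (((x i : ℝ) - x j) - ((x i : ℝ) - N * u i)) ((x j : ℝ) - N * u j)
    have a2 := abs_sub ((x i : ℝ) - x j) ((x i : ℝ) - N * u i)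
    linarith
  have h5 : N * σ ≤ N * |u i - u j| := mul_le_mul_of_nonneg_left h1 hN.le
  linarith

theorem box_mono {c : Fin n → ℝ} {ρ ρ' : ℝ} (h : ρ ≤ ρ') {x : Fin n → ℤ} (hx : Box c ρ x) :
    Box c ρ' x := fun k => (hx k).trans h

/-- The three estimates in a box. -/
theorem Reg.est (h : Reg F K L) {u : Fin n → ℝ} {σ : ℝ} (hσ : 0 < σ) (hu : SepR σ u) {N : ℝ}
    (hN : 0 < N) {x y : Fin n → ℤ} (hx : Box (fun k => N * u k) (N * σ / 4) x)
    (hy : Box (fun k => N * u k) (N * σ / 4) y) :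
    |F x - F y| ≤ 2 * K / σ * (d1 x y / N) ∧
    (∀ i, |N * D i F x - N * D i F y| ≤ 4 * L / σ ^ 2 * (d1 x y / N)) ∧
    |err F y x| ≤ 4 * L / σ ^ 2 * (d1 x y / N) ^ 2 := by
  have hs : 0 < N * σ / 2 := by positivity
  have b1 : ∀ x, Box (fun k => N * u k) (N * σ / 4) x → ∀ i, |D i F x| ≤ K / (N * σ / 2) :=
    fun x hx i => h.first' hs (sep_box hu hN hx) i
  have b2 : ∀ x, Box (fun k => N * u k) (N * σ / 4) x → ∀ i j,
      |D j (D i F) x| ≤ L / (N * σ / 2) ^ 2 :=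
    fun x hx i j => h.second' hs (sep_box hu hN hx) i j
  refine ⟨?_, ?_, ?_⟩
  · refine (lip b1 _ x y rfl hx hy).trans (le_of_eq ?_)
    field_simp
  · intro i
    rw [← mul_sub, abs_mul, abs_of_pos hN]
    have := lip (fun x hx j => b2 x hx i j) _ x y rfl hx hy
    calc N * |D i F x - D i F y| ≤ N * (L / (N * σ / 2) ^ 2 * d1 x y) :=
          mul_le_mul_of_nonneg_left this hN.le
      _ = 4 * L / σ ^ 2 * (d1 x y / N) := by field_simp; ring
  · have hK := h.nonneg'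
    refine (taylor (by positivity) b2 hy _ x rfl hx).trans (le_of_eq ?_)
    field_simp
    ring

theorem d1_eq (x y : Fin n → ℤ) : (d1 x y : ℝ) = ∑ k, |(x k : ℝ) - y k| := by
  unfold d1
  rw [Nat.cast_sum]
  apply Finset.sum_congr rfl
  intro k _
  rw [Nat.cast_natAbs, Int.cast_abs, Int.cast_sub]

theorem d1_le {x y : Fin n → ℤ} {δ : ℝ} (h : ∀ k, |(x k : ℝ) - y k| ≤ δ) :
    (d1 x y : ℝ) ≤ n * δ := by
  rw [d1_eq]
  calc ∑ k, |((x k : ℝ) - y k)| ≤ ∑ _k : Fin n, δ := Finset.sum_le_sum (fun k _ => h k)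
    _ = n * δ := by simp

/-- Close points have close values. -/
theorem Reg.close (h : Reg F K L) {u : Fin n → ℝ} {σ : ℝ} (hσ : 0 < σ) (hu : SepR σ u) {δ : ℝ}
    (hδ : δ ≤ σ / 4) {N : ℝ} (hN : 0 < N) {x y : Fin n → ℤ}
    (hx : Box (fun k => N * u k) (N * δ) x) (hy : Box (fun k => N * u k) (N * δ) y) :
    |F x - F y| ≤ 4 * K * n / σ * δ ∧ ∀ i, |N * D i F x - N * D i F y| ≤ 8 * L * n / σ ^ 2 * δ := by
  have hNδ : N * δ ≤ N * σ / 4 := by nlinarith
  obtain ⟨e1, e2, -⟩ := h.est hσ hu hN (box_mono hNδ hx) (box_mono hNδ hy)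
  have hK := h.nonneg
  have hL := h.nonneg'
  have hd : (d1 x y : ℝ) / N ≤ n * (2 * δ) := by
    rw [div_le_iff₀ hN]
    refine (d1_le (δ := 2 * (N * δ)) ?_).trans (le_of_eq (by ring))
    intro k
    have a1 := hx k
    have a2 := hy k
    have e : (x k : ℝ) - y k = ((x k : ℝ) - N * u k) - ((y k : ℝ) - N * u k) := by ring
    rw [e]
    have := abs_sub ((x k : ℝ) - N * u k) ((y k : ℝ) - N * u k)
    linarith
  constructor
  · refine e1.trans ?_
    calc 2 * K / σ * (d1 x y / N) ≤ 2 * K / σ * (n * (2 * δ)) := by gcongr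
      _ = 4 * K * n / σ * δ := by ring
  · intro i
    refine (e2 i).trans ?_
    calc 4 * L / σ ^ 2 * (d1 x y / N) ≤ 4 * L / σ ^ 2 * (n * (2 * δ)) := by gcongr
      _ = 8 * L * n / σ ^ 2 * δ := by ring

/-- The lattice configuration with mesh `1 / N` next to `u`. -/
noncomputable def fl (N : ℕ) (u : Fin n → ℝ) : Fin n → ℤ := fun i => ⌊(N : ℝ) * u i⌋

theorem fl_abs (N : ℕ) (u : Fin n → ℝ) (i : Fin n) : |(fl N u i : ℝ) - N * u i| ≤ 1 := by
  unfold fl
  have h1 := Int.floor_le ((N : ℝ) * u i)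
  have h2 := Int.lt_floor_add_one ((N : ℝ) * u i)
  rw [abs_le]
  constructor <;> linarith

/-- `y k / φ k` converges to `u`. -/
def To (φ : ℕ → ℕ) (y : ℕ → Fin n → ℤ) (u : Fin n → ℝ) : Prop :=
  ∀ i, Tendsto (fun k => (y k i : ℝ) / φ k) atTop (𝓝 (u i))

theorem ev_box {φ : ℕ → ℕ} (hφ : Tendsto φ atTop atTop) {y : ℕ → Fin n → ℤ} {u : Fin n → ℝ}
    (hy : To φ y u) {δ : ℝ} (hδ : 0 < δ) :
    ∀ᶠ k in atTop, 0 < φ k ∧ Box (fun i => (φ k : ℝ) * u i) (φ k * δ) (y k) := by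
  have h1 : ∀ᶠ k in atTop, 0 < φ k := hφ.eventually_gt_atTop 0
  have h2 : ∀ᶠ k in atTop, ∀ i, |(y k i : ℝ) / φ k - u i| < δ := by
    rw [eventually_all]
    intro i
    exact (Metric.tendsto_nhds.mp (hy i)) δ hδ
  filter_upwards [h1, h2] with k hk1 hk2
  refine ⟨hk1, ?_⟩
  intro i
  have hk0 : (0:ℝ) < φ k := by exact_mod_cast hk1
  have := (hk2 i).le
  have e : (y k i : ℝ) - φ k * u i = φ k * ((y k i : ℝ) / φ k - u i) := by field_simp
  show |(y k i : ℝ) - φ k * u i| ≤ φ k * δ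
  rw [e, abs_mul, abs_of_pos hk0]
  exact mul_le_mul_of_nonneg_left this hk0.le

theorem to_fl {φ : ℕ → ℕ} (hφ : Tendsto φ atTop atTop) (u : Fin n → ℝ) :
    To φ (fun k => fl (φ k) u) u := by
  intro i
  rw [Metric.tendsto_nhds]
  intro ε hε
  have h1 : ∀ᶠ k in atTop, 0 < φ k := hφ.eventually_gt_atTop 0
  obtain ⟨M, hM⟩ := exists_nat_gt (1 / ε)
  have h2 : ∀ᶠ k in atTop, M ≤ φ k := hφ.eventually_ge_atTop M
  filter_upwards [h1, h2] with k hk1 hk2
  have hk0 : (0:ℝ) < φ k := by exact_mod_cast hk1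
  have hk3 : 1 / ε < φ k := lt_of_lt_of_le hM (by exact_mod_cast hk2)
  rw [Real.dist_eq]
  have e : (fl (φ k) u i : ℝ) / φ k - u i = ((fl (φ k) u i : ℝ) - φ k * u i) / φ k := by
    field_simp
  rw [e, abs_div, abs_of_pos hk0, div_lt_iff₀ hk0]
  rw [div_lt_iff₀ hε] at hk3
  have := fl_abs (φ k) u i
  linarith

theorem conv_of_close {a : ℕ → ℝ}
    (h : ∀ ε : ℝ, 0 < ε → ∃ b : ℕ → ℝ, (∃ l, Tendsto b atTop (𝓝 l)) ∧
      ∀ᶠ j in atTop, |a j - b j| ≤ ε) : ∃ l, Tendsto a atTop (𝓝 l) := by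
  apply cauchySeq_tendsto_of_complete
  rw [Metric.cauchySeq_iff']
  intro ε hε
  obtain ⟨b, ⟨l, hl⟩, hab⟩ := h (ε / 8) (by positivity)
  have h1 := (Metric.tendsto_nhds.mp hl) (ε / 8) (by positivity)
  obtain ⟨N, hN⟩ := eventually_atTop.mp (hab.and h1)
  refine ⟨N, fun n hn => ?_⟩
  obtain ⟨p1, p2⟩ := hN n hn
  obtain ⟨p3, p4⟩ := hN N le_rfl
  rw [Real.dist_eq] at p2 p4 ⊢
  have e : a n - a N = (a n - b n) + ((b n - l) - (b N - l)) - (a N - b N) := by ring
  rw [e]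
  have q1 := abs_sub ((a n - b n) + ((b n - l) - (b N - l))) (a N - b N)
  have q2 := abs_add_le (a n - b n) ((b n - l) - (b N - l))
  have q3 := abs_sub (b n - l) (b N - l)
  linarith

theorem tendsto_of_close {a b : ℕ → ℝ} {l : ℝ} (hb : Tendsto b atTop (𝓝 l))
    (h : ∀ ε : ℝ, 0 < ε → ∀ᶠ j in atTop, |a j - b j| ≤ ε) : Tendsto a atTop (𝓝 l) := by
  rw [Metric.tendsto_nhds]
  intro ε hε
  filter_upwards [h (ε / 2) (by positivity), (Metric.tendsto_nhds.mp hb) (ε / 2) (by positivity)]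
    with j h1 h2
  rw [Real.dist_eq] at h2 ⊢
  have e : a j - l = (a j - b j) + (b j - l) := by ring
  rw [e]
  have := abs_add_le (a j - b j) (b j - l)
  linarith

/-- Separated points. -/
theorem exists_sep {u : Fin n → ℝ} (hu : Function.Injective u) : ∃ σ : ℝ, 0 < σ ∧ SepR σ u := by
  classical
  by_cases h : (Finset.univ.filter (fun p : Fin n × Fin n => p.1 ≠ p.2)).Nonempty
  · obtain ⟨p, hp, hmin⟩ := Finset.exists_min_image _ (fun p : Fin n × Fin n => |u p.1 - u p.2|) h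
    refine ⟨|u p.1 - u p.2|, ?_, ?_⟩
    · rw [abs_pos, sub_ne_zero]
      intro h2
      exact (Finset.mem_filter.mp hp).2 (hu h2)
    · intro i j hij
      exact hmin (i, j) (by simp [hij])
  · refine ⟨1, one_pos, ?_⟩
    intro i j hij
    exact absurd ⟨(i, j), by simp [hij]⟩ h

/-- The scaling limit of `F` along the scales `φ`, together with its derivatives. -/
def IsLim (F : (Fin n → ℤ) → ℝ) (φ : ℕ → ℕ) (f : (Fin n → ℝ) → ℝ) (g : Fin n → (Fin n → ℝ) → ℝ) :
    Prop :=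
  ∀ u, Function.Injective u → ∀ y, To φ y u → Tendsto (fun k => F (y k)) atTop (𝓝 (f u)) ∧
    ∀ i, Tendsto (fun k => (φ k : ℝ) * D i F (y k)) atTop (𝓝 (g i u))

theorem exists_rat (u : Fin n → ℝ) {δ : ℝ} (hδ : 0 < δ) :
    ∃ q : Fin n → ℚ, ∀ i, |(q i : ℝ) - u i| ≤ δ := by
  have : ∀ i, ∃ q : ℚ, |(q : ℝ) - u i| ≤ δ := by
    intro i
    obtain ⟨q, h1, h2⟩ := exists_rat_btwn (show u i < u i + δ by linarith)
    refine ⟨q, ?_⟩
    rw [abs_le]
    constructor <;> linarith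
  choose q hq using this
  exact ⟨q, hq⟩

/-- Existence of the scaling limit, given convergence at rational points. -/
theorem Reg.exists_lim (h : Reg F K L) {φ : ℕ → ℕ} (hφ : Tendsto φ atTop atTop)
    (hq : ∀ q : Fin n → ℚ, Function.Injective q →
      (∃ l, Tendsto (fun k => F (fl (φ k) (fun i => (q i : ℝ)))) atTop (𝓝 l)) ∧
      ∀ i, ∃ l, Tendsto (fun k => (φ k : ℝ) * D i F (fl (φ k) (fun i => (q i : ℝ)))) atTop (𝓝 l)) :
    ∃ f g, IsLim F φ f g := by
  have hK := h.nonneg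
  have hL := h.nonneg'
  -- approximation by rational points
  have key : ∀ u : Fin n → ℝ, Function.Injective u → ∀ ε : ℝ, 0 < ε →
      ∃ q : Fin n → ℚ, Function.Injective q ∧ ∀ᶠ k in atTop,
        |F (fl (φ k) u) - F (fl (φ k) (fun i => (q i : ℝ)))| ≤ ε ∧
        ∀ i, |φ k * D i F (fl (φ k) u) - φ k * D i F (fl (φ k) (fun i => (q i : ℝ)))| ≤ ε := by
    intro u hu ε hε
    obtain ⟨σ, hσ, hsep⟩ := exists_sep hu
    obtain ⟨δ, hδ1, hδ2, hδ3, hδ4⟩ : ∃ δ : ℝ, 0 < δ ∧ δ ≤ σ / 4 ∧ 4 * K * n / σ * δ ≤ ε ∧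
        8 * L * n / σ ^ 2 * δ ≤ ε := by
      refine ⟨min (σ / 4) (min (ε / (4 * K * n / σ + 1)) (ε / (8 * L * n / σ ^ 2 + 1))),
        by positivity, min_le_left _ _, ?_, ?_⟩
      · calc 4 * K * n / σ * min (σ / 4) (min (ε / (4 * K * n / σ + 1))
              (ε / (8 * L * n / σ ^ 2 + 1)))
            ≤ 4 * K * n / σ * (ε / (4 * K * n / σ + 1)) := by
              gcongr
              exact (min_le_right _ _).trans (min_le_left _ _)
          _ = ε * (4 * K * n / σ / (4 * K * n / σ + 1)) := by ring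
          _ ≤ ε * 1 := by
              apply mul_le_mul_of_nonneg_left _ hε.le
              rw [div_le_one (by positivity)]
              linarith
          _ = ε := mul_one _
      · calc 8 * L * n / σ ^ 2 * min (σ / 4) (min (ε / (4 * K * n / σ + 1))
              (ε / (8 * L * n / σ ^ 2 + 1)))
            ≤ 8 * L * n / σ ^ 2 * (ε / (8 * L * n / σ ^ 2 + 1)) := by
              gcongr
              exact (min_le_right _ _).trans (min_le_right _ _)
          _ = ε * (8 * L * n / σ ^ 2 / (8 * L * n / σ ^ 2 + 1)) := by ring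
          _ ≤ ε * 1 := by
              apply mul_le_mul_of_nonneg_left _ hε.le
              rw [div_le_one (by positivity)]
              linarith
          _ = ε := mul_one _
    obtain ⟨q, hqu⟩ := exists_rat u (show 0 < δ / 2 by positivity)
    refine ⟨q, ?_, ?_⟩
    · intro i j hij
      by_contra hne
      have h1 := hsep i j hne
      have h2 := hqu i
      have h3 := hqu j
      rw [hij] at h2
      have e : u i - u j = ((q j : ℝ) - u j) - ((q j : ℝ) - u i) := by ring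
      rw [e] at h1
      have := abs_sub ((q j : ℝ) - u j) ((q j : ℝ) - u i)
      linarith
    · have e1 := ev_box hφ (to_fl hφ u) hδ1
      have e2 := ev_box hφ (to_fl hφ (fun i => (q i : ℝ))) (show 0 < δ / 2 by positivity)
      filter_upwards [e1, e2] with k hk1 hk2
      have hk0 : (0:ℝ) < φ k := by exact_mod_cast hk1.1
      have hb : Box (fun i => (φ k : ℝ) * u i) (φ k * δ) (fl (φ k) (fun i => (q i : ℝ))) := by
        intro i
        have a1 := hk2.2 i
        have a2 := hqu i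
        have a3 : |(φ k : ℝ) * q i - φ k * u i| ≤ φ k * (δ / 2) := by
          rw [← mul_sub, abs_mul, abs_of_pos hk0]
          exact mul_le_mul_of_nonneg_left a2 hk0.le
        show |(fl (φ k) (fun i => (q i : ℝ)) i : ℝ) - φ k * u i| ≤ φ k * δ
        have e : (fl (φ k) (fun i => (q i : ℝ)) i : ℝ) - φ k * u i =
            ((fl (φ k) (fun i => (q i : ℝ)) i : ℝ) - φ k * q i) + (φ k * q i - φ k * u i) := by
          ring
        rw [e]
        have := abs_add_le ((fl (φ k) (fun i => (q i : ℝ)) i : ℝ) - φ k * q i)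
          (φ k * q i - φ k * u i)
        have a4 : |(fl (φ k) (fun i => (q i : ℝ)) i : ℝ) - φ k * q i| ≤ φ k * (δ / 2) := a1
        linarith
      obtain ⟨c1, c2⟩ := h.close hσ hsep hδ2 hk0 hk1.2 hb
      exact ⟨c1.trans hδ3, fun i => (c2 i).trans hδ4⟩
  -- convergence of the canonical sequences
  have hf : ∀ u : Fin n → ℝ, ∃ l, Function.Injective u →
      Tendsto (fun k => F (fl (φ k) u)) atTop (𝓝 l) := by
    intro u
    by_cases hu : Function.Injective u
    · obtain ⟨l, hl⟩ := conv_of_close (a := fun k => F (fl (φ k) u)) (by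
        intro ε hε
        obtain ⟨q, hqi, hq2⟩ := key u hu ε hε
        exact ⟨fun k => F (fl (φ k) (fun i => (q i : ℝ))), (hq q hqi).1, hq2.mono (fun k hk => hk.1)⟩)
      exact ⟨l, fun _ => hl⟩
    · exact ⟨0, fun h => absurd h hu⟩
  have hg : ∀ (i : Fin n) (u : Fin n → ℝ), ∃ l, Function.Injective u →
      Tendsto (fun k => (φ k : ℝ) * D i F (fl (φ k) u)) atTop (𝓝 l) := by
    intro i u
    by_cases hu : Function.Injective u
    · obtain ⟨l, hl⟩ := conv_of_close (a := fun k => (φ k : ℝ) * D i F (fl (φ k) u)) (by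
        intro ε hε
        obtain ⟨q, hqi, hq2⟩ := key u hu ε hε
        exact ⟨fun k => (φ k : ℝ) * D i F (fl (φ k) (fun i => (q i : ℝ))), (hq q hqi).2 i,
          hq2.mono (fun k hk => hk.2 i)⟩)
      exact ⟨l, fun _ => hl⟩
    · exact ⟨0, fun h => absurd h hu⟩
  choose f hf using hf
  choose g hg using hg
  refine ⟨f, g, ?_⟩
  intro u hu y hy
  obtain ⟨σ, hσ, hsep⟩ := exists_sep hu
  have hclose : ∀ δ : ℝ, 0 < δ → δ ≤ σ / 4 → ∀ᶠ k in atTop,
      |F (y k) - F (fl (φ k) u)| ≤ 4 * K * n / σ * δ ∧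
        ∀ i, |φ k * D i F (y k) - φ k * D i F (fl (φ k) u)| ≤ 8 * L * n / σ ^ 2 * δ := by
    intro δ hδ1 hδ2
    filter_upwards [ev_box hφ hy hδ1, ev_box hφ (to_fl hφ u) hδ1] with k hk1 hk2
    have hk0 : (0:ℝ) < φ k := by exact_mod_cast hk1.1
    exact h.close hσ hsep hδ2 hk0 hk1.2 hk2.2
  have small : ∀ A : ℝ, 0 ≤ A → ∀ ε : ℝ, 0 < ε → ∃ δ : ℝ, 0 < δ ∧ δ ≤ σ / 4 ∧ A * δ ≤ ε := by
    intro A hA ε hε
    refine ⟨min (σ / 4) (ε / (A + 1)), by positivity, min_le_left _ _, ?_⟩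
    calc A * min (σ / 4) (ε / (A + 1)) ≤ A * (ε / (A + 1)) := by
          gcongr
          exact min_le_right _ _
      _ = ε * (A / (A + 1)) := by ring
      _ ≤ ε * 1 := by
          apply mul_le_mul_of_nonneg_left _ hε.le
          rw [div_le_one (by positivity)]
          linarith
      _ = ε := mul_one _
  constructor
  · apply tendsto_of_close (hf u hu)
    intro ε hε
    obtain ⟨δ, hδ1, hδ2, hδ3⟩ := small (4 * K * n / σ) (by positivity) ε hε
    filter_upwards [hclose δ hδ1 hδ2] with k hk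
    exact hk.1.trans hδ3
  · intro i
    apply tendsto_of_close (hg i u hu)
    intro ε hε
    obtain ⟨δ, hδ1, hδ2, hδ3⟩ := small (8 * L * n / σ ^ 2) (by positivity) ε hε
    filter_upwards [hclose δ hδ1 hδ2] with k hk
    exact (hk.2 i).trans hδ3

/-- The diagonal argument. -/
theorem diag {J : Type*} [Countable J] {a : J → ℕ → ℝ} (h : ∀ j, ∃ B : ℝ, ∀ k, |a j k| ≤ B) :
    ∃ ψ : ℕ → ℕ, StrictMono ψ ∧ ∀ j, ∃ l, Tendsto (fun k => a j (ψ k)) atTop (𝓝 l) := by
  choose B hB using h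
  have hc : IsCompact (Set.pi Set.univ (fun j => Set.Icc (-B j) (B j))) :=
    isCompact_univ_pi (fun j => isCompact_Icc)
  obtain ⟨l, -, ψ, hψ, hl⟩ := hc.tendsto_subseq (x := fun k j => a j k) (by
    intro k j _
    exact abs_le.mp (hB j k))
  refine ⟨ψ, hψ, fun j => ⟨l j, ?_⟩⟩
  exact (tendsto_pi_nhds.mp hl) j

/-- A sequence with an eventual bound is bounded. -/
theorem bdd_of_ev {a : ℕ → ℝ} {B : ℝ} (h : ∀ᶠ k in atTop, |a k| ≤ B) : ∃ B, ∀ k, |a k| ≤ B := by
  obtain ⟨N, hN⟩ := eventually_atTop.mp h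
  refine ⟨∑ k ∈ Finset.range N, |a k| + |B|, ?_⟩
  intro k
  by_cases hk : N ≤ k
  · have h1 := hN k hk
    have h2 : 0 ≤ ∑ k ∈ Finset.range N, |a k| := Finset.sum_nonneg (fun _ _ => abs_nonneg _)
    have h3 := le_abs_self B
    linarith
  · push Not at hk
    have h1 : |a k| ≤ ∑ k ∈ Finset.range N, |a k| :=
      Finset.single_le_sum (f := fun k => |a k|) (fun _ _ => abs_nonneg _) (Finset.mem_range.mpr hk)
    have h3 := abs_nonneg B
    linarith

theorem Reg.bound_g (h : Reg F K L) {φ : ℕ → ℕ} (hφ : Tendsto φ atTop atTop) {u : Fin n → ℝ}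
    {σ : ℝ} (hσ : 0 < σ) (hu : SepR σ u) {y : ℕ → Fin n → ℤ} (hy : To φ y u) (i : Fin n) :
    ∀ᶠ k in atTop, |(φ k : ℝ) * D i F (y k)| ≤ 2 * K / σ := by
  filter_upwards [ev_box hφ hy (show 0 < σ / 4 by positivity)] with k hk
  have hk0 : (0:ℝ) < φ k := by exact_mod_cast hk.1
  have hb : Box (fun i => (φ k : ℝ) * u i) (φ k * σ / 4) (y k) := by
    have := hk.2
    rwa [← mul_div_assoc] at this
  have h1 := h.first' (x := y k) (s := φ k * σ / 2) (by positivity) (sep_box hu hk0 hb) i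
  rw [abs_mul, abs_of_pos hk0]
  calc (φ k : ℝ) * |D i F (y k)| ≤ φ k * (K / (φ k * σ / 2)) :=
        mul_le_mul_of_nonneg_left h1 hk0.le
    _ = 2 * K / σ := by field_simp

/-- Existence of scaling limits along a common subsequence for a countable family. -/
theorem exists_common {ι : Type*} [Countable ι] (n : ι → ℕ) (F : ∀ a, (Fin (n a) → ℤ) → ℝ)
    (K L : ι → ℝ) (h : ∀ a, Reg (F a) (K a) (L a)) {φ : ℕ → ℕ} (hφ : Tendsto φ atTop atTop) :
    ∃ ψ : ℕ → ℕ, StrictMono ψ ∧ ∀ a, ∃ f g, IsLim (F a) (φ ∘ ψ) f g := by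
  classical
  let J := (a : ι) × ((Fin (n a) → ℚ) × Option (Fin (n a)))
  let A : J → ℕ → ℝ := fun j k =>
    if Function.Injective j.2.1 then
      (match j.2.2 with
        | none => F j.1 (fl (φ k) (fun i => (j.2.1 i : ℝ)))
        | some i => (φ k : ℝ) * D i (F j.1) (fl (φ k) (fun i => (j.2.1 i : ℝ))))
    else 0
  have hbd : ∀ j : J, ∃ B : ℝ, ∀ k, |A j k| ≤ B := by
    rintro ⟨a, q, o⟩
    by_cases hq : Function.Injective q
    · have hq' : Function.Injective (fun i => (q i : ℝ)) := by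
        intro i j hij
        apply hq
        have : (q i : ℝ) = (q j : ℝ) := hij
        exact_mod_cast this
      obtain ⟨σ, hσ, hsep⟩ := exists_sep hq'
      cases o with
      | none =>
        refine ⟨1, fun k => ?_⟩
        simp only [A, hq, if_true]
        exact (h a).bd _
      | some i =>
        simp only [A, hq, if_true]
        exact bdd_of_ev ((h a).bound_g hφ hσ hsep (to_fl hφ _) i)
    · refine ⟨0, fun k => ?_⟩
      simp [A, hq]
  obtain ⟨ψ, hψ, hl⟩ := diag hbd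
  refine ⟨ψ, hψ, ?_⟩
  intro a
  apply (h a).exists_lim (hφ.comp hψ.tendsto_atTop)
  intro q hq
  constructor
  · have := hl ⟨a, q, none⟩
    simp only [A, hq, if_true] at this
    exact this
  · intro i
    have := hl ⟨a, q, some i⟩
    simp only [A, hq, if_true] at this
    exact this

end Pool.Agent.U167.HP.An
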