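import Pool.Agent.U167.HP.An2

/-!
Scaling limits of functions on `ℤⁿ`: regularity.
-/

set_option maxHeartbeats 1000000

namespace Pool.Agent.U167.HP.An

open Filter Topology Asymptotics

variable {n : ℕ} {F : (Fin n → ℤ) → ℝ} {K L : ℝ} {φ : ℕ → ℕ} {f : (Fin n → ℝ) → ℝ}
  {g : Fin n → (Fin n → ℝ) → ℝ}

theorem SepR.inj {u : Fin n → ℝ} {σ : ℝ} (hσ : 0 < σ) (hu : SepR σ u) : Function.Injective u := by
  intro i j hij
  by_contra hne
  have := hu i j hne
  rw [hij, sub_self, abs_zero] at this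
  linarith

theorem near_sep {u w : Fin n → ℝ} {σ : ℝ} (hu : SepR σ u) (hw : ∀ k, |w k - u k| ≤ σ / 8) :
    SepR (σ / 2) w := by
  intro i j hij
  have h1 := hu i j hij
  have h2 := hw i
  have h3 := hw j
  have e : u i - u j = (w i - w j) - (w i - u i) + (w j - u j) := by ring
  rw [e] at h1
  have a1 := abs_add_le ((w i - w j) - (w i - u i)) (w j - u j)
  have a2 := abs_sub (w i - w j) (w i - u i)
  linarith [abs_nonneg (w i - w j), abs_nonneg (w i - u i)]

/-- The boxes of a configuration near `u`. -/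
theorem ev_box' (hφ : Tendsto φ atTop atTop) {u w : Fin n → ℝ} {σ : ℝ} (hσ : 0 < σ)
    (hw : ∀ k, |w k - u k| ≤ σ / 8) {y : ℕ → Fin n → ℤ} (hy : To φ y w) :
    ∀ᶠ k in atTop, 0 < φ k ∧ Box (fun i => (φ k : ℝ) * u i) (φ k * σ / 4) (y k) := by
  filter_upwards [ev_box hφ hy (show 0 < σ / 8 by positivity)] with k hk
  refine ⟨hk.1, ?_⟩
  have hk0 : (0:ℝ) < φ k := by exact_mod_cast hk.1
  intro i
  have a1 : |(y k i : ℝ) - φ k * w i| ≤ φ k * (σ / 8) := hk.2 i
  have a2 : |(φ k : ℝ) * w i - φ k * u i| ≤ φ k * (σ / 8) := by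
    rw [← mul_sub, abs_mul, abs_of_pos hk0]
    exact mul_le_mul_of_nonneg_left (hw i) hk0.le
  show |(y k i : ℝ) - φ k * u i| ≤ φ k * σ / 4
  have e : (y k i : ℝ) - φ k * u i = ((y k i : ℝ) - φ k * w i) + (φ k * w i - φ k * u i) := by ring
  rw [e]
  have := abs_add_le ((y k i : ℝ) - φ k * w i) (φ k * w i - φ k * u i)
  linarith

theorem d1_tendsto {u w : Fin n → ℝ} {x y : ℕ → Fin n → ℤ} (hx : To φ x w) (hy : To φ y u) :
    Tendsto (fun k => (d1 (x k) (y k) : ℝ) / φ k) atTop (𝓝 (∑ i, |w i - u i|)) := by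
  have h1 : Tendsto (fun k => ∑ i, |(x k i : ℝ) / φ k - (y k i : ℝ) / φ k|) atTop
      (𝓝 (∑ i, |w i - u i|)) :=
    tendsto_finsetSum _ (fun i _ => ((hx i).sub (hy i)).abs)
  refine h1.congr ?_
  intro k
  rw [d1_eq, Finset.sum_div]
  apply Finset.sum_congr rfl
  intro i _
  rw [← sub_div, abs_div, Nat.abs_cast]

variable (h : Reg F K L) (hφ : Tendsto φ atTop atTop) (hf : IsLim F φ f g)

include h hφ hf

theorem lim_bd {u : Fin n → ℝ} (hu : Function.Injective u) : |f u| ≤ 1 := by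
  have := (hf u hu _ (to_fl hφ u)).1.abs
  exact le_of_tendsto' this (fun k => h.bd _)

theorem lim_first {u : Fin n → ℝ} {σ : ℝ} (hσ : 0 < σ) (hu : SepR σ u) (i : Fin n) :
    |g i u| ≤ 2 * K / σ := by
  have h1 := ((hf u (hu.inj hσ) _ (to_fl hφ u)).2 i).abs
  exact le_of_tendsto h1 (h.bound_g hφ hσ hu (to_fl hφ u) i)

theorem lim_lip {u w : Fin n → ℝ} {σ : ℝ} (hσ : 0 < σ) (hu : SepR σ u)
    (hw : ∀ k, |w k - u k| ≤ σ / 8) (i : Fin n) :
    |g i w - g i u| ≤ 4 * L / σ ^ 2 * ∑ k, |w k - u k| := by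
  have hui := hu.inj hσ
  have hwi := (near_sep hu hw).inj (by positivity)
  have t1 := (hf w hwi _ (to_fl hφ w)).2 i
  have t2 := (hf u hui _ (to_fl hφ u)).2 i
  have t3 := (d1_tendsto (to_fl hφ w) (to_fl hφ u)).const_mul (4 * L / σ ^ 2)
  refine le_of_tendsto_of_tendsto (t1.sub t2).abs t3 ?_
  filter_upwards [ev_box' hφ hσ hw (to_fl hφ w),
    ev_box' (u := u) (w := u) hφ hσ (fun k => by rw [sub_self, abs_zero]; positivity)
      (to_fl hφ u)] with k hk1 hk2
  have hk0 : (0:ℝ) < φ k := by exact_mod_cast hk1.1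
  exact (h.est hσ hu hk0 hk1.2 hk2.2).2.1 i

theorem lim_lip0 {u w : Fin n → ℝ} {σ : ℝ} (hσ : 0 < σ) (hu : SepR σ u)
    (hw : ∀ k, |w k - u k| ≤ σ / 8) :
    |f w - f u| ≤ 2 * K / σ * ∑ k, |w k - u k| := by
  have hui := hu.inj hσ
  have hwi := (near_sep hu hw).inj (by positivity)
  have t1 := (hf w hwi _ (to_fl hφ w)).1
  have t2 := (hf u hui _ (to_fl hφ u)).1
  have t3 := (d1_tendsto (to_fl hφ w) (to_fl hφ u)).const_mul (2 * K / σ)
  refine le_of_tendsto_of_tendsto (t1.sub t2).abs t3 ?_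
  filter_upwards [ev_box' hφ hσ hw (to_fl hφ w),
    ev_box' (u := u) (w := u) hφ hσ (fun k => by rw [sub_self, abs_zero]; positivity)
      (to_fl hφ u)] with k hk1 hk2
  have hk0 : (0:ℝ) < φ k := by exact_mod_cast hk1.1
  exact (h.est hσ hu hk0 hk1.2 hk2.2).1

theorem lim_quad {u w : Fin n → ℝ} {σ : ℝ} (hσ : 0 < σ) (hu : SepR σ u)
    (hw : ∀ k, |w k - u k| ≤ σ / 8) :
    |f w - f u - ∑ k, (w k - u k) * g k u| ≤ 4 * L / σ ^ 2 * (∑ k, |w k - u k|) ^ 2 := by
  have hui := hu.inj hσ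
  have hwi := (near_sep hu hw).inj (by positivity)
  have t1 := (hf w hwi _ (to_fl hφ w)).1
  have t2 := (hf u hui _ (to_fl hφ u)).1
  have t3 := ((d1_tendsto (to_fl hφ w) (to_fl hφ u)).pow 2).const_mul (4 * L / σ ^ 2)
  have t4 : Tendsto (fun j => ∑ k, ((fl (φ j) w k : ℝ) / φ j - (fl (φ j) u k : ℝ) / φ j) *
      ((φ j : ℝ) * D k F (fl (φ j) u))) atTop (𝓝 (∑ k, (w k - u k) * g k u)) :=
    tendsto_finsetSum _ (fun k _ => ((to_fl hφ w k).sub (to_fl hφ u k)).mul
      ((hf u hui _ (to_fl hφ u)).2 k))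
  refine le_of_tendsto_of_tendsto ((t1.sub t2).sub t4).abs t3 ?_
  filter_upwards [ev_box' hφ hσ hw (to_fl hφ w),
    ev_box' (u := u) (w := u) hφ hσ (fun k => by rw [sub_self, abs_zero]; positivity)
      (to_fl hφ u)] with k hk1 hk2
  have hk0 : (0:ℝ) < φ k := by exact_mod_cast hk1.1
  have := (h.est hσ hu hk0 hk1.2 hk2.2).2.2
  refine le_trans (le_of_eq ?_) this
  unfold err
  congr 2
  apply Finset.sum_congr rfl
  intro i _
  field_simp

/-- The derivative of the limit. -/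
noncomputable def dF (g : Fin n → (Fin n → ℝ) → ℝ) (u : Fin n → ℝ) : (Fin n → ℝ) →L[ℝ] ℝ :=
  ∑ k, g k u • (ContinuousLinearMap.proj k : (Fin n → ℝ) →L[ℝ] ℝ)

omit h hφ hf in
theorem dF_apply (g : Fin n → (Fin n → ℝ) → ℝ) (u v : Fin n → ℝ) :
    dF g u v = ∑ k, v k * g k u := by
  unfold dF
  rw [sum_apply]
  apply Finset.sum_congr rfl
  intro k _
  rw [smul_apply, ContinuousLinearMap.proj_apply, smul_eq_mul, mul_comm]

omit h hφ hf in
theorem sum_abs_le (v : Fin n → ℝ) : ∑ k, |v k| ≤ n * ‖v‖ := by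
  calc ∑ k, |v k| ≤ ∑ _k : Fin n, ‖v‖ := by
        apply Finset.sum_le_sum
        intro k _
        rw [← Real.norm_eq_abs]
        exact norm_le_pi_norm v k
    _ = n * ‖v‖ := by simp

omit h hφ hf in
theorem ev_near (u : Fin n → ℝ) {σ : ℝ} (hσ : 0 < σ) :
    ∀ᶠ w in 𝓝 u, ∀ k, |w k - u k| ≤ σ / 8 := by
  filter_upwards [Metric.ball_mem_nhds u (show 0 < σ / 8 by positivity)] with w hw
  intro k
  rw [Metric.mem_ball] at hw
  have := dist_le_pi_dist w u k
  rw [Real.dist_eq] at this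
  linarith

theorem lim_fderiv {u : Fin n → ℝ} (hu : Function.Injective u) : HasFDerivAt f (dF g u) u := by
  obtain ⟨σ, hσ, hsep⟩ := exists_sep hu
  rw [hasFDerivAt_iff_isLittleO]
  have h1 : (fun w => f w - f u - dF g u (w - u)) =O[𝓝 u] (fun w => ‖w - u‖ ^ 2) := by
    refine IsBigO.of_bound (4 * L / σ ^ 2 * n ^ 2) ?_
    filter_upwards [ev_near u hσ] with w hw
    rw [dF_apply]
    have h2 := lim_quad h hφ hf hσ hsep hw
    rw [Real.norm_eq_abs]
    refine h2.trans ?_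
    rw [Real.norm_eq_abs, abs_of_nonneg (by positivity)]
    have h3 := sum_abs_le (w - u)
    have h4 : 0 ≤ ∑ k, |w k - u k| := Finset.sum_nonneg (fun _ _ => abs_nonneg _)
    have h5 : (∑ k, |w k - u k|) ^ 2 ≤ (n * ‖w - u‖) ^ 2 := pow_le_pow_left₀ h4 h3 2
    have hK := h.nonneg'
    calc 4 * L / σ ^ 2 * (∑ k, |w k - u k|) ^ 2 ≤ 4 * L / σ ^ 2 * (n * ‖w - u‖) ^ 2 := by gcongr
      _ = 4 * L / σ ^ 2 * n ^ 2 * ‖w - u‖ ^ 2 := by ring
  have h2 : (fun w => ‖w - u‖ ^ 2) =o[𝓝 u] (fun w => w - u) := by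
    have h3 : (fun x : Fin n → ℝ => ‖x‖ ^ 2) =o[𝓝 0] (fun x => x) := by
      have := isLittleO_norm_pow_id (E' := Fin n → ℝ) (n := 2) (by norm_num)
      exact this
    have h4 : Tendsto (fun w : Fin n → ℝ => w - u) (𝓝 u) (𝓝 0) := by
      have : Tendsto (fun w : Fin n → ℝ => w - u) (𝓝 u) (𝓝 (u - u)) :=
        (continuous_sub_right u).tendsto u
      rwa [sub_self] at this
    exact h3.comp_tendsto h4
  exact h1.trans_isLittleO h2

theorem lim_cont_g {u : Fin n → ℝ} (hu : Function.Injective u) (i : Fin n) :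
    ContinuousAt (g i) u := by
  obtain ⟨σ, hσ, hsep⟩ := exists_sep hu
  rw [ContinuousAt, tendsto_iff_dist_tendsto_zero]
  have h1 : Tendsto (fun w : Fin n → ℝ => 4 * L / σ ^ 2 * ∑ k, |w k - u k|) (𝓝 u) (𝓝 0) := by
    have : Continuous (fun w : Fin n → ℝ => 4 * L / σ ^ 2 * ∑ k, |w k - u k|) := by fun_prop
    have h2 := this.tendsto u
    simpa using h2
  refine squeeze_zero' (Eventually.of_forall (fun _ => dist_nonneg)) ?_ h1
  filter_upwards [ev_near u hσ] with w hw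
  rw [Real.dist_eq]
  exact lim_lip h hφ hf hσ hsep hw i

omit h hφ hf in
theorem inj_open : IsOpen {u : Fin n → ℝ | Function.Injective u} := by
  rw [isOpen_iff_mem_nhds]
  intro u hu
  obtain ⟨σ, hσ, hsep⟩ := exists_sep hu
  filter_upwards [ev_near u hσ] with w hw
  exact (near_sep hsep hw).inj (by positivity)

theorem lim_contDiff : ContDiffOn ℝ 1 f {u : Fin n → ℝ | Function.Injective u} := by
  intro u hu
  apply ContDiffAt.contDiffWithinAt
  rw [contDiffAt_one_iff]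
  refine ⟨dF g, {u : Fin n → ℝ | Function.Injective u}, inj_open.mem_nhds hu, ?_, ?_⟩
  · intro w hw
    apply ContinuousAt.continuousWithinAt
    unfold dF
    apply tendsto_finsetSum
    intro k _
    exact (lim_cont_g h hφ hf hw k).smul continuousAt_const
  · intro w hw
    exact lim_fderiv h hφ hf hw

theorem lim_partial {u : Fin n → ℝ} (hu : Function.Injective u) (i : Fin n) :
    fderiv ℝ f u (Pi.single i 1) = g i u := by
  rw [(lim_fderiv h hφ hf hu).fderiv, dF_apply, Finset.sum_eq_single i]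
  · rw [Pi.single_eq_same, one_mul]
  · intro k _ hk
    rw [Pi.single_eq_of_ne hk, zero_mul]
  · intro hi
    exact absurd (Finset.mem_univ i) hi

omit h in
theorem lim_shift (hs : ∀ x (s : ℤ), F (fun i => x i + s) = F x) {u : Fin n → ℝ}
    (hu : Function.Injective u) (c : ℝ) : f (fun i => u i + c) = f u := by
  have hu' : Function.Injective (fun i => u i + c) := by
    intro i j hij
    exact hu (add_right_cancel hij)
  have hc : Tendsto (fun k => ((⌊(φ k : ℝ) * c⌋ : ℤ) : ℝ) / φ k) atTop (𝓝 c) :=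
    to_fl (n := 1) hφ (fun _ => c) 0
  have t1 : To φ (fun k i => fl (φ k) u i + ⌊(φ k : ℝ) * c⌋) (fun i => u i + c) := by
    intro i
    refine ((to_fl hφ u i).add hc).congr ?_
    intro k
    push_cast
    ring
  have t2 := (hf _ hu' _ t1).1
  have t3 := (hf u hu _ (to_fl hφ u)).1
  refine tendsto_nhds_unique t2 (t3.congr ?_)
  intro k
  exact (hs _ _).symm

end Pool.Agent.U167.HP.An
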