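import Pool.Agent.U167.HP.Sec
import Pool.Agent.R752.GL.UF

/-!
The arrival law of the exploration path in the half-plane: dependence on the starting point.
-/

set_option maxHeartbeats 1000000

namespace Pool.Agent.U167.HP

open H974 H731C H985LC Finset MeasureTheory

/-- `(k, 0)` is the first vertex of `[0, ∞)` which is joined to `(-∞, -N]`. -/
def Af (N k : ℤ) : Set (sqLattice.edgeSet → Bool) :=
  {ω | (∃ s, s ≤ -N ∧ con (opn ω) s k) ∧
    ∀ s t, s ≤ -N → 0 ≤ t → t < k → ¬ con (opn ω) s t}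

theorem Af_meas (N k : ℤ) : MeasurableSet (Af N k) := by
  have : Af N k = (⋃ s : ℤ, ⋃ _ : s ≤ -N, {ω | con (opn ω) s k}) ∩
      (⋂ s : ℤ, ⋂ t : ℤ, ⋂ _ : s ≤ -N ∧ 0 ≤ t ∧ t < k, {ω | con (opn ω) s t}ᶜ) := by
    ext ω
    unfold Af
    simp only [Set.mem_ofPred_eq, Set.mem_inter_iff, Set.mem_iUnion, Set.mem_iInter,
      Set.mem_compl_iff, exists_prop]
    constructor
    · rintro ⟨h1, h2⟩
      exact ⟨h1, fun s t h => h2 s t h.1 h.2.1 h.2.2⟩
    · rintro ⟨h1, h2⟩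
      exact ⟨h1, fun s t h3 h4 h5 => h2 s t ⟨h3, h4, h5⟩⟩
  rw [this]
  apply MeasurableSet.inter
  · exact MeasurableSet.iUnion (fun s => MeasurableSet.iUnion (fun _ => con_meas s k))
  · exact MeasurableSet.iInter (fun s => MeasurableSet.iInter (fun t =>
      MeasurableSet.iInter (fun _ => (con_meas s t).compl)))

/-- The configurations for which the starting point `-N` matters. -/
structure Diff (N k : ℤ) (ω : sqLattice.edgeSet → Bool) : Prop where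
  left : ∀ r, 0 ≤ r → r ≤ N → tipL (-N) r (opn ω)
  right : ∀ r, 0 ≤ r → r ≤ k → tipL k r (opn ω)
  op : ∃ s, s ≤ -N ∧ con (opn ω) k s
  cl : ∀ s t, s ≤ -(N + 1) → 0 ≤ t → t < k → ¬ con (opn ω) s t

theorem diff_of {N k : ℤ} (hN : 1 ≤ N) (hk : 0 ≤ k) {ω : sqLattice.edgeSet → Bool}
    (h : ¬ (ω ∈ Af N k ↔ ω ∈ Af (N + 1) k)) : Diff N k ω := by
  by_cases h1 : ω ∈ Af N k
  · have h2 : ω ∉ Af (N + 1) k := fun h2 => h ⟨fun _ => h2, fun _ => h1⟩
    obtain ⟨⟨s, hs, hc⟩, hno⟩ := h1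
    have hno' : ∀ s, s ≤ -(N + 1) → ¬ con (opn ω) s k := by
      intro s hs hc
      exact h2 ⟨⟨s, hs, hc⟩, fun s t hs => hno s t (by omega)⟩
    have hsN : s = -N := by
      by_contra hne
      exact hno' s (by omega) hc
    subst hsN
    refine ⟨?_, ?_, ⟨-N, le_rfl, con_symm hc⟩, fun s t hs => hno s t (by omega)⟩
    · intro r hr hrN
      refine ⟨exit hr hc (by omega), ?_⟩
      intro w _ hw2 hw3
      exact hno' w (by omega) (con_trans (con_symm (con_of_reach hw3)) hc)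
    · intro r hr hrk
      refine ⟨exit hr (con_symm hc) (by omega), ?_⟩
      intro w hw1 hw2 hw3
      exact hno (-N) w le_rfl (by omega) hw2 (con_trans hc (con_of_reach hw3))
  · have h2 : ω ∈ Af (N + 1) k := by
      by_contra h2
      exact h ⟨fun h3 => absurd h3 h1, fun h3 => absurd h3 h2⟩
    obtain ⟨⟨s, hs, hc⟩, hno⟩ := h2
    obtain ⟨t, ht0, htk, hct⟩ : ∃ t, 0 ≤ t ∧ t < k ∧ con (opn ω) (-N) t := by
      by_contra hcon
      push Not at hcon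
      apply h1
      refine ⟨⟨s, by omega, hc⟩, ?_⟩
      intro s' t hs' ht0 htk hct
      by_cases h3 : s' = -N
      · subst h3
        exact hcon t ht0 htk hct
      · exact hno s' t (by omega) ht0 htk hct
    refine ⟨?_, ?_, ⟨s, by omega, con_symm hc⟩, hno⟩
    · intro r hr hrN
      refine ⟨exit hr hct (by omega), ?_⟩
      intro w _ hw2 hw3
      exact hno w t (by omega) ht0 htk (con_trans (con_symm (con_of_reach hw3)) hct)
    · intro r hr hrk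
      refine ⟨exit hr (con_symm hc) (by omega), ?_⟩
      intro w hw1 hw2 hw3
      exact hno s w hs (by omega) hw2 (con_trans hc (con_of_reach hw3))

/-- An open arm around the origin. -/
theorem Diff.arm {N k m n : ℤ} {ω : sqLattice.edgeSet → Bool} (h : Diff N k ω) (hk : 0 ≤ k)
    (hm : k ≤ m) (hmn : m ≤ n) (hn : n ≤ N) {S : Finset Edg}
    (hS : RE (-n) n 0 n \ RE (-m) m 0 m ⊆ S) : HA 0 0 m n (FF S ω) := by
  obtain ⟨s, hs, hc⟩ := h.op
  obtain ⟨w, hw1, hw2, hw3⟩ := first_exit (a := -n) (b := n) (c := -1) (d := n)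
    (u := (k, 0)) (v := (s, 0)) (G := opn ω ∩ up)
    ⟨⟨by show -n ≤ k; omega, by show k ≤ n; omega⟩, by show (-1:ℤ) ≤ 0; omega,
      by show (0:ℤ) ≤ n; omega⟩ hc (by
      show s ≤ -n ∨ _
      omega)
  have hw4 : Reach (opn ω ∩ ↑(RE (-n) n 0 n)) (k, 0) w := by
    refine hw3.mono ?_
    rintro ⟨x, y, _ | _⟩ ⟨⟨h1, h2⟩, h3⟩
    · refine ⟨h1, ?_⟩
      have h2' : 0 ≤ y := h2
      rw [mem_coe, mem_RE_false] at h3 ⊢
      omega
    · refine ⟨h1, ?_⟩
      have h2' : 0 ≤ y := h2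
      rw [mem_coe, mem_RE_true] at h3 ⊢
      omega
  have hw5 : inR (-n) n 0 n w :=
    reach_inR (u := (k, 0)) ⟨⟨by show -n ≤ k; omega, by show k ≤ n; omega⟩, le_refl _,
      by show (0:ℤ) ≤ n; omega⟩ hw4
  have hHA : HA 0 0 m n (FF (RE (-n) n 0 n) ω) := by
    refine ⟨(k, 0), w, ⟨⟨by show 0 - m ≤ k; omega, by show k ≤ 0 + m; omega⟩, le_refl _,
      by show (0:ℤ) ≤ 0 + m; omega⟩, ?_, ?_⟩
    · have := hw5.2.1
      unfold onH
      omega
    · rw [FF_coe, zero_sub, zero_add, Set.inter_assoc, Set.inter_self]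
      exact hw4
  have h2 := R752GL.UF.HA_loc hHA
  refine HA_incr (FF S ω) _ _ _ _ _ _ ?_ (Finset.Subset.refl _) h2
  intro e he
  rw [mem_inter, zero_sub, zero_add, zero_sub, zero_add, mem_FF] at he
  rw [mem_FF]
  exact ⟨hS he.2, he.1.2⟩

open Classical in
/-- The edges of the box of radius `ρ` whose dual edges are in the half-annulus around the face
`(z, -1)`. -/
noncomputable def SD (ρ z m n : ℤ) : Finset Edg :=
  (RE (-ρ) ρ 0 ρ).filter (fun e => dl e ∈ RE (z - n) (z + n) (-1) (-1 + n) \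
    RE (z - m) (z + m) (-1) (-1 + m))

theorem mem_SD {ρ z m n : ℤ} {e : Edg} : e ∈ SD ρ z m n ↔ e ∈ RE (-ρ) ρ 0 ρ ∧
    dl e ∈ RE (z - n) (z + n) (-1) (-1 + n) \ RE (z - m) (z + m) (-1) (-1 + m) := by
  unfold SD
  rw [Finset.mem_filter]

/-- A dual arm. -/
theorem Diff.dual {N k ρ n : ℤ} {ω : sqLattice.edgeSet → Bool} (h : Diff N k ω) (hN : 1 ≤ N)
    (hρ : ρ < k) (hn1 : N + 1 ≤ n) (hn2 : n + (N + 1) + 2 ≤ ρ) :
    HA (-(N + 1)) (-1) (N + 1) n (dmp (SD ρ (-(N + 1)) (N + 1) n \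
      FF (SD ρ (-(N + 1)) (N + 1) n) ω)) := by
  have hno : ¬ CN (-ρ) (-(N + 1)) 0 ρ (-ρ) ρ 0 ρ (FF (RE (-ρ) ρ 0 ρ) ω) := by
    rintro ⟨x, y, hx, hy, hr⟩
    rw [FF_coe, Set.inter_assoc, Set.inter_self] at hr
    refine h.cl x y hx.2 hy.1 (by omega) ?_
    refine hr.mono (Set.inter_subset_inter_right _ ?_)
    rintro ⟨a, b, _ | _⟩ h
    · rw [mem_coe, mem_RE_false] at h
      show 0 ≤ b
      omega
    · rw [mem_coe, mem_RE_true] at h
      show 0 ≤ b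
      omega
  have h1 := dual_arm (a := -ρ) (b := -(N + 1)) (c := 0) (d := ρ) (A := -ρ) (B := ρ)
    (D := ρ) (n := n) (F := FF (RE (-ρ) ρ 0 ρ) ω) (by omega) (by omega) (by omega) (by omega)
    (by omega) (by omega) (by omega) (by omega) (by omega) hno
  rw [show (0:ℤ) - -(N + 1) = N + 1 by ring] at h1
  have h2 := R752GL.UF.HA_loc h1
  refine HA_incr (dmp (SD ρ (-(N + 1)) (N + 1) n \ FF (SD ρ (-(N + 1)) (N + 1) n) ω))
    _ _ _ _ _ _ ?_ (Finset.Subset.refl _) h2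
  intro e he
  rw [mem_inter, mem_dmp, mem_sdiff, mem_FF] at he
  obtain ⟨⟨he1, he2⟩, he3⟩ := he
  rw [mem_dmp, mem_sdiff, mem_SD, mem_FF]
  refine ⟨⟨he1, ?_⟩, fun h => he2 ⟨he1, h.2⟩⟩
  rw [Equiv.apply_symm_apply]
  exact he3

/-- Three independent local events. -/
theorem indep3 {A1 A2 A3 : Finset Edg} (h12 : Disjoint A1 A2) (h13 : Disjoint A1 A3)
    (h23 : Disjoint A2 A3) (E1 E2 E3 : Finset Edg → Prop) :
    (bondLaw half).real {ω | E1 (FF A1 ω) ∧ E2 (FF A2 ω) ∧ E3 (FF A3 ω)} =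
      P2 A1 E1 * (P2 A2 E2 * P2 A3 E3) := by
  classical
  obtain ⟨U, hU⟩ : ∃ U : Finset Edg, U = A1 ∪ (A2 ∪ A3) := ⟨_, rfl⟩
  have s1 : A1 ⊆ U := by rw [hU]; exact Finset.subset_union_left
  have s23 : A2 ∪ A3 ⊆ U := by rw [hU]; exact Finset.subset_union_right
  have e : ∀ (A : Finset Edg), A ⊆ U → ∀ ω, FF A ω = FF U ω ∩ A := by
    intro A hA ω
    ext x
    rw [mem_inter, mem_FF, mem_FF]
    constructor
    · rintro ⟨h1, h2⟩
      exact ⟨⟨hA h1, h2⟩, h1⟩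
    · rintro ⟨⟨h1, h2⟩, h3⟩
      exact ⟨h3, h2⟩
  have h0 : {ω : sqLattice.edgeSet → Bool | E1 (FF A1 ω) ∧ E2 (FF A2 ω) ∧ E3 (FF A3 ω)} =
      {ω | (fun F => E1 (F ∩ A1) ∧ (fun G => E2 (G ∩ A2) ∧ E3 (G ∩ A3)) (F ∩ (A2 ∪ A3)))
        (FF U ω)} := by
    ext ω
    simp only [Set.mem_ofPred_eq]
    rw [e A1 s1, e A2 (Finset.subset_union_left.trans s23), e A3 (Finset.subset_union_right.trans s23)]
    have hsub2 : FF U ω ∩ (A2 ∪ A3) ∩ A2 = FF U ω ∩ A2 := by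
      ext x
      simp only [mem_inter, mem_union]
      tauto
    have hsub3 : FF U ω ∩ (A2 ∪ A3) ∩ A3 = FF U ω ∩ A3 := by
      ext x
      simp only [mem_inter, mem_union]
      tauto
    rw [hsub2, hsub3]
  rw [h0]
  have h3 := law_event half U
    (fun F => E1 (F ∩ A1) ∧ (fun G => E2 (G ∩ A2) ∧ E3 (G ∩ A3)) (F ∩ (A2 ∪ A3)))
  have i1 := P2_indep s1 s23 (Finset.disjoint_union_right.mpr ⟨h12, h13⟩) E1
    (fun G => E2 (G ∩ A2) ∧ E3 (G ∩ A3))
  have i2 := P2_indep (U := A2 ∪ A3) Finset.subset_union_left Finset.subset_union_right h23 E2 E3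
  rw [i2] at i1
  exact h3.trans i1

end Pool.Agent.U167.HP
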