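import Pool.Agent.U167.HP.Arr

/-!
The arrival law of the exploration path in the half-plane: the bound for the change of the
starting point.
-/

set_option maxHeartbeats 1000000

namespace Pool.Agent.U167.HP

open H974 H731C H985LC Finset MeasureTheory

/-- The probability of a tip, down to the lattice scale. -/
theorem tip_bound : ∃ C : ℝ, 0 < C ∧ ∀ v x r : ℤ, 1 ≤ x → x ≤ 4 * r + 4 →
    P2 (HB v r) (fun F => 1 ≤ r → TL v r F) ≤ C / x := by
  obtain ⟨C, hC, ht⟩ := tau_le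
  refine ⟨8 * C + 4, by positivity, ?_⟩
  intro v x r hx hxr
  have hx0 : (0:ℝ) < x := by exact_mod_cast (by omega : (0:ℤ) < x)
  rcases lt_or_ge r 1 with h | h
  · have h1 : P2 (HB v r) (fun F => 1 ≤ r → TL v r F) ≤ 1 := Pr_le_one okhalf2 _ _
    refine h1.trans ?_
    rw [le_div_iff₀ hx0]
    have : (x:ℝ) ≤ 4 := by exact_mod_cast (by omega : x ≤ 4)
    linarith
  · have h0 : P2 (HB v r) (fun F => 1 ≤ r → TL v r F) ≤ P2 (HB v r) (TL v r) := by
      apply Pr_mono okhalf2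
      intro F _ hF
      exact hF h
    have h1 := pr_TL (v := v) (r := r) (Finset.Subset.refl _)
    rw [h1] at h0
    refine h0.trans ((ht r h).trans ?_)
    have hr0 : (0:ℝ) < r := by exact_mod_cast (by omega : (0:ℤ) < r)
    rw [div_le_div_iff₀ hr0 hx0]
    have : (x:ℝ) ≤ 8 * r := by exact_mod_cast (by omega : x ≤ 8 * r)
    nlinarith

/-- The configurations for which the starting point matters. -/
def sdf (N k : ℤ) : Set (sqLattice.edgeSet → Bool) := {ω | ¬ (ω ∈ Af N k ↔ ω ∈ Af (N + 1) k)}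

theorem le_event {N k : ℤ} {A1 A2 A3 : Finset Edg} (h12 : Disjoint A1 A2) (h13 : Disjoint A1 A3)
    (h23 : Disjoint A2 A3) (E1 E2 E3 : Finset Edg → Prop)
    (h1 : ∀ ω ∈ sdf N k, E1 (FF A1 ω)) (h2 : ∀ ω ∈ sdf N k, E2 (FF A2 ω))
    (h3 : ∀ ω ∈ sdf N k, E3 (FF A3 ω)) :
    (bondLaw half).real (sdf N k) ≤ P2 A1 E1 * (P2 A2 E2 * P2 A3 E3) := by
  rw [← indep3 h12 h13 h23 E1 E2 E3]
  apply measureReal_mono
  · intro ω hω
    exact ⟨h1 ω hω, h2 ω hω, h3 ω hω⟩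
  · exact measure_ne_top _ _

theorem TL_of {v r : ℤ} {ω : sqLattice.edgeSet → Bool} (h : tipL v r (opn ω)) :
    TL v r (FF (HB v r) ω) := (tipL_iff (Finset.Subset.refl _)).mp h

/-- Near the origin. -/
theorem sd_near : ∃ C : ℝ, 0 < C ∧ ∀ N k : ℤ, 1 ≤ N → 0 ≤ k → k + 1 ≤ N →
    (bondLaw half).real (sdf N k) ≤
      C / ((N : ℝ) * (k + 1)) * (((k : ℝ) + 1) / N) ^ ((1 : ℝ) / 3) := by
  obtain ⟨C1, hC1, hT⟩ := tip_bound
  obtain ⟨C2, hC2, hHA⟩ := HA_upper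
  refine ⟨C1 * C1 * (8 * C2 + 8), by positivity, ?_⟩
  intro N k hN hk hkN
  have hN0 : (0 : ℝ) < N := by exact_mod_cast (by omega : (0 : ℤ) < N)
  have hk0 : (0 : ℝ) < (k : ℝ) + 1 := by exact_mod_cast (by omega : (0 : ℤ) < k + 1)
  obtain ⟨Z, hZ⟩ : ∃ Z : ℝ, Z = (((k : ℝ) + 1) / N) ^ ((1 : ℝ) / 3) := ⟨_, rfl⟩
  rw [← hZ]
  have hZ0 : 0 < Z := by rw [hZ]; positivity
  have hkR : (k : ℝ) + 1 ≤ N := by exact_mod_cast hkN
  have hZl : ((k : ℝ) + 1) / N ≤ Z := by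
    rw [hZ]
    exact U2_rpow (by positivity) ((div_le_one hN0).2 hkR)
  obtain ⟨m, hm⟩ : ∃ m, m = 2 * (k + 1) := ⟨_, rfl⟩
  obtain ⟨n, hn⟩ : ∃ n, n = N / 2 := ⟨_, rfl⟩
  obtain ⟨r1, hr1⟩ : ∃ r1, r1 = N / 4 := ⟨_, rfl⟩
  obtain ⟨r2, hr2⟩ : ∃ r2, r2 = k / 4 := ⟨_, rfl⟩
  obtain ⟨A2, hA2⟩ : ∃ A2, A2 = RE (-n) n 0 n \ RE (-m) m 0 m := ⟨_, rfl⟩
  have hd12 : Disjoint (HB (-N) r1) A2 := by
    rw [Finset.disjoint_left]
    intro e he1 he2
    rw [hA2] at he2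
    have g1 := (RE_ends he1).1
    have g2 := (RE_ends (mem_sdiff.1 he2).1).1
    simp only [inR] at g1 g2
    omega
  have hd13 : Disjoint (HB (-N) r1) (HB k r2) := by
    rw [Finset.disjoint_left]
    intro e he1 he2
    have g1 := (RE_ends he1).1
    have g2 := (RE_ends he2).1
    simp only [inR] at g1 g2
    omega
  have hd23 : Disjoint A2 (HB k r2) := by
    rw [Finset.disjoint_right]
    intro e he1 he2
    rw [hA2] at he2
    exact (mem_sdiff.1 he2).2 (RE_subset (by omega) (by omega) le_rfl (by omega) he1)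
  have key := le_event (N := N) (k := k) hd12 hd13 hd23 (fun F => 1 ≤ r1 → TL (-N) r1 F)
    (fun F => m ≤ n → HA 0 0 m n F) (fun F => 1 ≤ r2 → TL k r2 F)
    (fun ω hω _ => TL_of ((diff_of hN hk hω).left r1 (by omega) (by omega)))
    (fun ω hω hmn => (diff_of hN hk hω).arm hk (by omega) hmn (by omega) (by rw [hA2]))
    (fun ω hω _ => TL_of ((diff_of hN hk hω).right r2 (by omega) (by omega)))
  have b1 := hT (-N) N r1 hN (by omega)
  have b3 := hT k (k + 1) r2 (by omega) (by omega)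
  have b2 : P2 A2 (fun F => m ≤ n → HA 0 0 m n F) ≤ (8 * C2 + 8) * Z := by
    rcases le_or_gt m n with hs | hs
    · have h0 : P2 A2 (fun F => m ≤ n → HA 0 0 m n F) ≤ P2 A2 (HA 0 0 m n) := by
        apply Pr_mono okhalf2
        intro F _ hF
        exact hF hs
      have h1 : P2 A2 (HA 0 0 m n) ≤ P2 (RE (0 - n) (0 + n) 0 (0 + n)) (HA 0 0 m n) := by
        rw [hA2, zero_sub, zero_add]
        exact Pr_mono_set okhalf2 Finset.sdiff_subset (HA_incr _ _ _ _ _)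
      have h2 := hHA 0 0 m n (by omega) hs (RE (0 - n) (0 + n) 0 (0 + n)) (Finset.Subset.refl _)
      have hn0 : (0 : ℝ) < n := by exact_mod_cast (by omega : (0 : ℤ) < n)
      have hm0 : (0 : ℝ) < m := by exact_mod_cast (by omega : (0 : ℤ) < m)
      have h3 : ((m : ℝ) / n) ^ ((1 : ℝ) / 3) ≤ 8 * Z := by
        rw [hZ]
        have hmn : (m : ℝ) / n ≤ 8 * (((k : ℝ) + 1) / N) := by
          have e1 : (m : ℝ) = 2 * (k + 1) := by rw [hm]; push_cast; ring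
          have e2 : (N : ℝ) ≤ 4 * n := by exact_mod_cast (by omega : N ≤ 4 * n)
          rw [e1, mul_div_assoc', div_le_div_iff₀ hn0 hN0]
          nlinarith
        exact (Real.rpow_le_rpow (by positivity) hmn (by norm_num)).trans
          (F_cube_le (by positivity) (by norm_num))
      have h4 : C2 * ((m : ℝ) / n) ^ ((1 : ℝ) / 3) ≤ C2 * (8 * Z) :=
        mul_le_mul_of_nonneg_left h3 hC2.le
      nlinarith
    · have h1 : P2 A2 (fun F => m ≤ n → HA 0 0 m n F) ≤ 1 := Pr_le_one okhalf2 _ _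
      have h2 : (1 : ℝ) / 8 ≤ Z := by
        refine le_trans ?_ hZl
        have : (N : ℝ) ≤ 8 * (k + 1) := by exact_mod_cast (by omega : N ≤ 8 * (k + 1))
        rw [div_le_div_iff₀ (by norm_num) hN0]
        linarith
      nlinarith
  refine key.trans ?_
  calc P2 (HB (-N) r1) (fun F => 1 ≤ r1 → TL (-N) r1 F) *
        (P2 A2 (fun F => m ≤ n → HA 0 0 m n F) * P2 (HB k r2) (fun F => 1 ≤ r2 → TL k r2 F))
      ≤ C1 / N * ((8 * C2 + 8) * Z * (C1 / ((k + 1 : ℤ) : ℝ))) := by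
        refine mul_le_mul b1 (mul_le_mul b2 b3 (Pr_nonneg okhalf2 _ _) (by positivity)) ?_
          (by positivity)
        exact mul_nonneg (Pr_nonneg okhalf2 _ _) (Pr_nonneg okhalf2 _ _)
    _ = C1 * C1 * (8 * C2 + 8) / ((N : ℝ) * (k + 1)) * Z := by
        push_cast
        field_simp

/-- Far from the origin. -/
theorem sd_far : ∃ C : ℝ, 0 < C ∧ ∀ N k : ℤ, 1 ≤ N → N ≤ k →
    (bondLaw half).real (sdf N k) ≤
      C / ((N : ℝ) * (k + 1)) * ((N : ℝ) / (k + 1)) ^ ((1 : ℝ) / 3) := by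
  obtain ⟨C1, hC1, hT⟩ := tip_bound
  obtain ⟨C2, hC2, hHA⟩ := HA_upper
  refine ⟨C1 * C1 * (16 * C2 + 32), by positivity, ?_⟩
  intro N k hN hkN
  have hk : 0 ≤ k := by omega
  have hN0 : (0 : ℝ) < N := by exact_mod_cast (by omega : (0 : ℤ) < N)
  have hk0 : (0 : ℝ) < (k : ℝ) + 1 := by exact_mod_cast (by omega : (0 : ℤ) < k + 1)
  obtain ⟨Z, hZ⟩ : ∃ Z : ℝ, Z = ((N : ℝ) / (k + 1)) ^ ((1 : ℝ) / 3) := ⟨_, rfl⟩
  rw [← hZ]
  have hZ0 : 0 < Z := by rw [hZ]; positivity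
  have hkR : (N : ℝ) ≤ k + 1 := by exact_mod_cast (by omega : N ≤ k + 1)
  have hZl : (N : ℝ) / (k + 1) ≤ Z := by
    rw [hZ]
    exact U2_rpow (by positivity) ((div_le_one hk0).2 hkR)
  obtain ⟨ρ, hρ⟩ : ∃ ρ, ρ = k / 2 := ⟨_, rfl⟩
  obtain ⟨n, hn⟩ : ∃ n, n = ρ - (N + 1) - 2 := ⟨_, rfl⟩
  obtain ⟨r1, hr1⟩ : ∃ r1, r1 = N / 4 := ⟨_, rfl⟩
  obtain ⟨r2, hr2⟩ : ∃ r2, r2 = k / 4 := ⟨_, rfl⟩
  obtain ⟨A2, hA2⟩ : ∃ A2, A2 = SD ρ (-(N + 1)) (N + 1) n := ⟨_, rfl⟩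
  have hd12 : Disjoint (HB (-N) r1) A2 := by
    rw [Finset.disjoint_left]
    intro e he1 he2
    rw [hA2, mem_SD] at he2
    apply (mem_sdiff.1 he2.2).2
    obtain ⟨x, y, _ | _⟩ := e
    · rw [mem_RE_false] at he1
      rw [dl_f, mem_RE_true]
      omega
    · rw [mem_RE_true] at he1
      rw [dl_t, mem_RE_false]
      omega
  have hd13 : Disjoint (HB (-N) r1) (HB k r2) := by
    rw [Finset.disjoint_left]
    intro e he1 he2
    have g1 := (RE_ends he1).1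
    have g2 := (RE_ends he2).1
    simp only [inR] at g1 g2
    omega
  have hd23 : Disjoint A2 (HB k r2) := by
    rw [Finset.disjoint_left]
    intro e he1 he2
    rw [hA2, mem_SD] at he1
    have g1 := (RE_ends he1.1).1
    have g2 := (RE_ends he2).1
    simp only [inR] at g1 g2
    omega
  have key := le_event (N := N) (k := k) hd12 hd13 hd23 (fun F => 1 ≤ r1 → TL (-N) r1 F)
    (fun F => 8 * (N + 1) ≤ ρ → HA (-(N + 1)) (-1) (N + 1) n (dmp (A2 \ F)))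
    (fun F => 1 ≤ r2 → TL k r2 F)
    (fun ω hω _ => TL_of ((diff_of hN hk hω).left r1 (by omega) (by omega)))
    (fun ω hω hmn => by
      rw [hA2]
      exact (diff_of hN hk hω).dual hN (by omega) (by omega) (by omega))
    (fun ω hω _ => TL_of ((diff_of hN hk hω).right r2 (by omega) (by omega)))
  have b1 := hT (-N) N r1 hN (by omega)
  have b3 := hT k (k + 1) r2 (by omega) (by omega)
  have b2 : P2 A2 (fun F => 8 * (N + 1) ≤ ρ → HA (-(N + 1)) (-1) (N + 1) n (dmp (A2 \ F))) ≤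
      (16 * C2 + 32) * Z := by
    rcases le_or_gt (8 * (N + 1)) ρ with hs | hs
    · have h0 : P2 A2 (fun F => 8 * (N + 1) ≤ ρ → HA (-(N + 1)) (-1) (N + 1) n (dmp (A2 \ F))) ≤
          P2 A2 (fun F => HA (-(N + 1)) (-1) (N + 1) n (dmp (A2 \ F))) := by
        apply Pr_mono okhalf2
        intro F _ hF
        exact hF hs
      rw [P2_dual] at h0
      have h1 : P2 (dmp A2) (HA (-(N + 1)) (-1) (N + 1) n) ≤
          P2 (dmp A2 ∪ RE (-(N + 1) - n) (-(N + 1) + n) (-1) (-1 + n))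
            (HA (-(N + 1)) (-1) (N + 1) n) :=
        Pr_mono_set okhalf2 Finset.subset_union_left (HA_incr _ _ _ _ _)
      have h2 := hHA (-(N + 1)) (-1) (N + 1) n (by omega) (by omega)
        (dmp A2 ∪ RE (-(N + 1) - n) (-(N + 1) + n) (-1) (-1 + n)) Finset.subset_union_right
      have hn0 : (0 : ℝ) < n := by exact_mod_cast (by omega : (0 : ℤ) < n)
      have h3 : (((N + 1 : ℤ) : ℝ) / n) ^ ((1 : ℝ) / 3) ≤ 16 * Z := by
        rw [hZ]
        have hmn : ((N + 1 : ℤ) : ℝ) / n ≤ 16 * ((N : ℝ) / (k + 1)) := by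
          have e1 : ((N + 1 : ℤ) : ℝ) ≤ 2 * N := by exact_mod_cast (by omega : N + 1 ≤ 2 * N)
          have e2 : (k : ℝ) + 1 ≤ 8 * n := by exact_mod_cast (by omega : k + 1 ≤ 8 * n)
          rw [mul_div_assoc', div_le_div_iff₀ hn0 hk0]
          calc ((N + 1 : ℤ) : ℝ) * (k + 1) ≤ (2 * N) * (8 * n) :=
                mul_le_mul e1 e2 hk0.le (by positivity)
            _ = 16 * N * n := by ring
        have hN1 : (0:ℝ) < ((N + 1 : ℤ) : ℝ) := by exact_mod_cast (by omega : (0:ℤ) < N + 1)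
        exact (Real.rpow_le_rpow (by positivity) hmn (by norm_num)).trans
          (F_cube_le (by positivity) (by norm_num))
      have h4 : C2 * (((N + 1 : ℤ) : ℝ) / n) ^ ((1 : ℝ) / 3) ≤ C2 * (16 * Z) :=
        mul_le_mul_of_nonneg_left h3 hC2.le
      nlinarith
    · have h1 : P2 A2 (fun F => 8 * (N + 1) ≤ ρ →
          HA (-(N + 1)) (-1) (N + 1) n (dmp (A2 \ F))) ≤ 1 := Pr_le_one okhalf2 _ _
      have h2 : (1 : ℝ) / 32 ≤ Z := by
        refine le_trans ?_ hZl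
        have : (k : ℝ) + 1 ≤ 32 * N := by exact_mod_cast (by omega : k + 1 ≤ 32 * N)
        rw [div_le_div_iff₀ (by norm_num) hk0]
        linarith
      nlinarith
  refine key.trans ?_
  calc P2 (HB (-N) r1) (fun F => 1 ≤ r1 → TL (-N) r1 F) *
        (P2 A2 (fun F => 8 * (N + 1) ≤ ρ → HA (-(N + 1)) (-1) (N + 1) n (dmp (A2 \ F))) *
          P2 (HB k r2) (fun F => 1 ≤ r2 → TL k r2 F))
      ≤ C1 / N * ((16 * C2 + 32) * Z * (C1 / ((k + 1 : ℤ) : ℝ))) := by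
        refine mul_le_mul b1 (mul_le_mul b2 b3 (Pr_nonneg okhalf2 _ _) (by positivity)) ?_
          (by positivity)
        exact mul_nonneg (Pr_nonneg okhalf2 _ _) (Pr_nonneg okhalf2 _ _)
    _ = C1 * C1 * (16 * C2 + 32) / ((N : ℝ) * (k + 1)) * Z := by
        push_cast
        field_simp

theorem cube {x : ℝ} (hx : 0 < x) : ∃ a : ℝ, 0 < a ∧ x = a ^ 3 ∧ x ^ ((1 : ℝ) / 3) = a ∧
    x ^ ((2 : ℝ) / 3) = a ^ 2 := by
  refine ⟨x ^ ((1 : ℝ) / 3), by positivity, ?_, rfl, ?_⟩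
  · rw [← Real.rpow_natCast, ← Real.rpow_mul hx.le]
    norm_num
  · rw [← Real.rpow_natCast, ← Real.rpow_mul hx.le]
    norm_num

/-- The bound by the size of the arrival law. -/
theorem sd_le : ∃ C : ℝ, 0 < C ∧ ∀ N k : ℤ, 1 ≤ N → 0 ≤ k →
    (bondLaw half).real (sdf N k) ≤ C * (W N k / N) := by
  obtain ⟨C1, hC1, h1⟩ := sd_near
  obtain ⟨C2, hC2, h2⟩ := sd_far
  refine ⟨2 * C1 + 2 * C2, by positivity, ?_⟩
  intro N k hN hk
  have hN0 : (0 : ℝ) < N := by exact_mod_cast (by omega : (0 : ℤ) < N)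
  have hk0 : (0 : ℝ) < (k : ℝ) + 1 := by exact_mod_cast (by omega : (0 : ℤ) < k + 1)
  have hk00 : (0 : ℝ) ≤ k := by exact_mod_cast hk
  have hNk : (0 : ℝ) < (N : ℝ) + k := by linarith
  have hW : 0 < W N k / N := by unfold W; positivity
  -- `(N + k) ^ (2/3) ≤ 2 (max) ^ (2/3)`
  have two : ∀ x : ℝ, 0 < x → (N : ℝ) + k ≤ 2 * x → ((N : ℝ) + k) ^ ((2 : ℝ) / 3) ≤
      2 * x ^ ((2 : ℝ) / 3) := by
    intro x hx hle
    calc ((N : ℝ) + k) ^ ((2 : ℝ) / 3) ≤ (2 * x) ^ ((2 : ℝ) / 3) :=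
          Real.rpow_le_rpow hNk.le hle (by norm_num)
      _ = 2 ^ ((2 : ℝ) / 3) * x ^ ((2 : ℝ) / 3) := Real.mul_rpow (by norm_num) hx.le
      _ ≤ 2 ^ (1 : ℝ) * x ^ ((2 : ℝ) / 3) := by
          apply mul_le_mul_of_nonneg_right _ (by positivity)
          exact Real.rpow_le_rpow_of_exponent_le (by norm_num) (by norm_num)
      _ = 2 * x ^ ((2 : ℝ) / 3) := by rw [Real.rpow_one]
  obtain ⟨a, ha, ha3, ha1, ha2⟩ := cube hN0
  obtain ⟨b, hb, hb3, hb1, hb2⟩ := cube hk0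
  rcases le_or_gt (k + 1) N with h | h
  · refine (h1 N k hN hk h).trans ?_
    have hle : (N : ℝ) + k ≤ 2 * N := by
      have : (k : ℝ) + 1 ≤ N := by exact_mod_cast h
      linarith
    have e := two N hN0 hle
    have key : C1 / ((N : ℝ) * (k + 1)) * (((k : ℝ) + 1) / N) ^ ((1 : ℝ) / 3) ≤
        2 * C1 * (W N k / N) := by
      unfold W
      rw [Real.div_rpow hk0.le hN0.le, ha1, hb1, hb2]
      rw [ha2] at e
      have hs : 0 < ((N : ℝ) + k) ^ ((2 : ℝ) / 3) := by positivity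
      generalize ((N : ℝ) + k) ^ ((2 : ℝ) / 3) = s at *
      rw [ha3, hb3]
      have e1 : C1 / (a ^ 3 * b ^ 3) * (b / a) = C1 / (a ^ 4 * b ^ 2) := by
        field_simp
      have e2 : 2 * C1 * (a / (b ^ 2 * s) / a ^ 3) = C1 * (2 / (a ^ 2 * b ^ 2 * s)) := by
        field_simp
      rw [e1, e2, div_eq_mul_one_div]
      apply mul_le_mul_of_nonneg_left _ hC1.le
      rw [div_le_div_iff₀ (by positivity) (by positivity)]
      have : 0 < a ^ 2 * b ^ 2 := by positivity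
      nlinarith
    have : 0 < C2 * (W N k / N) := by positivity
    linarith
  · refine (h2 N k hN (by omega)).trans ?_
    have hle : (N : ℝ) + k ≤ 2 * (k + 1) := by
      have : (N : ℝ) ≤ k := by exact_mod_cast (by omega : N ≤ k)
      linarith
    have e := two (k + 1) hk0 hle
    have key : C2 / ((N : ℝ) * (k + 1)) * ((N : ℝ) / (k + 1)) ^ ((1 : ℝ) / 3) ≤
        2 * C2 * (W N k / N) := by
      unfold W
      rw [Real.div_rpow hN0.le hk0.le, ha1, hb1, hb2]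
      rw [hb2] at e
      have hs : 0 < ((N : ℝ) + k) ^ ((2 : ℝ) / 3) := by positivity
      generalize ((N : ℝ) + k) ^ ((2 : ℝ) / 3) = s at *
      rw [ha3, hb3]
      have e1 : C2 / (a ^ 3 * b ^ 3) * (a / b) = C2 / (a ^ 2 * b ^ 4) := by
        field_simp
      have e2 : 2 * C2 * (a / (b ^ 2 * s) / a ^ 3) = C2 * (2 / (a ^ 2 * b ^ 2 * s)) := by
        field_simp
      rw [e1, e2, div_eq_mul_one_div]
      apply mul_le_mul_of_nonneg_left _ hC2.le
      rw [div_le_div_iff₀ (by positivity) (by positivity)]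
      have : 0 < a ^ 2 * b ^ 2 := by positivity
      nlinarith
    have : 0 < C1 * (W N k / N) := by positivity
    linarith

end Pool.Agent.U167.HP
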