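import Pool.Agent.U167.HP.Arr2
import Pool.Agent.R752.GL.All

/-!
The arrival law of the exploration path in the half-plane: lattice Lipschitz bounds for its
logarithm.
-/

set_option maxHeartbeats 1000000

namespace Pool.Agent.U167.HP

open H974 H731C H985LC R752GL Finset MeasureTheory

/-- The arrival law. -/
noncomputable def pf (N k : ℤ) : ℝ := (bondLaw half).real (Af N k)

theorem Af_eq {N k : ℤ} : Af N k =
    Joined (Set.Iic (-N)) {k} \ Joined (Set.Iic (-N)) (Set.Icc 0 (k - 1)) := by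
  ext ω
  constructor
  · rintro ⟨⟨s, hs, hc⟩, hno⟩
    obtain ⟨p, hp⟩ := con_iff_walk.mp hc
    refine ⟨⟨s, hs, k, rfl, p, hp⟩, ?_⟩
    rintro ⟨x, hx, y, hy, q, hq⟩
    exact hno x y hx hy.1 (by have := hy.2; omega) (con_iff_walk.mpr ⟨q, hq⟩)
  · rintro ⟨⟨s, hs, k', hk', p, hp⟩, hno⟩
    rw [Set.mem_singleton_iff] at hk'
    subst hk'
    refine ⟨⟨s, hs, con_iff_walk.mpr ⟨p, hp⟩⟩, ?_⟩
    intro x y hx hy0 hyk hc
    obtain ⟨q, hq⟩ := con_iff_walk.mp hc
    exact hno ⟨x, hx, y, ⟨hy0, by omega⟩, q, hq⟩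

theorem pf_eq {N k : ℤ} (hk : 0 ≤ k) : pf N k = Phi (-N) 0 k - Phi (-N) 0 (k - 1) := by
  unfold pf Phi
  rw [Af_eq]
  exact first_real hk

theorem pf_nonneg (N k : ℤ) : 0 ≤ pf N k := measureReal_nonneg

theorem pf_step_N (N k : ℤ) : |pf (N + 1) k - pf N k| ≤ (bondLaw half).real (sdf N k) := by
  have h1 : pf N k ≤ pf (N + 1) k + (bondLaw half).real (sdf N k) := by
    unfold pf
    refine le_trans (measureReal_mono (s₂ := Af (N + 1) k ∪ sdf N k) ?_ (measure_ne_top _ _))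
      (measureReal_union_le _ _)
    intro ω hω
    by_cases h : ω ∈ Af (N + 1) k
    · exact Or.inl h
    · exact Or.inr (fun h2 => h (h2.mp hω))
  have h2 : pf (N + 1) k ≤ pf N k + (bondLaw half).real (sdf N k) := by
    unfold pf
    refine le_trans (measureReal_mono (s₂ := Af N k ∪ sdf N k) ?_ (measure_ne_top _ _))
      (measureReal_union_le _ _)
    intro ω hω
    by_cases h : ω ∈ Af N k
    · exact Or.inl h
    · exact Or.inr (fun h2 => h (h2.mpr hω))
  rw [abs_le]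
  constructor <;> linarith

theorem W_pos {N k : ℤ} (hN : 1 ≤ N) (hk : 0 ≤ k) : 0 < W N k := by
  have hN0 : (0 : ℝ) < N := by exact_mod_cast (by omega : (0 : ℤ) < N)
  have hk00 : (0 : ℝ) ≤ k := by exact_mod_cast hk
  unfold W
  positivity

/-- The first contact law decreases when the whole picture is enlarged. -/
theorem pf_gp {N k : ℤ} (hk : 0 ≤ k) :
    gp (-N - 1) (-1) k = pf (N + 1) k - pf N (k + 1) := by
  rw [pf_eq hk, pf_eq (by omega)]
  have e1 : Phi (-N) 0 (k + 1) = Phi (-N - 1) (-1) k := by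
    have := t_ti (-N - 1) (-1) k 1
    rw [← this]
    congr 1
    ring
  have e2 : Phi (-N) 0 (k + 1 - 1) = Phi (-N - 1) (-1) (k - 1) := by
    have := t_ti (-N - 1) (-1) (k - 1) 1
    rw [← this]
    congr 1 <;> ring
  rw [e1, e2]
  unfold gp
  rw [show (-1:ℤ) + 1 = 0 by ring, show -N - 1 = -(N + 1) by ring]
  ring

theorem V_le {N k : ℤ} (hN : 1 ≤ N) (hk : 0 ≤ k) :
    V N (k + 1) ≤ W N k * (1 / N + 1 / (k + 1)) := by
  have hN0 : (0 : ℝ) < N := by exact_mod_cast (by omega : (0 : ℤ) < N)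
  have hk0 : (0 : ℝ) < (k : ℝ) + 1 := by exact_mod_cast (by omega : (0 : ℤ) < k + 1)
  have hk00 : (0 : ℝ) ≤ k := by exact_mod_cast hk
  have hNk : (0 : ℝ) < (N : ℝ) + k := by linarith
  have hs0 : (0 : ℝ) < (N : ℝ) + (k + 1) := by linarith
  obtain ⟨a, ha, ha3, ha1, ha2⟩ := cube hN0
  obtain ⟨b, hb, hb3, hb1, hb2⟩ := cube hk0
  obtain ⟨c, hc, hc3, hc1, hc2⟩ := cube hNk
  obtain ⟨s, hs, hs3, hs1, hs2⟩ := cube hs0
  have hcs : c ≤ s := by
    rw [← hc1, ← hs1]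
    exact Real.rpow_le_rpow hNk.le (by linarith) (by norm_num)
  have h5 : ((k : ℝ) + 1) ^ ((5 : ℝ) / 3) = b ^ 5 := by
    rw [← hb1, ← Real.rpow_natCast, ← Real.rpow_mul hk0.le]
    norm_num
  unfold V W
  push_cast
  rw [h5, ha2, hs1, ha1, hb2, hc2]
  have e : (1 / (N : ℝ) + 1 / (k + 1)) = s ^ 3 / (a ^ 3 * b ^ 3) := by
    rw [← hs3, ← ha3, ← hb3]
    field_simp
    ring
  rw [e]
  have e2 : a / (b ^ 2 * c ^ 2) * (s ^ 3 / (a ^ 3 * b ^ 3)) = s ^ 3 / (a ^ 2 * b ^ 5 * c ^ 2) := by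
    field_simp
  rw [e2, div_le_div_iff₀ (by positivity) (by positivity)]
  have h6 : c ^ 2 ≤ s ^ 2 := pow_le_pow_left₀ hc.le hcs 2
  have h7 : 0 < s * (a ^ 2 * b ^ 5) := by positivity
  calc s * (a ^ 2 * b ^ 5 * c ^ 2) = s * (a ^ 2 * b ^ 5) * c ^ 2 := by ring
    _ ≤ s * (a ^ 2 * b ^ 5) * s ^ 2 := mul_le_mul_of_nonneg_left h6 h7.le
    _ = s ^ 3 * (a ^ 2 * b ^ 5) := by ring

/-- The bounds for the arrival law on the lattice. -/
theorem lattice : ∃ C : ℝ, 1 ≤ C ∧ ∀ N k : ℤ, 1 ≤ N → 0 ≤ k →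
    W N k ≤ C * pf N k ∧ pf N k ≤ C * W N k ∧
    |pf (N + 1) k - pf N k| ≤ C * pf N k * (1 / N) ∧
    |pf N (k + 1) - pf N k| ≤ C * pf N k * (1 / N + 1 / (k + 1)) := by
  obtain ⟨c, C, hc, hC, hFB⟩ := t_fb
  obtain ⟨C1, hC1, h1⟩ := sd_le
  obtain ⟨C2, hC2, h2⟩ := all_ub
  obtain ⟨c3, hc3, h3⟩ := all_an2
  refine ⟨1 / c + C + (C1 + C2) / c + 1, by
    have : 0 < 1 / c + C + (C1 + C2) / c := by positivity
    linarith, ?_⟩
  intro N k hN hk
  have hN0 : (0 : ℝ) < N := by exact_mod_cast (by omega : (0 : ℤ) < N)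
  have hk0 : (0 : ℝ) < (k : ℝ) + 1 := by exact_mod_cast (by omega : (0 : ℤ) < k + 1)
  have hW := W_pos hN hk
  obtain ⟨f1, f2⟩ := hFB N k hN hk
  rw [← pf_eq hk] at f1 f2
  have hp : 0 < pf N k := lt_of_lt_of_le (by positivity) f1
  have hWp : W N k ≤ pf N k / c := by
    rw [le_div_iff₀ hc]
    linarith
  have hA : |pf (N + 1) k - pf N k| ≤ C1 / c * pf N k * (1 / N) := by
    refine (pf_step_N N k).trans ((h1 N k hN hk).trans ?_)
    calc C1 * (W N k / N) ≤ C1 * (pf N k / c / N) := by gcongr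
      _ = C1 / c * pf N k * (1 / N) := by ring
  have hB : 0 ≤ gp (-N - 1) (-1) k ∧ gp (-N - 1) (-1) k ≤
      C2 / c * pf N k * (1 / N + 1 / (k + 1)) := by
    have g1 := h2 (-N - 1) (-1) k (by omega) (by omega)
    have g2 := h3 (-N - 1) (-1) k (by omega) (by omega)
    have e1 : -1 - (-N - 1) = N := by ring
    have e2 : k - -1 = k + 1 := by ring
    rw [e1, e2] at g1 g2
    have hV : 0 < V N (k + 1) := by
      unfold V
      have : (0 : ℝ) < ((k + 1 : ℤ) : ℝ) := by push_cast; exact hk0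
      positivity
    refine ⟨le_trans (by positivity) g2, g1.trans ?_⟩
    calc C2 * V N (k + 1) ≤ C2 * (W N k * (1 / N + 1 / (k + 1))) := by
          have := V_le hN hk
          gcongr
      _ ≤ C2 * (pf N k / c * (1 / N + 1 / (k + 1))) := by gcongr
      _ = C2 / c * pf N k * (1 / N + 1 / (k + 1)) := by ring
  have hC1c : 0 ≤ C1 / c := by positivity
  have hC2c : 0 ≤ C2 / c := by positivity
  have h1c : 0 ≤ 1 / c := by positivity
  have hsum : (C1 + C2) / c = C1 / c + C2 / c := add_div _ _ _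
  refine ⟨?_, ?_, ?_, ?_⟩
  · calc W N k ≤ pf N k / c := hWp
      _ = 1 / c * pf N k := by ring
      _ ≤ (1 / c + C + (C1 + C2) / c + 1) * pf N k := by
          apply mul_le_mul_of_nonneg_right _ hp.le
          linarith
  · refine f2.trans (mul_le_mul_of_nonneg_right ?_ hW.le)
    linarith
  · refine hA.trans ?_
    gcongr
    linarith
  · have e : pf N (k + 1) - pf N k = (pf (N + 1) k - pf N k) - gp (-N - 1) (-1) k := by
      rw [pf_gp hk]; ring
    rw [e]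
    refine (abs_sub _ _).trans ?_
    rw [abs_of_nonneg hB.1]
    have h4 : C1 / c * pf N k * (1 / N) ≤ C1 / c * pf N k * (1 / N + 1 / (k + 1)) := by
      gcongr
      have : (0 : ℝ) < 1 / ((k : ℝ) + 1) := by positivity
      linarith
    calc |pf (N + 1) k - pf N k| + gp (-N - 1) (-1) k
        ≤ C1 / c * pf N k * (1 / N + 1 / (k + 1)) + C2 / c * pf N k * (1 / N + 1 / (k + 1)) :=
          add_le_add (hA.trans h4) hB.2
      _ = (C1 + C2) / c * pf N k * (1 / N + 1 / (k + 1)) := by rw [hsum]; ring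
      _ ≤ (1 / c + C + (C1 + C2) / c + 1) * pf N k * (1 / N + 1 / (k + 1)) := by
          gcongr
          linarith

end Pool.Agent.U167.HP
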