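import Pool.Agent.U167.HP.Sec
import Pool.Agent.U167.HP.An3

/-!
The scaling limits of the law of the connection pattern.
-/

set_option maxHeartbeats 1000000

namespace Pool.Agent.U167.HP

open H974 H731C Finset MeasureTheory Filter Topology

theorem reg_of {C : ℝ} (hC : 1 ≤ C) (hb : ∀ (n : ℕ) (x : Fin n → ℤ) (m : ℤ), 1 ≤ m →
    (∀ i j, i ≠ j → m ≤ |x i - x j|) → ∀ E : Set (Set (ℕ × ℕ)),
    (∀ I : Finset (Fin n), |Dm I (PE E) x| ≤ (C / m) ^ I.card) ∧
    ∀ i, |D i (D i (PE E)) x| ≤ n * (C / m) ^ 2) (n : ℕ) (E : Set (Set (ℕ × ℕ))) :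
    An.Reg (n := n) (PE E) C (n * C ^ 2) where
  nonneg := by linarith
  nonneg' := by positivity
  bd x := by
    rw [abs_of_nonneg (PE_nonneg E x)]
    exact PE_le_one E x
  first x m hm hx i := by
    have := (hb n x m hm hx E).1 {i}
    rw [Finset.card_singleton, pow_one, Dm_single] at this
    exact this
  second x m hm hx i j := by
    have hm0 : (0:ℝ) < m := by exact_mod_cast (by omega : (0:ℤ) < m)
    show |D j (D i (PE E)) x| ≤ _
    by_cases hij : j = i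
    · subst hij
      refine ((hb n x m hm hx E).2 j).trans (le_of_eq ?_)
      rw [div_pow]
      ring
    · have := (hb n x m hm hx E).1 {j, i}
      rw [Finset.card_pair hij, Dm_pair hij] at this
      refine this.trans ?_
      have hn : (1:ℝ) ≤ n := by
        have : 0 < n := Fin.pos i
        exact_mod_cast this
      rw [div_pow]
      apply div_le_div_of_nonneg_right _ (by positivity)
      nlinarith [sq_nonneg C]

/-- Every event is given by finitely many patterns. -/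
theorem PE_fin (n : ℕ) (E : Set (Set (ℕ × ℕ))) : ∃ Q : Finset (Finset (ℕ × ℕ)),
    (PE E : (Fin n → ℤ) → ℝ) = PE {S | ∃ q ∈ Q, (↑q : Set (ℕ × ℕ)) = S} := by
  classical
  refine ⟨((Finset.range (n + 1) ×ˢ Finset.range (n + 1)).powerset).filter
    (fun q => (↑q : Set (ℕ × ℕ)) ∈ E), ?_⟩
  ext x
  unfold PE
  congr 1
  ext ω
  unfold Ev
  rw [Set.mem_ofPred_eq, Set.mem_ofPred_eq, Set.mem_ofPred_eq]
  constructor
  · intro h
    refine ⟨patF (con (opn ω)) x, ?_, coe_patF _ _⟩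
    rw [Finset.mem_filter, Finset.mem_powerset, coe_patF]
    exact ⟨Finset.filter_subset _ _, h⟩
  · rintro ⟨q, hq, hS⟩
    rw [← hS]
    exact (Finset.mem_filter.mp hq).2

/-- Scaling limits along a common subsequence. -/
theorem exists_all {C : ℝ} (hC : 1 ≤ C) (hb : ∀ (n : ℕ) (x : Fin n → ℤ) (m : ℤ), 1 ≤ m →
    (∀ i j, i ≠ j → m ≤ |x i - x j|) → ∀ E : Set (Set (ℕ × ℕ)),
    (∀ I : Finset (Fin n), |Dm I (PE E) x| ≤ (C / m) ^ I.card) ∧
    ∀ i, |D i (D i (PE E)) x| ≤ n * (C / m) ^ 2) {N : ℕ → ℕ} (hN : Tendsto N atTop atTop) :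
    ∃ ψ : ℕ → ℕ, StrictMono ψ ∧ ∀ (n : ℕ) (E : Set (Set (ℕ × ℕ))),
      ∃ f g, An.IsLim (n := n) (PE E) (N ∘ ψ) f g := by
  obtain ⟨ψ, hψ, h⟩ := An.exists_common (ι := (_n : ℕ) × Finset (Finset (ℕ × ℕ)))
    (fun a => a.1) (fun a => PE {S | ∃ q ∈ a.2, (↑q : Set (ℕ × ℕ)) = S}) (fun _ => C)
    (fun a => a.1 * C ^ 2) (fun a => reg_of hC hb a.1 _) hN
  refine ⟨ψ, hψ, ?_⟩
  intro n E
  obtain ⟨Q, hQ⟩ := PE_fin n E
  obtain ⟨f, g, hfg⟩ := h ⟨n, Q⟩
  refine ⟨f, g, ?_⟩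
  rw [hQ]
  exact hfg

end Pool.Agent.U167.HP
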