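import Pool.Agent.U167.HP.Arr3
import Pool.Agent.U167.HP.FinA

/-!
The arrival law of the exploration path in the half-plane: logarithms, and the relation with the
connection patterns of three marked points.
-/

set_option maxHeartbeats 1000000

namespace Pool.Agent.U167.HP

open H974 H731C H985LC R752GL Finset MeasureTheory

theorem log_step {x y δ c : ℝ} (hx : 0 < x) (hc : 0 < c) (hc1 : c ≤ 1) (hy : c * x ≤ y)
    (h : |y - x| ≤ δ * x) : |Real.log y - Real.log x| ≤ δ / c := by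
  have hy0 : 0 < y := lt_of_lt_of_le (by positivity) hy
  have hδ : 0 ≤ δ := by
    by_contra hneg
    push Not at hneg
    have := abs_nonneg (y - x)
    nlinarith
  have h1 : Real.log y - Real.log x = Real.log (y / x) := (Real.log_div hy0.ne' hx.ne').symm
  rw [h1]
  have h2 : Real.log (y / x) ≤ y / x - 1 := Real.log_le_sub_one_of_pos (by positivity)
  have h3 : -Real.log (y / x) ≤ x / y - 1 := by
    rw [← Real.log_inv, inv_div]
    exact Real.log_le_sub_one_of_pos (by positivity)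
  obtain ⟨h4, h5⟩ := abs_le.mp h
  rw [abs_le]
  constructor
  · have h6 : x / y - 1 ≤ δ / c := by
      rw [sub_le_iff_le_add, div_le_iff₀ hy0]
      have h7 : (δ / c) * (c * x) ≤ δ / c * y := mul_le_mul_of_nonneg_left hy (by positivity)
      have h8 : δ / c * (c * x) = δ * x := by field_simp
      nlinarith
    linarith
  · have h6 : y / x - 1 ≤ δ := by
      rw [sub_le_iff_le_add, div_le_iff₀ hx]
      nlinarith
    have h7 : δ ≤ δ / c := by
      rw [le_div_iff₀ hc]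
      nlinarith
    linarith

theorem W_N {N k : ℤ} (hN : 1 ≤ N) (hk : 0 ≤ k) : W N k ≤ 4 * W (N + 1) k := by
  have hN0 : (1 : ℝ) ≤ N := by exact_mod_cast hN
  have hk0 : (0 : ℝ) < (k : ℝ) + 1 := by exact_mod_cast (by omega : (0 : ℤ) < k + 1)
  have hk00 : (0 : ℝ) ≤ k := by exact_mod_cast hk
  have hNk : (0 : ℝ) < (N : ℝ) + k := by linarith
  unfold W
  push_cast
  have h1 : (N : ℝ) ^ ((1 : ℝ) / 3) ≤ ((N : ℝ) + 1) ^ ((1 : ℝ) / 3) :=
    Real.rpow_le_rpow (by linarith) (by linarith) (by norm_num)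
  have h2 : ((N : ℝ) + 1 + k) ^ ((2 : ℝ) / 3) ≤ 4 * ((N : ℝ) + k) ^ ((2 : ℝ) / 3) := by
    calc ((N : ℝ) + 1 + k) ^ ((2 : ℝ) / 3) ≤ (2 * ((N : ℝ) + k)) ^ ((2 : ℝ) / 3) :=
          Real.rpow_le_rpow (by linarith) (by linarith) (by norm_num)
      _ = 2 ^ ((2 : ℝ) / 3) * ((N : ℝ) + k) ^ ((2 : ℝ) / 3) :=
          Real.mul_rpow (by norm_num) hNk.le
      _ ≤ 2 ^ (1 : ℝ) * ((N : ℝ) + k) ^ ((2 : ℝ) / 3) := by
          apply mul_le_mul_of_nonneg_right _ (by positivity)
          exact Real.rpow_le_rpow_of_exponent_le (by norm_num) (by norm_num)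
      _ ≤ 4 * ((N : ℝ) + k) ^ ((2 : ℝ) / 3) := by
          apply mul_le_mul_of_nonneg_right _ (by positivity)
          norm_num
  rw [mul_div_assoc', div_le_div_iff₀ (by positivity) (by positivity)]
  calc (N : ℝ) ^ ((1 : ℝ) / 3) * (((k : ℝ) + 1) ^ ((2 : ℝ) / 3) * ((N : ℝ) + 1 + k) ^ ((2 : ℝ) / 3))
      ≤ ((N : ℝ) + 1) ^ ((1 : ℝ) / 3) * (((k : ℝ) + 1) ^ ((2 : ℝ) / 3) *
        (4 * ((N : ℝ) + k) ^ ((2 : ℝ) / 3))) := by gcongr
    _ = 4 * ((N : ℝ) + 1) ^ ((1 : ℝ) / 3) * (((k : ℝ) + 1) ^ ((2 : ℝ) / 3) *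
        ((N : ℝ) + k) ^ ((2 : ℝ) / 3)) := by ring

theorem W_k {N k : ℤ} (hN : 1 ≤ N) (hk : 0 ≤ k) : W N k ≤ 4 * W N (k + 1) := by
  have hN0 : (1 : ℝ) ≤ N := by exact_mod_cast hN
  have hk0 : (0 : ℝ) < (k : ℝ) + 1 := by exact_mod_cast (by omega : (0 : ℤ) < k + 1)
  have hk00 : (0 : ℝ) ≤ k := by exact_mod_cast hk
  have hNk : (0 : ℝ) < (N : ℝ) + k := by linarith
  unfold W
  push_cast
  have two : ∀ x y : ℝ, 0 < x → 0 < y → y ≤ 2 * x → y ^ ((2 : ℝ) / 3) ≤ 2 * x ^ ((2 : ℝ) / 3) := by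
    intro x y hx hy hle
    calc y ^ ((2 : ℝ) / 3) ≤ (2 * x) ^ ((2 : ℝ) / 3) :=
          Real.rpow_le_rpow hy.le hle (by norm_num)
      _ = 2 ^ ((2 : ℝ) / 3) * x ^ ((2 : ℝ) / 3) := Real.mul_rpow (by norm_num) hx.le
      _ ≤ 2 ^ (1 : ℝ) * x ^ ((2 : ℝ) / 3) := by
          apply mul_le_mul_of_nonneg_right _ (by positivity)
          exact Real.rpow_le_rpow_of_exponent_le (by norm_num) (by norm_num)
      _ = 2 * x ^ ((2 : ℝ) / 3) := by rw [Real.rpow_one]
  have h1 := two ((k : ℝ) + 1) ((k : ℝ) + 1 + 1) hk0 (by linarith) (by linarith)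
  have h2 := two ((N : ℝ) + k) ((N : ℝ) + (k + 1)) hNk (by linarith) (by linarith)
  rw [mul_div_assoc', div_le_div_iff₀ (by positivity) (by positivity)]
  calc (N : ℝ) ^ ((1 : ℝ) / 3) * (((k : ℝ) + 1 + 1) ^ ((2 : ℝ) / 3) *
        ((N : ℝ) + (k + 1)) ^ ((2 : ℝ) / 3))
      ≤ (N : ℝ) ^ ((1 : ℝ) / 3) * ((2 * ((k : ℝ) + 1) ^ ((2 : ℝ) / 3)) *
        (2 * ((N : ℝ) + k) ^ ((2 : ℝ) / 3))) := by gcongr
    _ = 4 * (N : ℝ) ^ ((1 : ℝ) / 3) * (((k : ℝ) + 1) ^ ((2 : ℝ) / 3) *
        ((N : ℝ) + k) ^ ((2 : ℝ) / 3)) := by ring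

/-- Lipschitz bounds for the logarithm of the arrival law. -/
theorem log_lattice : ∃ C : ℝ, 1 ≤ C ∧
    (∀ N k : ℤ, 1 ≤ N → 0 ≤ k → 0 < pf N k ∧ W N k ≤ C * pf N k ∧ pf N k ≤ C * W N k) ∧
    (∀ (N k : ℤ) (n : ℕ), 1 ≤ N → 0 ≤ k →
      |Real.log (pf (N + n) k) - Real.log (pf N k)| ≤ C * (n * (1 / N))) ∧
    (∀ (N k : ℤ) (n : ℕ), 1 ≤ N → 0 ≤ k →
      |Real.log (pf N (k + n)) - Real.log (pf N k)| ≤ C * (n * (1 / N + 1 / (k + 1)))) := by
  obtain ⟨C, hC, h⟩ := lattice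
  have hC0 : 0 < C := by linarith
  have hp : ∀ N k : ℤ, 1 ≤ N → 0 ≤ k → 0 < pf N k := by
    intro N k hN hk
    have h1 := (h N k hN hk).1
    have h2 := W_pos hN hk
    by_contra hneg
    push Not at hneg
    nlinarith
  have h4C : C ≤ 4 * C ^ 2 * C := by nlinarith [sq_nonneg (C - 1), mul_self_nonneg C]
  refine ⟨4 * C ^ 2 * C, by linarith, ?_, ?_, ?_⟩
  · intro N k hN hk
    obtain ⟨h1, h2, -, -⟩ := h N k hN hk
    refine ⟨hp N k hN hk, h1.trans ?_, h2.trans ?_⟩
    · exact mul_le_mul_of_nonneg_right h4C (hp N k hN hk).le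
    · exact mul_le_mul_of_nonneg_right h4C (W_pos hN hk).le
  · have one : ∀ N k : ℤ, 1 ≤ N → 0 ≤ k →
        |Real.log (pf (N + 1) k) - Real.log (pf N k)| ≤ 4 * C ^ 2 * C * (1 / N) := by
      intro N k hN hk
      obtain ⟨h1, h2, h3, h4⟩ := h N k hN hk
      obtain ⟨g1, g2, g3, g4⟩ := h (N + 1) k (by omega) hk
      have hW := W_N hN hk
      have hc : 1 / (4 * C ^ 2) * pf N k ≤ pf (N + 1) k := by
        rw [div_mul_eq_mul_div, one_mul, div_le_iff₀ (by positivity)]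
        calc pf N k ≤ C * W N k := h2
          _ ≤ C * (4 * W (N + 1) k) := by gcongr
          _ ≤ C * (4 * (C * pf (N + 1) k)) := by gcongr
          _ = pf (N + 1) k * (4 * C ^ 2) := by ring
      have := log_step (c := 1 / (4 * C ^ 2)) (δ := C * (1 / N)) (hp N k hN hk) (by positivity)
        (by
          rw [div_le_one (by positivity)]
          nlinarith) hc (by
          calc |pf (N + 1) k - pf N k| ≤ C * pf N k * (1 / N) := h3
            _ = C * (1 / N) * pf N k := by ring)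
      refine this.trans (le_of_eq ?_)
      field_simp
    intro N k n hN hk
    induction n with
    | zero => simp
    | succ n ih =>
      have h1 := one (N + n) k (by omega) hk
      have e1 : N + ((n + 1 : ℕ) : ℤ) = N + n + 1 := by push_cast; ring
      rw [e1]
      have hN0 : (0 : ℝ) < N := by exact_mod_cast (by omega : (0 : ℤ) < N)
      have h2 : 4 * C ^ 2 * C * (1 / ((N + n : ℤ) : ℝ)) ≤ 4 * C ^ 2 * C * (1 / N) := by
        gcongr
        omega
      have h3 := abs_sub_le (Real.log (pf (N + n + 1) k)) (Real.log (pf (N + n) k))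
        (Real.log (pf N k))
      push_cast
      calc _ ≤ _ := h3
        _ ≤ 4 * C ^ 2 * C * (1 / N) + 4 * C ^ 2 * C * (n * (1 / N)) :=
            add_le_add (h1.trans h2) ih
        _ = 4 * C ^ 2 * C * ((n + 1) * (1 / N)) := by ring
  · have one : ∀ N k : ℤ, 1 ≤ N → 0 ≤ k →
        |Real.log (pf N (k + 1)) - Real.log (pf N k)| ≤ 4 * C ^ 2 * C * (1 / N + 1 / (k + 1)) := by
      intro N k hN hk
      obtain ⟨h1, h2, h3, h4⟩ := h N k hN hk
      obtain ⟨g1, g2, g3, g4⟩ := h N (k + 1) hN (by omega)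
      have hW := W_k hN hk
      have hc : 1 / (4 * C ^ 2) * pf N k ≤ pf N (k + 1) := by
        rw [div_mul_eq_mul_div, one_mul, div_le_iff₀ (by positivity)]
        calc pf N k ≤ C * W N k := h2
          _ ≤ C * (4 * W N (k + 1)) := by gcongr
          _ ≤ C * (4 * (C * pf N (k + 1))) := by gcongr
          _ = pf N (k + 1) * (4 * C ^ 2) := by ring
      have := log_step (c := 1 / (4 * C ^ 2)) (δ := C * (1 / N + 1 / (k + 1))) (hp N k hN hk)
        (by positivity)
        (by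
          rw [div_le_one (by positivity)]
          nlinarith) hc (by
          calc |pf N (k + 1) - pf N k| ≤ C * pf N k * (1 / N + 1 / (k + 1)) := h4
            _ = C * (1 / N + 1 / (k + 1)) * pf N k := by ring)
      refine this.trans (le_of_eq ?_)
      field_simp
    intro N k n hN hk
    induction n with
    | zero => simp
    | succ n ih =>
      have h1 := one N (k + n) hN (by omega)
      have e1 : k + ((n + 1 : ℕ) : ℤ) = k + n + 1 := by push_cast; ring
      rw [e1]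
      have hk0 : (0 : ℝ) < (k : ℝ) + 1 := by exact_mod_cast (by omega : (0 : ℤ) < k + 1)
      have h2 : 4 * C ^ 2 * C * (1 / N + 1 / (((k + n : ℤ) : ℝ) + 1)) ≤
          4 * C ^ 2 * C * (1 / N + 1 / (k + 1)) := by
        gcongr
        omega
      have h3 := abs_sub_le (Real.log (pf N (k + n + 1))) (Real.log (pf N (k + n)))
        (Real.log (pf N k))
      push_cast
      push_cast at h1 h2
      calc _ ≤ _ := h3
        _ ≤ 4 * C ^ 2 * C * (1 / N + 1 / (k + 1)) +
            4 * C ^ 2 * C * (n * (1 / N + 1 / (k + 1))) := add_le_add (h1.trans h2) ih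
        _ = 4 * C ^ 2 * C * ((n + 1) * (1 / N + 1 / (k + 1))) := by ring

/-! ### Three marked points -/

/-- The arcs number `0` and `2` are joined. -/
def E0 : Set (Set (ℕ × ℕ)) := {S | ((0, 2) : ℕ × ℕ) ∈ S}

theorem arc_three (a b c t : ℤ) : arc ![a, b, c] t =
    (if a ≤ t then 1 else 0) + (if b ≤ t then 1 else 0) + (if c ≤ t then 1 else 0) := by
  unfold arc
  rw [Finset.card_filter, Fin.sum_univ_three]
  rfl

theorem PE_three {a b c : ℤ} (hab : a < b) (hbc : b < c) :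
    PE E0 ![a, b, c] = Phi (a - 1) b (c - 1) := by
  unfold PE Phi crossProb
  congr 1
  ext ω
  constructor
  · rintro ⟨-, s, t, hs, ht, hc⟩
    rw [arc_three] at hs ht
    simp only at hs ht
    obtain ⟨p, hp⟩ := con_iff_walk.mp hc
    refine ⟨s, ?_, t, ⟨?_, ?_⟩, p, hp⟩
    · rw [Set.mem_Iic]
      by_contra h
      rw [if_pos (by omega)] at hs
      omega
    · by_contra h
      rw [if_neg (show ¬ b ≤ t by omega), if_neg (show ¬ c ≤ t by omega)] at ht
      split_ifs at ht <;> omega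
    · by_contra h
      rw [if_pos (show a ≤ t by omega), if_pos (show b ≤ t by omega),
        if_pos (show c ≤ t by omega)] at ht
      omega
  · rintro ⟨s, hs, t, ht, p, hp⟩
    rw [Set.mem_Iic] at hs
    have h1 := ht.1
    have h2 := ht.2
    refine ⟨le_refl _, s, t, ?_, ?_, con_iff_walk.mpr ⟨p, hp⟩⟩
    · rw [arc_three, if_neg (by omega), if_neg (by omega), if_neg (by omega)]
    · rw [arc_three, if_pos (by omega), if_pos (by omega), if_neg (by omega)]

theorem D_three {N k : ℤ} (hN : 2 ≤ N) (hk : 1 ≤ k) : D 2 (PE E0) ![-N + 1, 0, k] = pf N k := by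
  unfold D
  have e : Function.update ![-N + 1, 0, k] 2 ((![-N + 1, 0, k] : Fin 3 → ℤ) 2 + 1) =
      ![-N + 1, 0, k + 1] := by
    ext i
    fin_cases i <;> simp [Function.update]
  rw [e, PE_three (by omega) (by omega), PE_three (by omega) (by omega), pf_eq (by omega)]
  congr 1 <;> congr 1 <;> ring

end Pool.Agent.U167.HP
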