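import Pool.Agent.U167.HP.Arr4

/-!
The arrival law of the exploration path in the half-plane: scaling limits.
-/

set_option maxHeartbeats 1000000

namespace Pool.Agent.U167.HP

open H974 H731C H985LC R752GL MeasureTheory Filter Topology Set

/-- A sequence of integers of order `s φ`. -/
def Sc (φ : ℕ → ℕ) (N : ℕ → ℤ) (s : ℝ) : Prop := Tendsto (fun j => (N j : ℝ) / φ j) atTop (𝓝 s)

/-- A scaling limit of the arrival law. -/
structure ArrLim (φ : ℕ → ℕ) (F ρ : ℝ → ℝ → ℝ) : Prop where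
  top : Tendsto φ atTop atTop
  loc : ∀ s t, 0 < s → 0 < t → ∀ N k : ℕ → ℤ, Sc φ N s → Sc φ k t →
    Tendsto (fun j => (φ j : ℝ) * pf (N j) (k j)) atTop (𝓝 (ρ s t))
  cdf : ∀ s t, 0 < s → 0 < t → ∀ N k : ℕ → ℤ, Sc φ N s → Sc φ k t →
    Tendsto (fun j => Phi (-(N j)) 0 (k j)) atTop (𝓝 (F s t))
  der : ∀ s t, 0 < s → 0 < t → HasDerivAt (F s) (ρ s t) t

theorem ev_ge {φ : ℕ → ℕ} (hφ : Tendsto φ atTop atTop) {N : ℕ → ℤ} {s : ℝ} (hs : 0 < s)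
    (hN : Sc φ N s) (m : ℤ) : ∀ᶠ j in atTop, m ≤ N j := by
  have h1 : ∀ᶠ j in atTop, s / 2 < (N j : ℝ) / φ j := hN.eventually_const_lt (by linarith)
  obtain ⟨K, hK⟩ := exists_nat_gt (2 * (|(m : ℝ)| + 1) / s)
  have h2 : ∀ᶠ j in atTop, K ≤ φ j := hφ.eventually_ge_atTop K
  filter_upwards [h1, h2] with j hj1 hj2
  have hK0 : (0:ℝ) < K := lt_of_le_of_lt (by positivity) hK
  have hj3 : (K : ℝ) ≤ φ j := by exact_mod_cast hj2
  have hφ0 : (0:ℝ) < φ j := by linarith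
  rw [lt_div_iff₀ hφ0] at hj1
  rw [div_lt_iff₀ hs] at hK
  have h3 : |(m : ℝ)| + 1 < s / 2 * φ j := by nlinarith
  have h4 : (m : ℝ) ≤ N j := by
    have := le_abs_self (m : ℝ)
    linarith
  exact_mod_cast h4

theorem sc_fl {φ : ℕ → ℕ} (hφ : Tendsto φ atTop atTop) (s : ℝ) :
    Sc φ (fun j => ⌊(φ j : ℝ) * s⌋) s :=
  An.to_fl (n := 1) hφ (fun _ => s) 0

theorem sc_add {φ : ℕ → ℕ} (hφ : Tendsto φ atTop atTop) {N : ℕ → ℤ} {s : ℝ} (hN : Sc φ N s)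
    (c : ℤ) : Sc φ (fun j => N j + c) s := by
  have h1 : Tendsto (fun j => (c : ℝ) / φ j) atTop (𝓝 0) :=
    tendsto_const_nhds.div_atTop (tendsto_natCast_atTop_atTop.comp hφ)
  have := hN.add h1
  rw [add_zero] at this
  refine this.congr ?_
  intro j
  push_cast
  ring

theorem sc_neg {φ : ℕ → ℕ} {N : ℕ → ℤ} {s : ℝ} (hN : Sc φ N s) : Sc φ (fun j => -N j) (-s) := by
  refine (Tendsto.neg hN).congr ?_
  intro j
  push_cast
  ring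

theorem inj3 {s t : ℝ} (hs : 0 < s) (ht : 0 < t) :
    Function.Injective (![-s, 0, t] : Fin 3 → ℝ) := by
  intro i j hij
  fin_cases i <;> fin_cases j <;> simp at hij ⊢ <;> linarith

theorem arr_of_lim {φ : ℕ → ℕ} (hφ : Tendsto φ atTop atTop) {C : ℝ}
    {f : (Fin 3 → ℝ) → ℝ} {g : Fin 3 → (Fin 3 → ℝ) → ℝ} {L : ℝ}
    (hreg : An.Reg (n := 3) (PE E0) C L) (hf : An.IsLim (PE E0) φ f g) :
    ArrLim φ (fun s t => f ![-s, 0, t]) (fun s t => g 2 ![-s, 0, t]) where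
  top := hφ
  loc := by
    intro s t hs ht N k hN hk
    have hy : An.To φ (fun j => ![-N j + 1, 0, k j]) ![-s, 0, t] := by
      intro i
      fin_cases i
      · exact sc_add hφ (sc_neg hN) 1
      · simp
      · exact hk
    have := (hf _ (inj3 hs ht) _ hy).2 2
    refine this.congr' ?_
    filter_upwards [ev_ge hφ hs hN 2, ev_ge hφ ht hk 1] with j h1 h2
    have := D_three h1 h2
    rw [← this]
    rfl
  cdf := by
    intro s t hs ht N k hN hk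
    have hy : An.To φ (fun j => ![-N j + 1, 0, k j + 1]) ![-s, 0, t] := by
      intro i
      fin_cases i
      · exact sc_add hφ (sc_neg hN) 1
      · simp
      · exact sc_add hφ hk 1
    have := (hf _ (inj3 hs ht) _ hy).1
    refine this.congr' ?_
    filter_upwards [ev_ge hφ hs hN 2, ev_ge hφ ht hk 1] with j h1 h2
    rw [PE_three (by omega) (by omega)]
    congr 1 <;> ring
  der := by
    intro s t hs ht
    have h1 := An.lim_fderiv hreg hφ hf (inj3 hs ht)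
    have h2 : HasDerivAt (fun t : ℝ => (![-s, 0, t] : Fin 3 → ℝ)) ![0, 0, 1] t := by
      rw [hasDerivAt_pi]
      intro i
      fin_cases i
      · exact hasDerivAt_const t (-s)
      · exact hasDerivAt_const t (0:ℝ)
      · exact hasDerivAt_id t
    have h3 : HasDerivAt (fun t : ℝ => f ![-s, 0, t]) (An.dF g ![-s, 0, t] ![0, 0, 1]) t :=
      h1.comp_hasDerivAt t h2
    have e : An.dF g ![-s, 0, t] ![0, 0, 1] = g 2 ![-s, 0, t] := by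
      rw [An.dF_apply, Fin.sum_univ_three]
      simp
    rw [e] at h3
    exact h3

/-- The limit of the size. -/
noncomputable def hz (s t : ℝ) : ℝ :=
  s ^ ((1 : ℝ) / 3) / (t ^ ((2 : ℝ) / 3) * (s + t) ^ ((2 : ℝ) / 3))

theorem W_lim {φ : ℕ → ℕ} (hφ : Tendsto φ atTop atTop) {N k : ℕ → ℤ} {s t : ℝ} (hs : 0 < s)
    (ht : 0 < t) (hN : Sc φ N s) (hk : Sc φ k t) :
    Tendsto (fun j => (φ j : ℝ) * W (N j) (k j)) atTop (𝓝 (hz s t)) := by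
  have hk1 := sc_add hφ hk 1
  have hNk : Tendsto (fun j => ((N j : ℝ) + k j) / φ j) atTop (𝓝 (s + t)) := by
    refine (Tendsto.add hN hk).congr ?_
    intro j
    ring
  have h1 : Tendsto (fun j => ((N j : ℝ) / φ j) ^ ((1 : ℝ) / 3)) atTop (𝓝 (s ^ ((1 : ℝ) / 3))) :=
    Tendsto.rpow_const hN (Or.inl hs.ne')
  have h2 : Tendsto (fun j => (((k j + 1 : ℤ) : ℝ) / φ j) ^ ((2 : ℝ) / 3)) atTop
      (𝓝 (t ^ ((2 : ℝ) / 3))) := Tendsto.rpow_const hk1 (Or.inl ht.ne')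
  have h3 : Tendsto (fun j => (((N j : ℝ) + k j) / φ j) ^ ((2 : ℝ) / 3)) atTop
      (𝓝 ((s + t) ^ ((2 : ℝ) / 3))) := Tendsto.rpow_const hNk (Or.inl (by positivity))
  have h4 := h1.div (h2.mul h3) (by positivity)
  refine h4.congr' ?_
  filter_upwards [ev_ge hφ hs hN 1, ev_ge hφ ht hk 1, hφ.eventually_gt_atTop 0] with j a1 a2 a3
  have hφ0 : (0:ℝ) < φ j := by exact_mod_cast a3
  have hN0 : (0:ℝ) < N j := by exact_mod_cast (by omega : (0:ℤ) < N j)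
  have hk0 : (0:ℝ) < k j := by exact_mod_cast (by omega : (0:ℤ) < k j)
  unfold W
  rw [Pi.div_apply]
  push_cast
  rw [Real.div_rpow hN0.le hφ0.le, Real.div_rpow (by linarith) hφ0.le,
    Real.div_rpow (by linarith) hφ0.le]
  have e1 : (φ j : ℝ) ^ ((2 : ℝ) / 3) = ((φ j : ℝ) ^ ((1 : ℝ) / 3)) ^ 2 := by
    rw [← Real.rpow_natCast, ← Real.rpow_mul hφ0.le]
    norm_num
  have e2 : (φ j : ℝ) = ((φ j : ℝ) ^ ((1 : ℝ) / 3)) ^ 3 := by
    rw [← Real.rpow_natCast, ← Real.rpow_mul hφ0.le]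
    norm_num
  have hx : 0 < (φ j : ℝ) ^ ((1 : ℝ) / 3) := by positivity
  rw [e1]
  conv_rhs => rw [e2]
  generalize (φ j : ℝ) ^ ((1 : ℝ) / 3) = x at *
  have p1 : 0 < ((k j : ℝ) + 1) ^ ((2 : ℝ) / 3) := by positivity
  have p2 : 0 < ((N j : ℝ) + k j) ^ ((2 : ℝ) / 3) := by positivity
  field_simp

/-- All the properties of the limit of the arrival law. -/
structure Props (C : ℝ) (F ρ : ℝ → ℝ → ℝ) : Prop where
  pos : ∀ s t, 0 < s → 0 < t → 0 < ρ s t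
  lower : ∀ s t, 0 < s → 0 < t → hz s t ≤ C * ρ s t
  upper : ∀ s t, 0 < s → 0 < t → ρ s t ≤ C * hz s t
  lip_s : ∀ s s' t, 0 < s → s ≤ s' → 0 < t →
    |Real.log (ρ s' t) - Real.log (ρ s t)| ≤ C * ((s' - s) / s)
  lip_t : ∀ s t t', 0 < s → 0 < t → t ≤ t' →
    |Real.log (ρ s t') - Real.log (ρ s t)| ≤ C * ((t' - t) * (1 / s + 1 / t))
  zero : ∀ s t, 0 < s → 0 < t → 0 ≤ F s t ∧ F s t ≤ C * (t / (s + t)) ^ ((1 : ℝ) / 3)
  one : ∀ s t, 0 < s → 0 < t → 1 - F s t ≤ C * (s / (s + t)) ^ ((1 : ℝ) / 3)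
  le_one : ∀ s t, 0 < s → 0 < t → F s t ≤ 1

theorem hz_pos {s t : ℝ} (hs : 0 < s) (ht : 0 < t) : 0 < hz s t := by unfold hz; positivity

theorem props : ∃ C : ℝ, 1 ≤ C ∧ ∀ (φ : ℕ → ℕ) (F ρ : ℝ → ℝ → ℝ), ArrLim φ F ρ → Props C F ρ := by
  obtain ⟨C1, hC1, hb, hN, hk⟩ := log_lattice
  obtain ⟨c2, C2, hc2, hC2, hI⟩ := half_bounds_Iic
  refine ⟨C1 + C2, by linarith, ?_⟩
  intro φ F ρ h
  have hφ := h.top
  have low : ∀ s t, 0 < s → 0 < t → hz s t ≤ C1 * ρ s t := by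
    intro s t hs ht
    have t1 := W_lim hφ hs ht (sc_fl hφ s) (sc_fl hφ t)
    have t2 := (h.loc s t hs ht _ _ (sc_fl hφ s) (sc_fl hφ t)).const_mul C1
    refine le_of_tendsto_of_tendsto t1 t2 ?_
    filter_upwards [ev_ge hφ hs (sc_fl hφ s) 1, ev_ge hφ ht (sc_fl hφ t) 1] with j a1 a2
    have := (hb _ _ a1 (by omega : (0:ℤ) ≤ ⌊(φ j : ℝ) * t⌋)).2.1
    calc (φ j : ℝ) * W ⌊(φ j : ℝ) * s⌋ ⌊(φ j : ℝ) * t⌋
        ≤ φ j * (C1 * pf ⌊(φ j : ℝ) * s⌋ ⌊(φ j : ℝ) * t⌋) := by gcongr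
      _ = C1 * (φ j * pf ⌊(φ j : ℝ) * s⌋ ⌊(φ j : ℝ) * t⌋) := by ring
  have upp : ∀ s t, 0 < s → 0 < t → ρ s t ≤ C1 * hz s t := by
    intro s t hs ht
    have t1 := (W_lim hφ hs ht (sc_fl hφ s) (sc_fl hφ t)).const_mul C1
    have t2 := h.loc s t hs ht _ _ (sc_fl hφ s) (sc_fl hφ t)
    refine le_of_tendsto_of_tendsto t2 t1 ?_
    filter_upwards [ev_ge hφ hs (sc_fl hφ s) 1, ev_ge hφ ht (sc_fl hφ t) 1] with j a1 a2
    have := (hb _ _ a1 (by omega : (0:ℤ) ≤ ⌊(φ j : ℝ) * t⌋)).2.2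
    calc (φ j : ℝ) * pf ⌊(φ j : ℝ) * s⌋ ⌊(φ j : ℝ) * t⌋
        ≤ φ j * (C1 * W ⌊(φ j : ℝ) * s⌋ ⌊(φ j : ℝ) * t⌋) := by gcongr
      _ = C1 * (φ j * W ⌊(φ j : ℝ) * s⌋ ⌊(φ j : ℝ) * t⌋) := by ring
  have pos : ∀ s t, 0 < s → 0 < t → 0 < ρ s t := by
    intro s t hs ht
    have h1 := low s t hs ht
    have h2 := hz_pos hs ht
    by_contra hneg
    push Not at hneg
    nlinarith
  have cdfb : ∀ s t, 0 < s → 0 < t →
      F s t ≤ C2 * (1 - s / (s + t)) ^ ((1 : ℝ) / 3) ∧ 1 - F s t ≤ C2 * (s / (s + t)) ^ ((1 : ℝ) / 3) := by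
    intro s t hs ht
    have hst : 0 < s + t := by linarith
    have t0 := h.cdf s t hs ht _ _ (sc_fl hφ s) (sc_fl hφ t)
    -- the ratio
    have hden : Tendsto (fun j => (((⌊(φ j : ℝ) * s⌋ + (⌊(φ j : ℝ) * t⌋ + 1) : ℤ) : ℝ)) / φ j) atTop
        (𝓝 (s + t)) := by
      refine (Tendsto.add (sc_fl hφ s) (sc_add hφ (sc_fl hφ t) 1)).congr ?_
      intro j
      push_cast
      ring
    have hu : Tendsto (fun j => ((⌊(φ j : ℝ) * s⌋ : ℤ) : ℝ) /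
        ((⌊(φ j : ℝ) * s⌋ + (⌊(φ j : ℝ) * t⌋ + 1) : ℤ) : ℝ)) atTop (𝓝 (s / (s + t))) := by
      refine (Tendsto.div (sc_fl hφ s) hden hst.ne').congr' ?_
      filter_upwards [hφ.eventually_gt_atTop 0] with j a3
      have hφ0 : (φ j : ℝ) ≠ 0 := by
        have : (0:ℝ) < φ j := by exact_mod_cast a3
        exact this.ne'
      rw [Pi.div_apply, div_div_div_cancel_right₀ hφ0]
    have hev : ∀ᶠ j in atTop,
        Phi (-⌊(φ j : ℝ) * s⌋) 0 ⌊(φ j : ℝ) * t⌋ ≤ C2 * (1 - ((⌊(φ j : ℝ) * s⌋ : ℤ) : ℝ) /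
          ((⌊(φ j : ℝ) * s⌋ + (⌊(φ j : ℝ) * t⌋ + 1) : ℤ) : ℝ)) ^ ((1 : ℝ) / 3) ∧
        1 - Phi (-⌊(φ j : ℝ) * s⌋) 0 ⌊(φ j : ℝ) * t⌋ ≤ C2 * (((⌊(φ j : ℝ) * s⌋ : ℤ) : ℝ) /
          ((⌊(φ j : ℝ) * s⌋ + (⌊(φ j : ℝ) * t⌋ + 1) : ℤ) : ℝ)) ^ ((1 : ℝ) / 3) := by
      filter_upwards [ev_ge hφ hs (sc_fl hφ s) 1, ev_ge hφ ht (sc_fl hφ t) 1] with j a1 a2
      have := hI (-⌊(φ j : ℝ) * s⌋) 0 ⌊(φ j : ℝ) * t⌋ (by omega) (by omega)
        (((⌊(φ j : ℝ) * s⌋ : ℤ) : ℝ) /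
          ((⌊(φ j : ℝ) * s⌋ + (⌊(φ j : ℝ) * t⌋ + 1) : ℤ) : ℝ)) (by
          rw [show (0:ℤ) - -⌊(φ j : ℝ) * s⌋ = ⌊(φ j : ℝ) * s⌋ by ring, sub_zero])
      exact ⟨this.2.1, this.2.2.2⟩
    have hlt : s / (s + t) < 1 := by
      rw [div_lt_one hst]; linarith
    constructor
    · refine le_of_tendsto_of_tendsto t0
        ((Tendsto.rpow_const (hu.const_sub 1) (Or.inl (by linarith))).const_mul C2) ?_
      exact hev.mono (fun j hj => hj.1)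
    · refine le_of_tendsto_of_tendsto (t0.const_sub 1)
        ((Tendsto.rpow_const hu (Or.inl (by positivity))).const_mul C2) ?_
      exact hev.mono (fun j hj => hj.2)
  have P0 : ∀ a b c : ℤ, 0 ≤ Phi a b c ∧ Phi a b c ≤ 1 := by
    intro a b c
    unfold Phi crossProb
    exact ⟨measureReal_nonneg, measureReal_le_one⟩
  have F01 : ∀ s t, 0 < s → 0 < t → 0 ≤ F s t ∧ F s t ≤ 1 := by
    intro s t hs ht
    have t0 := h.cdf s t hs ht _ _ (sc_fl hφ s) (sc_fl hφ t)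
    exact ⟨ge_of_tendsto' t0 (fun j => (P0 _ _ _).1), le_of_tendsto' t0 (fun j => (P0 _ _ _).2)⟩
  refine ⟨pos, ?_, ?_, ?_, ?_, ?_, ?_, fun s t hs ht => (F01 s t hs ht).2⟩
  · intro s t hs ht
    have := pos s t hs ht
    refine (low s t hs ht).trans ?_
    nlinarith
  · intro s t hs ht
    have := hz_pos hs ht
    refine (upp s t hs ht).trans ?_
    nlinarith
  · intro s s' t hs hss ht
    have hs' : 0 < s' := by linarith
    have t1 := h.loc s t hs ht _ _ (sc_fl hφ s) (sc_fl hφ t)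
    have t2 := h.loc s' t hs' ht _ _ (sc_fl hφ s') (sc_fl hφ t)
    have t3 := ((t2.log (pos s' t hs' ht).ne').sub (t1.log (pos s t hs ht).ne')).abs
    have t4 : Tendsto (fun j => C1 * ((((⌊(φ j : ℝ) * s'⌋ : ℤ) : ℝ) / φ j -
        ((⌊(φ j : ℝ) * s⌋ : ℤ) : ℝ) / φ j) / (((⌊(φ j : ℝ) * s⌋ : ℤ) : ℝ) / φ j))) atTop
        (𝓝 (C1 * ((s' - s) / s))) :=
      (((Tendsto.sub (sc_fl hφ s') (sc_fl hφ s)).div (sc_fl hφ s) hs.ne')).const_mul C1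
    have h5 : |Real.log (ρ s' t) - Real.log (ρ s t)| ≤ C1 * ((s' - s) / s) := by
      refine le_of_tendsto_of_tendsto t3 t4 ?_
      filter_upwards [ev_ge hφ hs (sc_fl hφ s) 1, ev_ge hφ ht (sc_fl hφ t) 1,
        hφ.eventually_gt_atTop 0] with j a1 a2 a3
      have hφ0 : (0:ℝ) < φ j := by exact_mod_cast a3
      have hle : ⌊(φ j : ℝ) * s⌋ ≤ ⌊(φ j : ℝ) * s'⌋ := Int.floor_le_floor (by gcongr)
      obtain ⟨d, hd⟩ := Int.le.dest hle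
      have h6 := hN ⌊(φ j : ℝ) * s⌋ ⌊(φ j : ℝ) * t⌋ d a1 (by omega)
      rw [hd] at h6
      have q1 := (hb ⌊(φ j : ℝ) * s⌋ ⌊(φ j : ℝ) * t⌋ a1 (by omega)).1
      have q2 := (hb ⌊(φ j : ℝ) * s'⌋ ⌊(φ j : ℝ) * t⌋ (by omega) (by omega)).1
      rw [Real.log_mul hφ0.ne' q2.ne', Real.log_mul hφ0.ne' q1.ne', add_sub_add_left_eq_sub]
      refine h6.trans (le_of_eq ?_)
      have e1 : (d : ℝ) = ((⌊(φ j : ℝ) * s'⌋ : ℤ) : ℝ) - ((⌊(φ j : ℝ) * s⌋ : ℤ) : ℝ) := by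
        rw [← hd]; push_cast; ring
      have hN0 : (0:ℝ) < ((⌊(φ j : ℝ) * s⌋ : ℤ) : ℝ) := by
        exact_mod_cast (by omega : (0:ℤ) < ⌊(φ j : ℝ) * s⌋)
      rw [e1]
      field_simp
    refine h5.trans ?_
    have : 0 ≤ (s' - s) / s := div_nonneg (by linarith) hs.le
    nlinarith
  · intro s t t' hs ht htt
    have ht' : 0 < t' := by linarith
    have t1 := h.loc s t hs ht _ _ (sc_fl hφ s) (sc_fl hφ t)
    have t2 := h.loc s t' hs ht' _ _ (sc_fl hφ s) (sc_fl hφ t')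
    have t3 := ((t2.log (pos s t' hs ht').ne').sub (t1.log (pos s t hs ht).ne')).abs
    have t4 : Tendsto (fun j => C1 * ((((⌊(φ j : ℝ) * t'⌋ : ℤ) : ℝ) / φ j -
        ((⌊(φ j : ℝ) * t⌋ : ℤ) : ℝ) / φ j) * (1 / (((⌊(φ j : ℝ) * s⌋ : ℤ) : ℝ) / φ j) +
        1 / (((⌊(φ j : ℝ) * t⌋ + 1 : ℤ) : ℝ) / φ j)))) atTop
        (𝓝 (C1 * ((t' - t) * (1 / s + 1 / t)))) :=
      ((Tendsto.sub (sc_fl hφ t') (sc_fl hφ t)).mul
        ((tendsto_const_nhds.div (sc_fl hφ s) hs.ne').add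
          (tendsto_const_nhds.div (sc_add hφ (sc_fl hφ t) 1) ht.ne'))).const_mul C1
    have h5 : |Real.log (ρ s t') - Real.log (ρ s t)| ≤ C1 * ((t' - t) * (1 / s + 1 / t)) := by
      refine le_of_tendsto_of_tendsto t3 t4 ?_
      filter_upwards [ev_ge hφ hs (sc_fl hφ s) 1, ev_ge hφ ht (sc_fl hφ t) 1,
        hφ.eventually_gt_atTop 0] with j a1 a2 a3
      have hφ0 : (0:ℝ) < φ j := by exact_mod_cast a3
      have hle : ⌊(φ j : ℝ) * t⌋ ≤ ⌊(φ j : ℝ) * t'⌋ := Int.floor_le_floor (by gcongr)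
      obtain ⟨d, hd⟩ := Int.le.dest hle
      have h6 := hk ⌊(φ j : ℝ) * s⌋ ⌊(φ j : ℝ) * t⌋ d a1 (by omega)
      rw [hd] at h6
      have q1 := (hb ⌊(φ j : ℝ) * s⌋ ⌊(φ j : ℝ) * t⌋ a1 (by omega)).1
      have q2 := (hb ⌊(φ j : ℝ) * s⌋ ⌊(φ j : ℝ) * t'⌋ a1 (by omega)).1
      rw [Real.log_mul hφ0.ne' q2.ne', Real.log_mul hφ0.ne' q1.ne', add_sub_add_left_eq_sub]
      refine h6.trans (le_of_eq ?_)
      have e1 : (d : ℝ) = ((⌊(φ j : ℝ) * t'⌋ : ℤ) : ℝ) - ((⌊(φ j : ℝ) * t⌋ : ℤ) : ℝ) := by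
        rw [← hd]; push_cast; ring
      have hN0 : (0:ℝ) < ((⌊(φ j : ℝ) * s⌋ : ℤ) : ℝ) := by
        exact_mod_cast (by omega : (0:ℤ) < ⌊(φ j : ℝ) * s⌋)
      have hk0 : (0:ℝ) < ((⌊(φ j : ℝ) * t⌋ : ℤ) : ℝ) + 1 := by
        exact_mod_cast (by omega : (0:ℤ) < ⌊(φ j : ℝ) * t⌋ + 1)
      rw [e1]
      push_cast
      field_simp
    refine h5.trans ?_
    have : 0 ≤ (t' - t) * (1 / s + 1 / t) := mul_nonneg (by linarith) (by positivity)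
    nlinarith
  · intro s t hs ht
    have hst : 0 < s + t := by linarith
    refine ⟨(F01 s t hs ht).1, (cdfb s t hs ht).1.trans ?_⟩
    have e : 1 - s / (s + t) = t / (s + t) := by field_simp; ring
    rw [e]
    have : 0 ≤ (t / (s + t)) ^ ((1 : ℝ) / 3) := by positivity
    nlinarith
  · intro s t hs ht
    refine (cdfb s t hs ht).2.trans ?_
    have : 0 ≤ (s / (s + t)) ^ ((1 : ℝ) / 3) := by positivity
    nlinarith

end Pool.Agent.U167.HP
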