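import Pool.Agent.U167.HP.Arr5

/-!
The arrival law of the exploration path in the half-plane: the limit density, and convergence in
total variation.
-/

set_option maxHeartbeats 1000000

namespace Pool.Agent.U167.HP

open H974 H731C H985LC R752GL MeasureTheory Filter Topology Set

theorem rho_cont {C : ℝ} (hC : 1 ≤ C) {F ρ : ℝ → ℝ → ℝ} (hP : Props C F ρ) {s t : ℝ} (hs : 0 < s)
    (ht : 0 < t) : ContinuousAt (ρ s) t := by
  have h1 : ContinuousAt (fun r => Real.log (ρ s r)) t := by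
    rw [ContinuousAt, tendsto_iff_dist_tendsto_zero]
    have h2 : Tendsto (fun r : ℝ => C * (|r - t| * (1 / s + 2 / t))) (𝓝 t) (𝓝 0) := by
      have : Continuous (fun r : ℝ => C * (|r - t| * (1 / s + 2 / t))) := by fun_prop
      have h3 := this.tendsto t
      simpa using h3
    refine squeeze_zero' (Eventually.of_forall (fun _ => dist_nonneg)) ?_ h2
    filter_upwards [Ioi_mem_nhds (show t / 2 < t by linarith)] with r hr
    rw [Real.dist_eq]
    have hr : t / 2 < r := hr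
    have hr0 : 0 < r := by linarith
    rcases le_total t r with h | h
    · refine (hP.lip_t s t r hs ht h).trans ?_
      rw [abs_of_nonneg (by linarith : 0 ≤ r - t)]
      have : (0:ℝ) ≤ r - t := by linarith
      gcongr
      norm_num
    · rw [abs_sub_comm]
      refine (hP.lip_t s r t hs hr0 h).trans ?_
      rw [abs_sub_comm, abs_of_nonneg (by linarith : 0 ≤ t - r)]
      have : (0:ℝ) ≤ t - r := by linarith
      gcongr C * ((t - r) * (1 / s + ?_))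
      rw [div_le_div_iff₀ hr0 ht]
      linarith
  have h2 : ContinuousAt (fun r => Real.exp (Real.log (ρ s r))) t := h1.rexp
  refine h2.congr ?_
  filter_upwards [Ioi_mem_nhds ht] with r hr
  exact Real.exp_log (hP.pos s r hs hr)

/-- The distribution function, extended by zero. -/
noncomputable def Fx (F : ℝ → ℝ → ℝ) (s t : ℝ) : ℝ := if t ≤ 0 then 0 else F s t

theorem Fx_pos {F : ℝ → ℝ → ℝ} {s t : ℝ} (ht : 0 < t) : Fx F s t = F s t := by
  unfold Fx
  rw [if_neg (by linarith)]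

theorem Fx_deriv {F ρ : ℝ → ℝ → ℝ} (hd : ∀ s t, 0 < s → 0 < t → HasDerivAt (F s) (ρ s t) t)
    {s t : ℝ} (hs : 0 < s) (ht : 0 < t) : HasDerivAt (Fx F s) (ρ s t) t := by
  refine (hd s t hs ht).congr_of_eventuallyEq ?_
  filter_upwards [Ioi_mem_nhds ht] with r hr
  exact Fx_pos hr

theorem Fx_cont {C : ℝ} {F ρ : ℝ → ℝ → ℝ} (hP : Props C F ρ) {s : ℝ} (hs : 0 < s) :
    ContinuousWithinAt (Fx F s) (Ici 0) 0 := by
  rw [ContinuousWithinAt, tendsto_iff_dist_tendsto_zero]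
  have h0 : Fx F s 0 = 0 := by unfold Fx; rw [if_pos le_rfl]
  have h1 : Tendsto (fun t : ℝ => C * (t / (s + t)) ^ ((1 : ℝ) / 3)) (𝓝[Ici 0] 0) (𝓝 0) := by
    have h2 : Tendsto (fun t : ℝ => t / (s + t)) (𝓝 0) (𝓝 (0 / (s + 0))) :=
      Tendsto.div tendsto_id (tendsto_const_nhds.add tendsto_id) (by linarith)
    rw [zero_div] at h2
    have h3 : Tendsto (fun t : ℝ => (t / (s + t)) ^ ((1 : ℝ) / 3)) (𝓝 0) (𝓝 (0 ^ ((1 : ℝ) / 3))) :=
      h2.rpow_const (Or.inr (by norm_num))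
    rw [Real.zero_rpow (by norm_num)] at h3
    have h4 := h3.const_mul C
    rw [mul_zero] at h4
    exact h4.mono_left nhdsWithin_le_nhds
  refine squeeze_zero' (Eventually.of_forall (fun _ => dist_nonneg)) ?_ h1
  filter_upwards [self_mem_nhdsWithin] with t ht
  rw [h0, Real.dist_eq, sub_zero]
  rcases eq_or_lt_of_le (show (0:ℝ) ≤ t from ht) with h | h
  · subst h
    rw [h0, abs_zero, zero_div, Real.zero_rpow (by norm_num), mul_zero]
  · rw [Fx_pos h]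
    obtain ⟨a1, a2⟩ := hP.zero s t hs h
    rw [abs_of_nonneg a1]
    exact a2

theorem Fx_top {C : ℝ} {F ρ : ℝ → ℝ → ℝ} (hP : Props C F ρ) {s : ℝ} (hs : 0 < s) :
    Tendsto (Fx F s) atTop (𝓝 1) := by
  have h1 : Tendsto (fun t : ℝ => 1 - C * (s / (s + t)) ^ ((1 : ℝ) / 3)) atTop (𝓝 1) := by
    have h2 : Tendsto (fun t : ℝ => s / (s + t)) atTop (𝓝 0) :=
      tendsto_const_nhds.div_atTop (tendsto_atTop_add_const_left atTop s tendsto_id)
    have h3 : Tendsto (fun t : ℝ => (s / (s + t)) ^ ((1 : ℝ) / 3)) atTop (𝓝 (0 ^ ((1 : ℝ) / 3))) :=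
      h2.rpow_const (Or.inr (by norm_num))
    rw [Real.zero_rpow (by norm_num)] at h3
    have h4 := (h3.const_mul C).const_sub 1
    simpa using h4
  refine tendsto_of_tendsto_of_tendsto_of_le_of_le' h1 tendsto_const_nhds ?_ ?_
  · filter_upwards [eventually_gt_atTop 0] with t ht
    rw [Fx_pos ht]
    have := hP.one s t hs ht
    linarith
  · filter_upwards [eventually_gt_atTop 0] with t ht
    rw [Fx_pos ht]
    exact hP.le_one s t hs ht

theorem rho_int {C : ℝ} {F ρ : ℝ → ℝ → ℝ} (hP : Props C F ρ)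
    (hd : ∀ s t, 0 < s → 0 < t → HasDerivAt (F s) (ρ s t) t) {s : ℝ} (hs : 0 < s) :
    IntegrableOn (ρ s) (Ioi 0) ∧ ∫ r in Ioi 0, ρ s r = 1 := by
  have h1 := integrableOn_Ioi_deriv_of_nonneg (g := Fx F s) (g' := ρ s) (Fx_cont hP hs)
    (fun t ht => Fx_deriv hd hs ht) (fun t ht => (hP.pos s t hs ht).le) (Fx_top hP hs)
  refine ⟨h1, ?_⟩
  have h2 := integral_Ioi_of_hasDerivAt_of_tendsto (Fx_cont hP hs)
    (fun t ht => Fx_deriv hd hs ht) h1 (Fx_top hP hs)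
  rw [h2]
  unfold Fx
  rw [if_pos le_rfl, sub_zero]

theorem rho_cdf {C : ℝ} {F ρ : ℝ → ℝ → ℝ} (hP : Props C F ρ)
    (hd : ∀ s t, 0 < s → 0 < t → HasDerivAt (F s) (ρ s t) t) {s t : ℝ} (hs : 0 < s)
    (ht : 0 < t) : ∫ r in (0:ℝ)..t, ρ s r = F s t := by
  have h1 := (rho_int hP hd hs).1
  have h2 : IntervalIntegrable (ρ s) volume 0 t := by
    rw [intervalIntegrable_iff_integrableOn_Ioc_of_le ht.le]
    exact h1.mono_set Ioc_subset_Ioi_self
  have hcont : ContinuousOn (Fx F s) (Icc 0 t) := by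
    intro r hr
    rcases eq_or_lt_of_le hr.1 with h | h
    · subst h
      exact (Fx_cont hP hs).mono Icc_subset_Ici_self
    · exact (Fx_deriv hd hs h).continuousAt.continuousWithinAt
  have h3 := intervalIntegral.integral_eq_sub_of_hasDerivAt_of_le ht.le hcont
    (fun r hr => Fx_deriv hd hs hr.1) h2
  rw [h3, Fx_pos ht]
  unfold Fx
  rw [if_pos le_rfl, sub_zero]

/-- The dominating function. -/
noncomputable def kz (s r : ℝ) : ℝ := 1 / (r ^ ((2 : ℝ) / 3) * (s / 4 + r) ^ ((2 : ℝ) / 3))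

theorem kz_int {C : ℝ} {F ρ : ℝ → ℝ → ℝ} (hP : Props C F ρ)
    (hd : ∀ s t, 0 < s → 0 < t → HasDerivAt (F s) (ρ s t) t) {s : ℝ} (hs : 0 < s) :
    IntegrableOn (kz s) (Ioi 0) := by
  have hs4 : 0 < s / 4 := by positivity
  have h1 := (rho_int hP hd hs4).1
  have hm : AEStronglyMeasurable (kz s) (volume.restrict (Ioi 0)) := by
    apply ContinuousOn.aestronglyMeasurable _ measurableSet_Ioi
    intro r hr
    have hr0 : 0 < r := hr
    apply ContinuousAt.continuousWithinAt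
    unfold kz
    apply ContinuousAt.div continuousAt_const
    · exact (continuousAt_id.rpow_const (Or.inl hr0.ne')).mul
        ((continuousAt_const.add continuousAt_id).rpow_const (Or.inl (by
          have : 0 < s / 4 + r := by positivity
          exact this.ne')))
    · positivity
  refine Integrable.mono' (h1.const_mul (C / (s / 4) ^ ((1 : ℝ) / 3))) hm ?_
  filter_upwards [ae_restrict_mem measurableSet_Ioi] with r hr
  have hr0 : 0 < r := hr
  have h2 := hP.lower (s / 4) r hs4 hr0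
  unfold hz at h2
  unfold kz
  rw [Real.norm_eq_abs, abs_of_nonneg (by positivity)]
  have h3 : 0 < (s / 4) ^ ((1 : ℝ) / 3) := by positivity
  calc 1 / (r ^ ((2 : ℝ) / 3) * (s / 4 + r) ^ ((2 : ℝ) / 3))
      = ((s / 4) ^ ((1 : ℝ) / 3) / (r ^ ((2 : ℝ) / 3) * (s / 4 + r) ^ ((2 : ℝ) / 3))) /
        (s / 4) ^ ((1 : ℝ) / 3) := by field_simp
    _ ≤ (C * ρ (s / 4) r) / (s / 4) ^ ((1 : ℝ) / 3) := by gcongr
    _ = C / (s / 4) ^ ((1 : ℝ) / 3) * ρ (s / 4) r := by ring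

theorem dominate {C : ℝ} (hb : ∀ N k : ℤ, 1 ≤ N → 0 ≤ k → pf N k ≤ C * W N k) (hC : 0 < C)
    {N : ℤ} {φ : ℕ} {s r : ℝ} (hs : 0 < s) (hr : 0 < r) (hφ : 0 < (φ : ℝ))
    (h1 : s / 2 ≤ (N : ℝ) / φ) (h2 : (N : ℝ) / φ ≤ 2 * s) (h3 : 4 / s ≤ φ) :
    (φ : ℝ) * pf N ⌊(φ : ℝ) * r⌋ ≤ C * (2 * s) ^ ((1 : ℝ) / 3) * kz s r := by
  rw [le_div_iff₀ hφ] at h1
  rw [div_le_iff₀ hφ] at h2
  rw [div_le_iff₀ hs] at h3
  have hN0 : (0:ℝ) < N := lt_of_lt_of_le (by positivity) h1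
  have hN1 : 1 ≤ N := by
    have : 0 < N := by exact_mod_cast hN0
    omega
  have hk : 0 ≤ ⌊(φ : ℝ) * r⌋ := Int.floor_nonneg.mpr (by positivity)
  have hkR : (0:ℝ) ≤ ((⌊(φ : ℝ) * r⌋ : ℤ) : ℝ) := by exact_mod_cast hk
  have h4 := hb N _ hN1 hk
  have h5 : (φ : ℝ) * r ≤ ((⌊(φ : ℝ) * r⌋ : ℤ) : ℝ) + 1 := (Int.lt_floor_add_one _).le
  have h6 : (φ : ℝ) * (s / 4 + r) ≤ (N : ℝ) + ((⌊(φ : ℝ) * r⌋ : ℤ) : ℝ) := by nlinarith
  have e1 : (N : ℝ) ^ ((1 : ℝ) / 3) ≤ (2 * s * φ) ^ ((1 : ℝ) / 3) :=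
    Real.rpow_le_rpow hN0.le h2 (by norm_num)
  have e2 : ((φ : ℝ) * r) ^ ((2 : ℝ) / 3) ≤ (((⌊(φ : ℝ) * r⌋ : ℤ) : ℝ) + 1) ^ ((2 : ℝ) / 3) :=
    Real.rpow_le_rpow (by positivity) h5 (by norm_num)
  have e3 : ((φ : ℝ) * (s / 4 + r)) ^ ((2 : ℝ) / 3) ≤
      ((N : ℝ) + ((⌊(φ : ℝ) * r⌋ : ℤ) : ℝ)) ^ ((2 : ℝ) / 3) :=
    Real.rpow_le_rpow (by positivity) h6 (by norm_num)
  calc (φ : ℝ) * pf N ⌊(φ : ℝ) * r⌋ ≤ φ * (C * W N ⌊(φ : ℝ) * r⌋) := by gcongr
    _ ≤ φ * (C * ((2 * s * φ) ^ ((1 : ℝ) / 3) / (((φ : ℝ) * r) ^ ((2 : ℝ) / 3) *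
        ((φ : ℝ) * (s / 4 + r)) ^ ((2 : ℝ) / 3)))) := by
        unfold W
        gcongr
    _ = C * (2 * s) ^ ((1 : ℝ) / 3) * kz s r := by
        unfold kz
        rw [Real.mul_rpow (by positivity) hφ.le, Real.mul_rpow hφ.le hr.le,
          Real.mul_rpow hφ.le (by positivity)]
        obtain ⟨x, hx, hx3, hx1, hx2⟩ := cube hφ
        rw [hx1, hx2]
        have p1 : 0 < r ^ ((2 : ℝ) / 3) := by positivity
        have p2 : 0 < (s / 4 + r) ^ ((2 : ℝ) / 3) := by positivity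
        rw [hx3]
        field_simp

/-- Convergence in total variation. -/
theorem l1 {C : ℝ} (hC : 1 ≤ C) (hb : ∀ N k : ℤ, 1 ≤ N → 0 ≤ k → pf N k ≤ C * W N k)
    {C' : ℝ} {φ : ℕ → ℕ}
    {F ρ : ℝ → ℝ → ℝ} (h : ArrLim φ F ρ) (hP : Props C' F ρ) {s : ℝ} (hs : 0 < s) {N : ℕ → ℤ}
    (hN : Sc φ N s) :
    Tendsto (fun j => ∫ r in Ioi (0:ℝ), |(φ j : ℝ) * pf (N j) ⌊(φ j : ℝ) * r⌋ - ρ s r|) atTop
      (𝓝 0) := by
  have hd := h.der
  have hC0 : 0 < C := by linarith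
  have hint := (rho_int hP hd hs).1
  have key := tendsto_integral_filter_of_dominated_convergence (μ := volume.restrict (Ioi 0))
    (l := atTop) (F := fun (j : ℕ) (r : ℝ) => |(φ j : ℝ) * pf (N j) ⌊(φ j : ℝ) * r⌋ - ρ s r|)
    (f := fun _ => (0:ℝ)) (fun r => C * (2 * s) ^ ((1 : ℝ) / 3) * kz s r + ρ s r) ?_ ?_ ?_ ?_
  · rw [integral_zero] at key
    exact key
  · refine Eventually.of_forall (fun j => ?_)
    have m1 : Measurable (fun r : ℝ => (φ j : ℝ) * pf (N j) ⌊(φ j : ℝ) * r⌋) := by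
      have : Measurable (fun r : ℝ => pf (N j) ⌊(φ j : ℝ) * r⌋) :=
        (measurable_from_top (f := pf (N j))).comp
          (Int.measurable_floor.comp (measurable_const_mul _))
      exact this.const_mul _
    have m2 := (m1.aestronglyMeasurable (μ := volume.restrict (Ioi 0))).sub
      hint.aestronglyMeasurable
    exact m2.norm
  · have e1 : ∀ᶠ j in atTop, s / 2 < (N j : ℝ) / φ j := hN.eventually_const_lt (by linarith)
    have e2 : ∀ᶠ j in atTop, (N j : ℝ) / φ j < 2 * s := hN.eventually_lt_const (by linarith)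
    obtain ⟨K, hK⟩ := exists_nat_gt (4 / s)
    filter_upwards [e1, e2, h.top.eventually_ge_atTop K] with j hj1 hj2 hj3
    have hK0 : (0:ℝ) < K := lt_trans (by positivity) hK
    have hφ1 : (K : ℝ) ≤ φ j := by exact_mod_cast hj3
    have hφ0 : (0:ℝ) < φ j := by linarith
    filter_upwards [ae_restrict_mem measurableSet_Ioi] with r hr
    have hr0 : 0 < r := hr
    rw [Real.norm_eq_abs, abs_abs]
    refine (abs_sub _ _).trans ?_
    rw [abs_of_nonneg (mul_nonneg hφ0.le (pf_nonneg _ _)), abs_of_pos (hP.pos s r hs hr0)]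
    have := dominate hb hC0 hs hr0 hφ0 hj1.le hj2.le (by linarith)
    linarith
  · exact ((kz_int hP hd hs).const_mul _).add hint
  · filter_upwards [ae_restrict_mem measurableSet_Ioi] with r hr
    have hr0 : 0 < r := hr
    have := h.loc s r hs hr0 N _ hN (sc_fl h.top r)
    have h2 := (this.sub_const (ρ s r)).abs
    rw [sub_self, abs_zero] at h2
    exact h2

end Pool.Agent.U167.HP
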