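import Pool.Agent.U167.HP.Arr6

/-!
Cardy's formula and its local form.
-/

set_option maxHeartbeats 1000000

namespace Pool.Agent.U167.HP

open H974 H731C H731C.CardyAux H985LC R752GL MeasureTheory Filter Topology Set

/-- Existence of scaling limits of the arrival law along subsequences. -/
theorem exists_arr {φ : ℕ → ℕ} (hφ : Tendsto φ atTop atTop) :
    ∃ ψ : ℕ → ℕ, StrictMono ψ ∧ ∃ F ρ, ArrLim (φ ∘ ψ) F ρ := by
  obtain ⟨C, hC, hb⟩ := bounds
  obtain ⟨ψ, hψ, h⟩ := exists_all hC hb hφ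
  obtain ⟨f, g, hf⟩ := h 3 E0
  exact ⟨ψ, hψ, _, _, arr_of_lim (hφ.comp hψ.tendsto_atTop) (reg_of hC hb 3 E0) hf⟩

theorem full_local {F : ℝ → ℝ → ℝ} (hF : ∀ s t, 0 < s → 0 < t →
    Tendsto (fun M : ℕ => Phi (-⌊(M : ℝ) * s⌋) 0 ⌊(M : ℝ) * t⌋) atTop (𝓝 (F s t))) {s t : ℝ}
    (hs : 0 < s) (ht : 0 < t) : HasDerivAt (F s) (deriv (F s) t) t ∧
    Tendsto (fun M : ℕ => (M : ℝ) * pf ⌊(M : ℝ) * s⌋ ⌊(M : ℝ) * t⌋) atTop
      (𝓝 (deriv (F s) t)) := by
  have key : ∀ φ : ℕ → ℕ, Tendsto φ atTop atTop → ∃ ψ : ℕ → ℕ, ∃ ρ : ℝ,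
      HasDerivAt (F s) ρ t ∧ Tendsto (fun j => ((φ (ψ j) : ℕ) : ℝ) *
        pf ⌊((φ (ψ j) : ℕ) : ℝ) * s⌋ ⌊((φ (ψ j) : ℕ) : ℝ) * t⌋) atTop (𝓝 ρ) := by
    intro φ hφ
    obtain ⟨ψ, hψ, F', ρ', h⟩ := exists_arr hφ
    have e : ∀ r, 0 < r → F' s r = F s r := by
      intro r hr
      have t1 := h.cdf s r hs hr _ _ (sc_fl h.top s) (sc_fl h.top r)
      have t2 := (hF s r hs hr).comp h.top
      exact tendsto_nhds_unique t1 t2
    refine ⟨ψ, ρ' s t, ?_, ?_⟩
    · refine (h.der s t hs ht).congr_of_eventuallyEq ?_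
      filter_upwards [Ioi_mem_nhds ht] with r hr
      exact (e r hr).symm
    · exact h.loc s t hs ht _ _ (sc_fl h.top s) (sc_fl h.top t)
  constructor
  · obtain ⟨ψ, ρ, h1, -⟩ := key id tendsto_id
    exact h1.differentiableAt.hasDerivAt
  · apply tendsto_of_subseq_tendsto
    intro φ hφ
    obtain ⟨ψ, ρ, h1, h2⟩ := key φ hφ
    refine ⟨ψ, ?_⟩
    rw [h1.deriv]
    exact h2

theorem local_full {ρ : ℝ → ℝ → ℝ} (hρ : ∀ s t, 0 < s → 0 < t →
    Tendsto (fun M : ℕ => (M : ℝ) * pf ⌊(M : ℝ) * s⌋ ⌊(M : ℝ) * t⌋) atTop (𝓝 (ρ s t)))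
    {s t : ℝ} (hs : 0 < s) (ht : 0 < t) :
    Tendsto (fun M : ℕ => Phi (-⌊(M : ℝ) * s⌋) 0 ⌊(M : ℝ) * t⌋) atTop
      (𝓝 (∫ r in (0:ℝ)..t, ρ s r)) := by
  obtain ⟨C, hC, hP⟩ := props
  apply tendsto_of_subseq_tendsto
  intro φ hφ
  obtain ⟨ψ, hψ, F', ρ', h⟩ := exists_arr hφ
  refine ⟨ψ, ?_⟩
  have e : ∀ r, 0 < r → ρ' s r = ρ s r := by
    intro r hr
    have t1 := h.loc s r hs hr _ _ (sc_fl h.top s) (sc_fl h.top r)
    have t2 := (hρ s r hs hr).comp h.top
    exact tendsto_nhds_unique t1 t2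
  have h1 : ∫ r in (0:ℝ)..t, ρ s r = F' s t := by
    rw [← rho_cdf (hP _ _ _ h) h.der hs ht]
    apply intervalIntegral.integral_congr_ae
    refine Eventually.of_forall (fun r hr => ?_)
    rw [uIoc_of_le ht.le] at hr
    exact (e r hr.1).symm
  rw [h1]
  exact h.cdf s t hs ht _ _ (sc_fl h.top s) (sc_fl h.top t)

/-- The normalisation of Cardy's function. -/
noncomputable def Bt : ℝ := ∫ u in (0 : ℝ)..1, g u

theorem g_hz {s t : ℝ} (hs : 0 < s) (ht : 0 < t) :
    g (t / (s + t)) * (s / (s + t) ^ 2) = hz s t := by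
  have hst : 0 < s + t := by linarith
  have e : 1 - t / (s + t) = s / (s + t) := by field_simp; ring
  unfold g hz
  rw [e, Real.rpow_neg (by positivity), Real.rpow_neg (by positivity),
    Real.div_rpow ht.le hst.le, Real.div_rpow hs.le hst.le]
  obtain ⟨a, ha, ha3, ha1, ha2⟩ := cube hs
  obtain ⟨b, hb, hb3, hb1, hb2⟩ := cube ht
  obtain ⟨c, hc, hc3, hc1, hc2⟩ := cube hst
  rw [ha1, ha2, hb2, hc2, hc3]
  conv_lhs => rw [ha3]
  field_simp

theorem g_meas : Measurable g := by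
  unfold g
  fun_prop

theorem cardy_deriv {s t : ℝ} (hs : 0 < s) (ht : 0 < t) :
    HasDerivAt (fun r => cardyF (r / (s + r))) (hz s t / Bt) t := by
  have hst : 0 < s + t := by linarith
  have hx0 : 0 < t / (s + t) := by positivity
  have hx1 : t / (s + t) < 1 := by rw [div_lt_one hst]; linarith
  have h1 : HasDerivAt (fun x => ∫ u in (0 : ℝ)..x, g u) (g (t / (s + t))) (t / (s + t)) := by
    apply intervalIntegral.integral_hasDerivAt_right (g_int hx0.le hx1)
    · exact g_meas.stronglyMeasurable.stronglyMeasurableAtFilter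
    · unfold g
      apply ContinuousAt.mul
      · exact continuousAt_id.rpow_const (Or.inl hx0.ne')
      · exact (continuousAt_const.sub continuousAt_id).rpow_const (Or.inl (by
          have : 0 < 1 - t / (s + t) := by linarith
          exact this.ne'))
  have h2 : HasDerivAt (fun r : ℝ => r / (s + r)) (s / (s + t) ^ 2) t := by
    have h3 := (hasDerivAt_id t).div ((hasDerivAt_id t).const_add s) (by
      show s + id t ≠ 0
      exact hst.ne')
    refine h3.congr_deriv ?_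
    simp only [id]
    congr 1
    ring
  have h3 := (h1.comp t h2).div_const Bt
  rw [g_hz hs ht] at h3
  exact h3

theorem cardy_int {s t : ℝ} (hs : 0 < s) (ht : 0 < t) :
    ∫ r in (0:ℝ)..t, hz s r / Bt = cardyF (t / (s + t)) := by
  have hB : 0 < Bt := total_pos
  have hcont : ContinuousOn (fun r => cardyF (r / (s + r))) (Icc 0 t) := by
    intro r hr
    have h0 : 0 ≤ r := hr.1
    have hsr : 0 < s + r := by linarith
    have h1 : ContinuousWithinAt cardyF (Ici 0) (r / (s + r)) :=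
      cardyF_cont (by positivity) (by rw [div_lt_one hsr]; linarith)
    have h2 : ContinuousWithinAt (fun r : ℝ => r / (s + r)) (Icc 0 t) r :=
      (continuousAt_id.div (continuousAt_const.add continuousAt_id) hsr.ne').continuousWithinAt
    have h3 : MapsTo (fun r : ℝ => r / (s + r)) (Icc 0 t) (Ici 0) := by
      intro x hx
      have : 0 ≤ x := hx.1
      show 0 ≤ x / (s + x)
      positivity
    exact ContinuousWithinAt.comp (f := fun r : ℝ => r / (s + r)) (g := cardyF) h1 h2 h3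
  have hint : IntegrableOn (fun r => hz s r / Bt) (Ioc 0 t) :=
    intervalIntegral.integrableOn_deriv_of_nonneg hcont (fun r hr => cardy_deriv hs hr.1)
      (fun r hr => (div_pos (hz_pos hs hr.1) hB).le)
  have h2 : IntervalIntegrable (fun r => hz s r / Bt) volume 0 t := by
    rw [intervalIntegrable_iff_integrableOn_Ioc_of_le ht.le]
    exact hint
  rw [intervalIntegral.integral_eq_sub_of_hasDerivAt_of_le ht.le hcont
    (fun r hr => cardy_deriv hs hr.1) h2]
  simp [cardyF]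

/-- Cardy's formula is equivalent to its local form. -/
theorem cardy_iff :
    (∀ s t, 0 < s → 0 < t →
      Tendsto (fun M : ℕ => Phi (-⌊(M : ℝ) * s⌋) 0 ⌊(M : ℝ) * t⌋) atTop
        (𝓝 (cardyF (t / (s + t))))) ↔
    ∀ s t, 0 < s → 0 < t →
      Tendsto (fun M : ℕ => (M : ℝ) * pf ⌊(M : ℝ) * s⌋ ⌊(M : ℝ) * t⌋) atTop
        (𝓝 (hz s t / Bt)) := by
  constructor
  · intro h s t hs ht
    have := (full_local (F := fun s t => cardyF (t / (s + t))) h hs ht).2
    rwa [(cardy_deriv hs ht).deriv] at this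
  · intro h s t hs ht
    have := local_full (ρ := fun s t => hz s t / Bt) h hs ht
    rwa [cardy_int hs ht] at this

end Pool.Agent.U167.HP
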