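import Pool.Agent.U167.HP.Loc
import Pool.Agent.H731R3.Cardy.Inf

/-!
Connection patterns of the arcs of the boundary of the half-plane between marked points: moving one
marked point by one step changes the pattern only if there is a tip at this point.
-/

set_option maxHeartbeats 1000000

namespace Pool.Agent.U167.HP

open H974 H731C Finset

/-- The edges of the closed upper half-plane. -/
def up : Set Edg := {e | 0 ≤ e.2.1}

/-- Connection of two boundary vertices in the closed upper half-plane. -/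
def con (G : Set Edg) (s t : ℤ) : Prop := Reach (G ∩ up) (s, 0) (t, 0)

/-- The number of marked points at or to the left of `t`. -/
def arc {n : ℕ} (x : Fin n → ℤ) (t : ℤ) : ℕ := (Finset.univ.filter (fun i => x i ≤ t)).card

/-- The pairs of non-adjacent arcs which are joined. -/
def pat {n : ℕ} (R : ℤ → ℤ → Prop) (x : Fin n → ℤ) : Set (ℕ × ℕ) :=
  {q | q.1 + 2 ≤ q.2 ∧ ∃ s t, arc x s = q.1 ∧ arc x t = q.2 ∧ R s t}

variable {n : ℕ}

/-- The number of the other marked points at or to the left of `t`. -/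
def base (x : Fin n → ℤ) (i : Fin n) (t : ℤ) : ℕ :=
  ((Finset.univ.erase i).filter (fun k => x k ≤ t)).card

theorem arc_eq (x : Fin n → ℤ) (i : Fin n) (w t : ℤ) :
    arc (Function.update x i w) t = base x i t + (if w ≤ t then 1 else 0) := by
  unfold arc base
  have h1 : (Finset.univ : Finset (Fin n)) = insert i (Finset.univ.erase i) :=
    (Finset.insert_erase (Finset.mem_univ i)).symm
  conv_lhs => rw [h1]
  rw [Finset.filter_insert, Function.update_self]
  have h2 : (Finset.univ.erase i).filter (fun k => Function.update x i w k ≤ t) =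
      (Finset.univ.erase i).filter (fun k => x k ≤ t) := by
    apply Finset.filter_congr
    intro k hk
    rw [Function.update_of_ne (Finset.ne_of_mem_erase hk)]
  rw [h2]
  split_ifs with h
  · rw [Finset.card_insert_of_notMem]
    intro h3
    exact Finset.notMem_erase i _ (Finset.mem_filter.mp h3).1
  · rfl

theorem base_eq {x : Fin n → ℤ} {i : Fin n} {v r t : ℤ} (hx : ∀ k, k ≠ i → r + 1 ≤ |x k - v|)
    (h1 : v - r - 1 ≤ t) (h2 : t ≤ v + r) : base x i t = base x i v := by
  unfold base
  congr 1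
  apply Finset.filter_congr
  intro k hk
  have := hx k (Finset.ne_of_mem_erase hk)
  rw [le_abs] at this
  omega

theorem exit {v r t : ℤ} {G : Set Edg} (hr : 0 ≤ r) (h : con G v t) (ht : t ≤ v - r ∨ v + r ≤ t) :
    ∃ u, onH v 0 r u ∧ Reach (G ∩ ↑(HB v r)) (v, 0) u := by
  obtain ⟨w, hw1, hw2, hw3⟩ := first_exit (a := v - r) (b := v + r) (c := -1) (d := r)
    (u := (v, 0)) (v := (t, 0)) (G := G ∩ up)
    ⟨⟨by show v - r ≤ v; omega, by show v ≤ v + r; omega⟩, by show (-1:ℤ) ≤ 0; omega,
      by show (0:ℤ) ≤ r; omega⟩ h (by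
      show t ≤ v - r ∨ v + r ≤ t ∨ _
      omega)
  have hw4 : Reach (G ∩ ↑(HB v r)) (v, 0) w := by
    refine hw3.mono ?_
    rintro ⟨x, y, _ | _⟩ ⟨⟨h1, h2⟩, h3⟩
    · refine ⟨h1, ?_⟩
      have h2' : 0 ≤ y := h2
      rw [mem_coe, mem_RE_false] at h3 ⊢
      omega
    · refine ⟨h1, ?_⟩
      have h2' : 0 ≤ y := h2
      rw [mem_coe, mem_RE_true] at h3 ⊢
      omega
  have hw5 : inR (v - r) (v + r) 0 (0 + r) w :=
    reach_inR (u := (v, 0)) ⟨⟨by show v - r ≤ v; omega, by show v ≤ v + r; omega⟩, le_refl _,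
      by show (0:ℤ) ≤ 0 + r; omega⟩ hw4
  refine ⟨w, ?_, hw4⟩
  have := hw5.2.1
  unfold onH
  omega

theorem con_of_reach {v r w : ℤ} {G : Set Edg} (h : Reach (G ∩ ↑(HB v r)) (v, 0) (w, 0)) :
    con G v w := by
  refine Reach.mono ?_ h
  rintro ⟨x, y, _ | _⟩ ⟨h1, h2⟩
  · refine ⟨h1, ?_⟩
    rw [mem_coe, mem_RE_false] at h2
    show 0 ≤ y
    omega
  · refine ⟨h1, ?_⟩
    rw [mem_coe, mem_RE_true] at h2
    show 0 ≤ y
    omega

/-- The tip on the right for a set of edges. -/
def tipR (v r : ℤ) (G : Set Edg) : Prop :=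
  (∃ u, onH v 0 r u ∧ Reach (G ∩ ↑(HB v r)) (v, 0) u) ∧
    ∀ w, v < w → w ≤ v + r → ¬ Reach (G ∩ ↑(HB v r)) (v, 0) (w, 0)

/-- The tip on the left for a set of edges. -/
def tipL (v r : ℤ) (G : Set Edg) : Prop :=
  (∃ u, onH v 0 r u ∧ Reach (G ∩ ↑(HB v r)) (v, 0) u) ∧
    ∀ w, v - r ≤ w → w < v → ¬ Reach (G ∩ ↑(HB v r)) (v, 0) (w, 0)

theorem con_symm {G : Set Edg} {s t : ℤ} (h : con G s t) : con G t s := Reach.symm h

theorem con_trans {G : Set Edg} {s t u : ℤ} (h : con G s t) (h' : con G t u) : con G s u :=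
  Reach.trans h h'

/-- The heart of the matter. -/
theorem pat_sub_right {x : Fin n → ℤ} {i : Fin n} {v r : ℤ} {G : Set Edg} (hr : 0 ≤ r)
    (hx : ∀ k, k ≠ i → r + 1 ≤ |x k - v|) (hT : ¬ tipR v r G) :
    pat (con G) (Function.update x i v) ⊆ pat (con G) (Function.update x i (v + 1)) := by
  -- the cluster of `v` reaches a far vertex
  have key : ∀ t, t ≠ v → (t < v - r ∨ v + r < t) → con G v t →
      ∃ w, v < w ∧ w ≤ v + r ∧ con G w t := by
    intro t htv htf hc
    by_contra hcon
    push Not at hcon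
    apply hT
    refine ⟨exit hr hc (by omega), ?_⟩
    intro w h1 h2 h3
    exact hcon w h1 h2 (con_trans (con_symm (con_of_reach h3)) hc)
  have ha : ∀ t, t ≠ v → arc (Function.update x i v) t = arc (Function.update x i (v + 1)) t := by
    intro t ht
    rw [arc_eq, arc_eq]
    congr 1
    have : v ≤ t ↔ v + 1 ≤ t := by omega
    simp only [this]
  have hv : arc (Function.update x i v) v = base x i v + 1 := by
    rw [arc_eq, if_pos le_rfl]
  have hw : ∀ w, v < w → w ≤ v + r →
      arc (Function.update x i (v + 1)) w = base x i v + 1 := by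
    intro w h1 h2
    rw [arc_eq, if_pos (by omega), base_eq hx (by omega) h2]
  have hnear : ∀ t, v - r ≤ t → t ≤ v + r → arc (Function.update x i v) t = base x i v ∨
      arc (Function.update x i v) t = base x i v + 1 := by
    intro t h1 h2
    rw [arc_eq, base_eq hx (by omega) h2]
    split_ifs
    · exact Or.inr rfl
    · exact Or.inl rfl
  rintro ⟨j, l⟩ ⟨hjl, s, t, hs, ht, hc⟩
  simp only at hjl hs ht
  refine ⟨hjl, ?_⟩
  simp only
  by_cases hsv : s = v
  · subst hsv
    have htv : t ≠ s := by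
      rintro rfl
      omega
    have hfar : t < s - r ∨ s + r < t := by
      by_contra hcon
      push Not at hcon
      rcases hnear t hcon.1 hcon.2 with h | h <;> omega
    obtain ⟨w, h1, h2, h3⟩ := key t htv hfar hc
    refine ⟨w, t, ?_, ?_, h3⟩
    · rw [hw w h1 h2]; omega
    · rw [← ha t htv]; exact ht
  · by_cases htv : t = v
    · subst htv
      have hfar : s < t - r ∨ t + r < s := by
        by_contra hcon
        push Not at hcon
        rcases hnear s hcon.1 hcon.2 with h | h <;> omega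
      obtain ⟨w, h1, h2, h3⟩ := key s hsv hfar (con_symm hc)
      refine ⟨s, w, ?_, ?_, con_symm h3⟩
      · rw [← ha s hsv]; exact hs
      · rw [hw w h1 h2]; omega
    · exact ⟨s, t, by rw [← ha s hsv]; exact hs, by rw [← ha t htv]; exact ht, hc⟩

theorem pat_sub_left {x : Fin n → ℤ} {i : Fin n} {v r : ℤ} {G : Set Edg} (hr : 0 ≤ r)
    (hx : ∀ k, k ≠ i → r + 1 ≤ |x k - v|) (hT : ¬ tipL v r G) :
    pat (con G) (Function.update x i (v + 1)) ⊆ pat (con G) (Function.update x i v) := by
  have key : ∀ t, t ≠ v → (t < v - r ∨ v + r < t) → con G v t →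
      ∃ w, v - r ≤ w ∧ w < v ∧ con G w t := by
    intro t htv htf hc
    by_contra hcon
    push Not at hcon
    apply hT
    refine ⟨exit hr hc (by omega), ?_⟩
    intro w h1 h2 h3
    exact hcon w h1 h2 (con_trans (con_symm (con_of_reach h3)) hc)
  have ha : ∀ t, t ≠ v → arc (Function.update x i v) t = arc (Function.update x i (v + 1)) t := by
    intro t ht
    rw [arc_eq, arc_eq]
    congr 1
    have : v ≤ t ↔ v + 1 ≤ t := by omega
    simp only [this]
  have hv : arc (Function.update x i (v + 1)) v = base x i v := by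
    rw [arc_eq, if_neg (by omega)]
    rfl
  have hw : ∀ w, v - r ≤ w → w < v →
      arc (Function.update x i v) w = base x i v := by
    intro w h1 h2
    rw [arc_eq, if_neg (by omega), base_eq hx (by omega) (by omega)]
    rfl
  have hnear : ∀ t, v - r ≤ t → t ≤ v + r → arc (Function.update x i (v + 1)) t = base x i v ∨
      arc (Function.update x i (v + 1)) t = base x i v + 1 := by
    intro t h1 h2
    rw [arc_eq, base_eq hx (by omega) h2]
    split_ifs
    · exact Or.inr rfl
    · exact Or.inl rfl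
  rintro ⟨j, l⟩ ⟨hjl, s, t, hs, ht, hc⟩
  simp only at hjl hs ht
  refine ⟨hjl, ?_⟩
  simp only
  by_cases hsv : s = v
  · subst hsv
    have htv : t ≠ s := by
      rintro rfl
      omega
    have hfar : t < s - r ∨ s + r < t := by
      by_contra hcon
      push Not at hcon
      rcases hnear t hcon.1 hcon.2 with h | h <;> omega
    obtain ⟨w, h1, h2, h3⟩ := key t htv hfar hc
    refine ⟨w, t, ?_, ?_, h3⟩
    · rw [hw w h1 h2]; omega
    · rw [ha t htv]; exact ht
  · by_cases htv : t = v
    · subst htv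
      have hfar : s < t - r ∨ t + r < s := by
        by_contra hcon
        push Not at hcon
        rcases hnear s hcon.1 hcon.2 with h | h <;> omega
      obtain ⟨w, h1, h2, h3⟩ := key s hsv hfar (con_symm hc)
      refine ⟨s, w, ?_, ?_, con_symm h3⟩
      · rw [ha s hsv]; exact hs
      · rw [hw w h1 h2]; omega
    · exact ⟨s, t, by rw [ha s hsv]; exact hs, by rw [ha t htv]; exact ht, hc⟩

theorem pat_eq {x : Fin n → ℤ} {i : Fin n} {v r : ℤ} {G : Set Edg} (hr : 0 ≤ r)
    (hx : ∀ k, k ≠ i → r + 1 ≤ |x k - v|) (hR : ¬ tipR v r G) (hL : ¬ tipL v r G) :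
    pat (con G) (Function.update x i v) = pat (con G) (Function.update x i (v + 1)) :=
  Set.Subset.antisymm (pat_sub_right hr hx hR) (pat_sub_left hr hx hL)

end Pool.Agent.U167.HP
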