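import Pool.Agent.U167.HP.Pr
import Pool.Agent.R752.GL.TI

/-!
The law of the connection pattern in the half-plane: measurability, translation invariance, and the
mixed differences.
-/

set_option maxHeartbeats 1000000

namespace Pool.Agent.U167.HP

open H974 H731C Finset MeasureTheory

variable {n : ℕ}

instance : IsProbabilityMeasure (bondLaw half) := by unfold bondLaw; infer_instance

theorem reach_N {G : Set Edg} {u v : Vtx} (h : Reach (G ∩ up) u v) :
    ∃ N : ℕ, Reach (G ∩ ↑(RE (-(N:ℤ)) N 0 N)) u v := by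
  induction h with
  | refl => exact ⟨0, Relation.ReflTransGen.refl⟩
  | @tail b c _ hs ih =>
    obtain ⟨N, hN⟩ := ih
    obtain ⟨⟨x, y, bo⟩, ⟨he, hup⟩, hcase⟩ := hs
    have hy : 0 ≤ y := hup
    obtain ⟨M, hM1, hM2⟩ : ∃ M : ℕ, N ≤ M ∧ (x.natAbs + y.natAbs + 1) ≤ M :=
      ⟨N + (x.natAbs + y.natAbs + 1), by omega, by omega⟩
    refine ⟨M, ?_⟩
    refine Reach.trans (hN.mono ?_) (Relation.ReflTransGen.single ⟨(x, y, bo), ⟨he, ?_⟩, hcase⟩)
    · apply Set.inter_subset_inter_right
      have := RE_mono' (N := N) (M := M) (by omega)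
      exact_mod_cast this
    · cases bo
      · rw [mem_coe, mem_RE_false]; omega
      · rw [mem_coe, mem_RE_true]; omega

theorem RE_up (N : ℕ) : (↑(RE (-(N:ℤ)) N 0 N) : Set Edg) ⊆ up := by
  rintro ⟨x, y, _ | _⟩ h
  · rw [mem_coe, mem_RE_false] at h
    show 0 ≤ y
    omega
  · rw [mem_coe, mem_RE_true] at h
    show 0 ≤ y
    omega

theorem con_iff_N {G : Set Edg} {s t : ℤ} :
    con G s t ↔ ∃ N : ℕ, Reach (G ∩ ↑(RE (-(N:ℤ)) N 0 N)) (s, 0) (t, 0) := by
  constructor
  · exact reach_N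
  · rintro ⟨N, h⟩
    exact h.mono (Set.inter_subset_inter_right _ (RE_up N))

theorem con_iff_walk {ω : sqLattice.edgeSet → Bool} {a b : ℤ} : con (opn ω) a b ↔
    ∃ p : (openGraph ω).Walk (a, 0) (b, 0), ∀ v ∈ p.support, 0 ≤ v.2 := by
  constructor
  · intro h
    obtain ⟨N, hN⟩ := con_iff_N.mp h
    exact reach_walk (le_refl (0:ℤ)) hN
  · rintro ⟨p, hp⟩
    obtain ⟨N, -, hN⟩ := walk_reach p hp
    exact con_iff_N.mpr ⟨N, hN⟩

theorem con_tr (s : ℤ) (ω : sqLattice.edgeSet → Bool) (a b : ℤ) :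
    con (opn (R752GL.TI.tr s ω)) (a + s) (b + s) ↔ con (opn ω) a b := by
  rw [con_iff_walk, con_iff_walk]
  constructor
  · rintro ⟨p, hp⟩
    have key : ∀ v ∈ (p.map (R752GL.TI.iso s ω).symm.toHom).support, 0 ≤ v.2 := by
      intro v hv
      rw [SimpleGraph.Walk.support_map] at hv
      obtain ⟨w, hw, rfl⟩ := List.mem_map.mp hv
      exact hp w hw
    have e1 : (R752GL.TI.iso s ω).symm.toHom (a + s, 0) = (a, 0) := by
      show ((a + s - s, (0:ℤ)) : ℤ × ℤ) = (a, 0)
      rw [add_sub_cancel_right]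
    have e2 : (R752GL.TI.iso s ω).symm.toHom (b + s, 0) = (b, 0) := by
      show ((b + s - s, (0:ℤ)) : ℤ × ℤ) = (b, 0)
      rw [add_sub_cancel_right]
    refine ⟨(p.map (R752GL.TI.iso s ω).symm.toHom).copy e1 e2, ?_⟩
    intro v hv
    rw [SimpleGraph.Walk.support_copy] at hv
    exact key v hv
  · rintro ⟨p, hp⟩
    have key : ∀ v ∈ (p.map (R752GL.TI.iso s ω).toHom).support, 0 ≤ v.2 := by
      intro v hv
      rw [SimpleGraph.Walk.support_map] at hv
      obtain ⟨w, hw, rfl⟩ := List.mem_map.mp hv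
      exact hp w hw
    exact ⟨p.map (R752GL.TI.iso s ω).toHom, key⟩

theorem arc_shift (x : Fin n → ℤ) (s t : ℤ) : arc (fun i => x i + s) (t + s) = arc x t := by
  unfold arc
  congr 1
  apply Finset.filter_congr
  intro i _
  show x i + s ≤ t + s ↔ x i ≤ t
  omega

theorem pat_tr (s : ℤ) (ω : sqLattice.edgeSet → Bool) (x : Fin n → ℤ) :
    pat (con (opn (R752GL.TI.tr s ω))) (fun i => x i + s) = pat (con (opn ω)) x := by
  ext ⟨j, l⟩
  constructor
  · rintro ⟨h, a, b, ha, hb, hc⟩
    refine ⟨h, a - s, b - s, ?_, ?_, ?_⟩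
    · rw [← ha, ← arc_shift x s (a - s), sub_add_cancel]
    · rw [← hb, ← arc_shift x s (b - s), sub_add_cancel]
    · rw [← con_tr s ω, sub_add_cancel, sub_add_cancel]
      exact hc
  · rintro ⟨h, a, b, ha, hb, hc⟩
    refine ⟨h, a + s, b + s, ?_, ?_, ?_⟩
    · rw [arc_shift]; exact ha
    · rw [arc_shift]; exact hb
    · rw [con_tr]
      exact hc

/-- The event that the pattern belongs to `E`. -/
def Ev (E : Set (Set (ℕ × ℕ))) (x : Fin n → ℤ) : Set (sqLattice.edgeSet → Bool) :=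
  {ω | pat (con (opn ω)) x ∈ E}

theorem con_meas (s t : ℤ) : MeasurableSet {ω : sqLattice.edgeSet → Bool | con (opn ω) s t} := by
  have : {ω : sqLattice.edgeSet → Bool | con (opn ω) s t} =
      ⋃ N : ℕ, {ω | (fun F : Finset Edg => Reach (↑F : Set Edg) (s, 0) (t, 0))
        (FF (RE (-(N:ℤ)) N 0 N) ω)} := by
    ext ω
    rw [Set.mem_iUnion, Set.mem_ofPred_eq, con_iff_N]
    apply exists_congr
    intro N
    show _ ↔ Reach (↑(FF (RE (-(N:ℤ)) N 0 N) ω) : Set Edg) (s, 0) (t, 0)
    rw [FF_coe]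
  rw [this]
  exact MeasurableSet.iUnion (fun N => meas_event (RE (-(N:ℤ)) N 0 N)
    (fun F : Finset Edg => Reach (↑F : Set Edg) (s, 0) (t, 0)))

theorem mem_pat_meas (x : Fin n → ℤ) (q : ℕ × ℕ) :
    MeasurableSet {ω : sqLattice.edgeSet → Bool | q ∈ pat (con (opn ω)) x} := by
  by_cases h : q.1 + 2 ≤ q.2
  · have : {ω : sqLattice.edgeSet → Bool | q ∈ pat (con (opn ω)) x} =
        ⋃ s : ℤ, ⋃ t : ℤ, {ω | (arc x s = q.1 ∧ arc x t = q.2) ∧ con (opn ω) s t} := by
      ext ω
      simp only [Set.mem_iUnion, Set.mem_ofPred_eq]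
      constructor
      · rintro ⟨-, s, t, h1, h2, h3⟩
        exact ⟨s, t, ⟨h1, h2⟩, h3⟩
      · rintro ⟨s, t, ⟨h1, h2⟩, h3⟩
        exact ⟨h, s, t, h1, h2, h3⟩
    rw [this]
    refine MeasurableSet.iUnion (fun s => MeasurableSet.iUnion (fun t => ?_))
    by_cases h2 : arc x s = q.1 ∧ arc x t = q.2
    · simp only [h2, true_and]
      exact con_meas s t
    · simp only [h2, false_and]
      exact MeasurableSet.empty
  · have : {ω : sqLattice.edgeSet → Bool | q ∈ pat (con (opn ω)) x} = ∅ := by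
      ext ω
      simp only [Set.mem_ofPred_eq, Set.mem_empty_iff_false, iff_false]
      intro h2
      exact h h2.1
    rw [this]
    exact MeasurableSet.empty

theorem arc_le (x : Fin n → ℤ) (t : ℤ) : arc x t ≤ n := by
  unfold arc
  exact (Finset.card_filter_le _ _).trans (by simp)

open Classical in
/-- The pattern as a finite set. -/
noncomputable def patF (R : ℤ → ℤ → Prop) (x : Fin n → ℤ) : Finset (ℕ × ℕ) :=
  (Finset.range (n + 1) ×ˢ Finset.range (n + 1)).filter (fun q => q ∈ pat R x)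

theorem coe_patF (R : ℤ → ℤ → Prop) (x : Fin n → ℤ) : (↑(patF R x) : Set (ℕ × ℕ)) = pat R x := by
  classical
  ext ⟨j, l⟩
  unfold patF
  rw [Finset.mem_coe, Finset.mem_filter, Finset.mem_product, Finset.mem_range, Finset.mem_range]
  constructor
  · exact fun h => h.2
  · intro h
    refine ⟨⟨?_, ?_⟩, h⟩
    · obtain ⟨-, s, t, h1, -, -⟩ := h
      have := arc_le x s
      simp only at h1 ⊢
      omega
    · obtain ⟨-, s, t, -, h1, -⟩ := h
      have := arc_le x t
      simp only at h1 ⊢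
      omega

theorem patF_meas (x : Fin n → ℤ) (Q : Finset (ℕ × ℕ)) :
    MeasurableSet {ω : sqLattice.edgeSet → Bool | patF (con (opn ω)) x = Q} := by
  have : {ω : sqLattice.edgeSet → Bool | patF (con (opn ω)) x = Q} =
      ⋂ q : ℕ × ℕ, {ω | q ∈ pat (con (opn ω)) x ↔ q ∈ Q} := by
    ext ω
    simp only [Set.mem_iInter, Set.mem_ofPred_eq]
    rw [← Finset.coe_inj, coe_patF, Set.ext_iff]
    rfl
  rw [this]
  refine MeasurableSet.iInter (fun q => ?_)
  by_cases h : q ∈ Q
  · simp only [h, iff_true]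
    exact mem_pat_meas x q
  · simp only [h, iff_false]
    exact (mem_pat_meas x q).compl

theorem Ev_meas (E : Set (Set (ℕ × ℕ))) (x : Fin n → ℤ) : MeasurableSet (Ev E x) := by
  have : Ev E x = ⋃ Q : Finset (ℕ × ℕ), ⋃ _ : (↑Q : Set (ℕ × ℕ)) ∈ E,
      {ω | patF (con (opn ω)) x = Q} := by
    ext ω
    simp only [Set.mem_iUnion, Set.mem_ofPred_eq, exists_prop]
    unfold Ev
    rw [Set.mem_ofPred_eq, ← coe_patF]
    constructor
    · intro h
      exact ⟨_, h, rfl⟩
    · rintro ⟨Q, h, rfl⟩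
      exact h
  rw [this]
  exact MeasurableSet.iUnion (fun Q => MeasurableSet.iUnion (fun _ => patF_meas x Q))

/-- The probability that the pattern belongs to `E`. -/
noncomputable def PE (E : Set (Set (ℕ × ℕ))) (x : Fin n → ℤ) : ℝ := (bondLaw half).real (Ev E x)

theorem PE_nonneg (E : Set (Set (ℕ × ℕ))) (x : Fin n → ℤ) : 0 ≤ PE E x := measureReal_nonneg

theorem PE_le_one (E : Set (Set (ℕ × ℕ))) (x : Fin n → ℤ) : PE E x ≤ 1 := by
  unfold PE
  exact measureReal_le_one

theorem PE_shift (E : Set (Set (ℕ × ℕ))) (x : Fin n → ℤ) (s : ℤ) :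
    PE E (fun i => x i + s) = PE E x := by
  unfold PE
  have h1 : R752GL.TI.tr s ⁻¹' (Ev E (fun i => x i + s)) = Ev E x := by
    ext ω
    show pat (con (opn (R752GL.TI.tr s ω))) (fun i => x i + s) ∈ E ↔ pat (con (opn ω)) x ∈ E
    rw [pat_tr]
  have h2 : (bondLaw half) (Ev E (fun i => x i + s)) = (bondLaw half) (Ev E x) := by
    conv_lhs => rw [← R752GL.TI.map_tr s half]
    rw [MeasurableEquiv.map_apply, h1]
  rw [measureReal_def, measureReal_def, h2]

/-- The points of `J` are moved by one step. -/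
def sft (J : Finset (Fin n)) (x : Fin n → ℤ) : Fin n → ℤ := fun i => if i ∈ J then x i + 1 else x i

/-- The mixed difference. -/
def Dm (I : Finset (Fin n)) (F : (Fin n → ℤ) → ℝ) (x : Fin n → ℤ) : ℝ :=
  ∑ J ∈ I.powerset, (-1) ^ (I \ J).card * F (sft J x)

theorem sum_zero {I : Finset (Fin n)} {i : Fin n} (hi : i ∈ I) {g : Finset (Fin n) → ℝ}
    (hg : ∀ J, J ⊆ I.erase i → g (insert i J) = g J) :
    ∑ J ∈ I.powerset, (-1) ^ (I \ J).card * g J = 0 := by
  obtain ⟨I', rfl, hiI⟩ : ∃ I', insert i I' = I ∧ i ∉ I' :=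
    ⟨I.erase i, Finset.insert_erase hi, Finset.notMem_erase i I⟩
  rw [Finset.sum_powerset_insert hiI, ← Finset.sum_add_distrib]
  apply Finset.sum_eq_zero
  intro J hJ
  rw [Finset.mem_powerset] at hJ
  rw [Finset.erase_insert hiI] at hg
  rw [hg J hJ]
  have hiJ : i ∉ J := fun h => hiI (hJ h)
  have e1 : insert i I' \ J = insert i (I' \ J) := Finset.insert_sdiff_of_notMem _ hiJ
  have e2 : insert i I' \ insert i J = I' \ J := by
    ext k
    simp only [Finset.mem_sdiff, Finset.mem_insert, not_or]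
    constructor
    · rintro ⟨h1 | h1, h2, h3⟩
      · exact absurd h1 h2
      · exact ⟨h1, h3⟩
    · rintro ⟨h1, h2⟩
      refine ⟨Or.inr h1, ?_, h2⟩
      rintro rfl
      exact hiI h1
  rw [e1, e2, Finset.card_insert_of_notMem (by simp [hiI])]
  ring

theorem sft_upd {J : Finset (Fin n)} {i : Fin n} (hi : i ∉ J) (x : Fin n → ℤ) :
    Function.update (sft J x) i (x i) = sft J x ∧
      Function.update (sft J x) i (x i + 1) = sft (insert i J) x := by
  constructor
  · ext k
    by_cases h : k = i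
    · subst h
      rw [Function.update_self]
      unfold sft
      rw [if_neg hi]
    · rw [Function.update_of_ne h]
  · ext k
    by_cases h : k = i
    · subst h
      rw [Function.update_self]
      unfold sft
      rw [if_pos (Finset.mem_insert_self _ _)]
    · rw [Function.update_of_ne h]
      unfold sft
      have : k ∈ insert i J ↔ k ∈ J := by simp [h]
      simp only [this]

open Classical in
/-- If a tip is missing, then the mixed difference vanishes. -/
theorem point_zero {x : Fin n → ℤ} {r : ℤ} (hr : 1 ≤ r)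
    (hx : ∀ i j, i ≠ j → 2 * r + 1 ≤ |x i - x j|) (E : Set (Set (ℕ × ℕ))) (I : Finset (Fin n))
    {ω : sqLattice.edgeSet → Bool} (hω : ω ∉ tips x r I) :
    ∑ J ∈ I.powerset, (-1) ^ (I \ J).card * (Ev E (sft J x)).indicator (fun _ => (1:ℝ)) ω = 0 := by
  unfold tips at hω
  simp only [Set.mem_ofPred_eq, not_forall] at hω
  obtain ⟨i, hi, hti⟩ := hω
  have hti' : ¬ tipR (x i) r (opn ω) ∧ ¬ tipL (x i) r (opn ω) := by
    constructor
    · exact fun h => hti (Or.inl h)
    · exact fun h => hti (Or.inr h)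
  apply sum_zero hi
  intro J hJ
  have hiJ : i ∉ J := fun h => Finset.notMem_erase i I (hJ h)
  obtain ⟨u1, u2⟩ := sft_upd hiJ x
  have hk : ∀ k, k ≠ i → r + 1 ≤ |sft J x k - x i| := by
    intro k hk
    have h1 := hx k i hk
    unfold sft
    rw [le_abs] at h1 ⊢
    split_ifs <;> omega
  have key := pat_eq (x := sft J x) (i := i) (v := x i) (r := r) (G := opn ω) (by omega) hk
    hti'.1 hti'.2
  rw [u1, u2] at key
  have : ω ∈ Ev E (sft (insert i J) x) ↔ ω ∈ Ev E (sft J x) := by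
    unfold Ev
    rw [Set.mem_ofPred_eq, Set.mem_ofPred_eq, key]
  by_cases h : ω ∈ Ev E (sft J x)
  · rw [Set.indicator_of_mem h, Set.indicator_of_mem (this.mpr h)]
  · rw [Set.indicator_of_notMem h, Set.indicator_of_notMem (fun h' => h (this.mp h'))]

theorem ind_int (E : Set (Set (ℕ × ℕ))) (x : Fin n → ℤ) :
    Integrable ((Ev E x).indicator (fun _ => (1:ℝ))) (bondLaw half) :=
  (integrable_const (1:ℝ)).indicator (Ev_meas E x)

theorem Dm_eq (E : Set (Set (ℕ × ℕ))) (x : Fin n → ℤ) (I : Finset (Fin n)) :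
    Dm I (PE E) x = ∫ ω, ∑ J ∈ I.powerset,
      (-1) ^ (I \ J).card * (Ev E (sft J x)).indicator (fun _ => (1:ℝ)) ω ∂(bondLaw half) := by
  rw [integral_finsetSum _ (fun J _ => (ind_int E _).const_mul _)]
  unfold Dm
  apply Finset.sum_congr rfl
  intro J _
  rw [integral_const_mul, integral_indicator (Ev_meas _ _), integral_const]
  simp [PE]

theorem Dm_le {x : Fin n → ℤ} {r : ℤ} (hr : 1 ≤ r)
    (hx : ∀ i j, i ≠ j → 2 * r + 1 ≤ |x i - x j|) (E : Set (Set (ℕ × ℕ))) (I : Finset (Fin n)) :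
    |Dm I (PE E) x| ≤ (4 * tau r) ^ I.card := by
  rw [Dm_eq]
  have h1 : ∀ ω, |∑ J ∈ I.powerset,
      (-1) ^ (I \ J).card * (Ev E (sft J x)).indicator (fun _ => (1:ℝ)) ω| ≤
        (tips x r I).indicator (fun _ => (2:ℝ) ^ I.card) ω := by
    intro ω
    by_cases hω : ω ∈ tips x r I
    · rw [Set.indicator_of_mem hω]
      refine (Finset.abs_sum_le_sum_abs _ _).trans ?_
      have : ∀ J ∈ I.powerset, |(-1) ^ (I \ J).card *
          (Ev E (sft J x)).indicator (fun _ => (1:ℝ)) ω| ≤ 1 := by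
        intro J _
        rw [abs_mul, abs_pow, abs_neg, abs_one, one_pow, one_mul]
        by_cases h : ω ∈ Ev E (sft J x)
        · rw [Set.indicator_of_mem h]; norm_num
        · rw [Set.indicator_of_notMem h]; norm_num
      refine (Finset.sum_le_sum this).trans ?_
      rw [Finset.sum_const, Finset.card_powerset, nsmul_eq_mul, mul_one]
      push_cast
      exact le_rfl
    · rw [Set.indicator_of_notMem hω, point_zero hr hx E I hω, abs_zero]
  have h2 : Integrable ((tips x r I).indicator (fun _ => (2:ℝ) ^ I.card)) (bondLaw half) :=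
    (integrable_const _).indicator (tips_meas x r I)
  have h3 := norm_integral_le_of_norm_le h2 (f := fun ω => ∑ J ∈ I.powerset,
      (-1) ^ (I \ J).card * (Ev E (sft J x)).indicator (fun _ => (1:ℝ)) ω)
    (Filter.Eventually.of_forall (fun ω => by rw [Real.norm_eq_abs]; exact h1 ω))
  rw [Real.norm_eq_abs] at h3
  refine h3.trans ?_
  rw [integral_indicator (tips_meas x r I), integral_const]
  simp only [smul_eq_mul, MeasurableSet.univ, measureReal_restrict_apply, Set.univ_inter]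
  have h4 := tips_le hx I
  calc (bondLaw half).real (tips x r I) * 2 ^ I.card ≤ (2 * tau r) ^ I.card * 2 ^ I.card := by
        gcongr
    _ = (4 * tau r) ^ I.card := by rw [← mul_pow]; ring

theorem Dm_triv (x : Fin n → ℤ) (E : Set (Set (ℕ × ℕ))) (I : Finset (Fin n)) :
    |Dm I (PE E) x| ≤ 2 ^ I.card := by
  unfold Dm
  refine (Finset.abs_sum_le_sum_abs _ _).trans ?_
  have : ∀ J ∈ I.powerset, |(-1) ^ (I \ J).card * PE E (sft J x)| ≤ 1 := by
    intro J _
    rw [abs_mul, abs_pow, abs_neg, abs_one, one_pow, one_mul, abs_of_nonneg (PE_nonneg _ _)]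
    exact PE_le_one _ _
  refine (Finset.sum_le_sum this).trans ?_
  rw [Finset.sum_const, Finset.card_powerset, nsmul_eq_mul, mul_one]
  push_cast
  exact le_rfl

/-- Mixed differences over `k` different points are of order `m ^ (-k)`. -/
theorem mixed : ∃ C : ℝ, 1 ≤ C ∧ ∀ (n : ℕ) (x : Fin n → ℤ) (m : ℤ), 1 ≤ m →
    (∀ i j, i ≠ j → m ≤ |x i - x j|) → ∀ (E : Set (Set (ℕ × ℕ))) (I : Finset (Fin n)),
    |Dm I (PE E) x| ≤ (C / m) ^ I.card := by
  obtain ⟨C, hC, ht⟩ := tau_le
  refine ⟨max 4 (16 * C), le_max_of_le_left (by norm_num), ?_⟩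
  intro n x m hm hx E I
  have hm0 : (0:ℝ) < m := by exact_mod_cast (by omega : (0:ℤ) < m)
  by_cases h : m ≤ 2
  · refine (Dm_triv x E I).trans ?_
    apply pow_le_pow_left₀ (by norm_num)
    rw [le_div_iff₀ hm0]
    have : (m:ℝ) ≤ 2 := by exact_mod_cast h
    have := le_max_left (4:ℝ) (16 * C)
    linarith
  · push Not at h
    set r : ℤ := (m - 1) / 2 with hr
    have hr1 : 1 ≤ r := by omega
    have hr2 : m ≤ 4 * r := by omega
    have hr0 : (0:ℝ) < r := by exact_mod_cast (by omega : (0:ℤ) < r)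
    refine (Dm_le hr1 (fun i j hij => le_trans (by omega) (hx i j hij)) E I).trans ?_
    have h0 := tau_nonneg r
    apply pow_le_pow_left₀ (by positivity)
    calc 4 * tau r ≤ 4 * (C / r) := by
          have := ht r hr1
          linarith
      _ ≤ 4 * (C / (m / 4)) := by
          have : (m:ℝ) / 4 ≤ r := by
            have : (m:ℝ) ≤ 4 * r := by exact_mod_cast hr2
            linarith
          gcongr
      _ = 16 * C / m := by field_simp; ring
      _ ≤ max 4 (16 * C) / m := by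
          gcongr
          exact le_max_right _ _

end Pool.Agent.U167.HP
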