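import Pool.Agent.H731R3.Cardy.HalfBox
import Pool.Agent.H974R2.Count

/-!
Half-plane tips: a boundary vertex which is joined to a large distance and which is the last
boundary vertex of its cluster on one side.
-/

set_option maxHeartbeats 1000000

namespace Pool.Agent.U167.HP

open H974 H731C Finset

/-- The half-box of radius `r` around `(v, 0)`. -/
noncomputable abbrev HB (v r : ℤ) : Finset Edg := RE (v - r) (v + r) 0 (0 + r)

/-- `(v, 0)` is joined to distance `r`, but not to the next `r` boundary vertices on the right. -/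
def TR (v r : ℤ) (F : Finset Edg) : Prop :=
  AR v 0 r F ∧ ∀ w, v < w → w ≤ v + r → ¬ Reach (↑F ∩ ↑(HB v r)) (v, 0) (w, 0)

/-- `(v, 0)` is joined to distance `r`, but not to the next `r` boundary vertices on the left. -/
def TL (v r : ℤ) (F : Finset Edg) : Prop :=
  AR v 0 r F ∧ ∀ w, v - r ≤ w → w < v → ¬ Reach (↑F ∩ ↑(HB v r)) (v, 0) (w, 0)

theorem AR_local {v r : ℤ} {F S : Finset Edg} (hS : HB v r ⊆ S) :
    AR v 0 r F ↔ AR v 0 r (F ∩ S) := by
  unfold AR
  rw [coe_inter_eq hS]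

theorem TR_local {v r : ℤ} {F S : Finset Edg} (hS : HB v r ⊆ S) :
    TR v r F ↔ TR v r (F ∩ S) := by
  unfold TR
  rw [coe_inter_eq hS, ← AR_local hS]

theorem TL_local {v r : ℤ} {F S : Finset Edg} (hS : HB v r ⊆ S) :
    TL v r F ↔ TL v r (F ∩ S) := by
  unfold TL
  rw [coe_inter_eq hS, ← AR_local hS]

theorem HB_trl (v r s : ℤ) : (trl s 0).mp (HB v r) = HB (v + s) r := by
  unfold HB
  rw [trl_RE, show v - r + s = v + s - r by ring, show v + r + s = v + s + r by ring,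
    show (0:ℤ) + 0 = 0 by ring, show (0:ℤ) + r + 0 = 0 + r by ring]

theorem HB_rfx (v r k : ℤ) : (rfx k).mp (HB v r) = HB (k - v) r := by
  unfold HB
  rw [rfx_RE, show k - (v + r) = k - v - r by ring, show k - (v - r) = k - v + r by ring]

theorem TR_trl {v r s : ℤ} {F : Finset Edg} (h : TR v r F) : TR (v + s) r ((trl s 0).mp F) := by
  obtain ⟨⟨u, hu, hr⟩, h2⟩ := h
  have e2 : (↑((trl s 0).mp F) : Set Edg) ∩ ↑(HB (v + s) r) =
      (trl s 0).φ '' ((↑F : Set Edg) ∩ ↑(HB v r)) := by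
    rw [LSym.image_inter, HB_trl]
  refine ⟨⟨(trl s 0).ψ u, ?_, ?_⟩, ?_⟩
  · obtain ⟨x, y⟩ := u
    unfold onH at hu ⊢
    simp only [trl_ψ] at hu ⊢
    omega
  · show Reach ((↑((trl s 0).mp F) : Set Edg) ∩ ↑(HB (v + s) r)) _ _
    rw [e2]
    have := (trl s 0).reach hr
    rw [trl_ψ, show ((v + s, (0:ℤ) + 0) : Vtx) = (v + s, 0) by simp] at this
    exact this
  · intro w h3 h4 h5
    rw [e2] at h5
    apply h2 (w - s) (by omega) (by omega)
    rw [← (trl s 0).reach_iff]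
    simpa using h5

theorem TR_trl_iff {v r s : ℤ} {F : Finset Edg} : TR (v + s) r ((trl s 0).mp F) ↔ TR v r F := by
  constructor
  · intro h
    have := TR_trl (s := -s) h
    have e := trl_trl s 0 F
    rw [neg_zero] at e
    rw [e] at this
    simpa using this
  · exact TR_trl

/-- The probability of a tip. -/
noncomputable def tau (r : ℤ) : ℝ := P2 (HB 0 r) (TR 0 r)

theorem tau_nonneg (r : ℤ) : 0 ≤ tau r := Pr_nonneg okhalf2 _ _

theorem pr_TR {v r : ℤ} {S : Finset Edg} (hS : HB v r ⊆ S) : P2 S (TR v r) = tau r := by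
  have h0 : P2 S (TR v r) = P2 (HB v r) (TR v r) := by
    apply Pr_local hS
    intro F _
    exact TR_local (Finset.Subset.refl _)
  rw [h0]
  unfold tau
  have h1 : HB v r = (trl v 0).mp (HB 0 r) := by
    rw [HB_trl, zero_add]
  rw [h1]
  unfold P2
  rw [LSym.pr]
  apply Pr_congr
  intro F _
  have := TR_trl_iff (v := 0) (r := r) (s := v) (F := F)
  simpa using this

theorem TL_rfx {v r k : ℤ} {F : Finset Edg} (h : TR v r F) : TL (k - v) r ((rfx k).mp F) := by
  obtain ⟨⟨u, hu, hr⟩, h2⟩ := h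
  have e2 : (↑((rfx k).mp F) : Set Edg) ∩ ↑(HB (k - v) r) =
      (rfx k).φ '' ((↑F : Set Edg) ∩ ↑(HB v r)) := by
    rw [LSym.image_inter, HB_rfx]
  refine ⟨⟨(rfx k).ψ u, ?_, ?_⟩, ?_⟩
  · obtain ⟨x, y⟩ := u
    unfold onH at hu ⊢
    simp only [rfx_ψ] at hu ⊢
    omega
  · show Reach ((↑((rfx k).mp F) : Set Edg) ∩ ↑(HB (k - v) r)) _ _
    rw [e2]
    have := (rfx k).reach hr
    rw [rfx_ψ] at this
    exact this
  · intro w h3 h4 h5
    rw [e2] at h5
    apply h2 (k - w) (by omega) (by omega)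
    rw [← (rfx k).reach_iff]
    rw [rfx_ψ, rfx_ψ]
    have e : k - (k - w) = w := by ring
    rw [e]
    exact h5

theorem TR_rfx {v r k : ℤ} {F : Finset Edg} (h : TL v r F) : TR (k - v) r ((rfx k).mp F) := by
  obtain ⟨⟨u, hu, hr⟩, h2⟩ := h
  have e2 : (↑((rfx k).mp F) : Set Edg) ∩ ↑(HB (k - v) r) =
      (rfx k).φ '' ((↑F : Set Edg) ∩ ↑(HB v r)) := by
    rw [LSym.image_inter, HB_rfx]
  refine ⟨⟨(rfx k).ψ u, ?_, ?_⟩, ?_⟩
  · obtain ⟨x, y⟩ := u
    unfold onH at hu ⊢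
    simp only [rfx_ψ] at hu ⊢
    omega
  · show Reach ((↑((rfx k).mp F) : Set Edg) ∩ ↑(HB (k - v) r)) _ _
    rw [e2]
    have := (rfx k).reach hr
    rw [rfx_ψ] at this
    exact this
  · intro w h3 h4 h5
    rw [e2] at h5
    apply h2 (k - w) (by omega) (by omega)
    rw [← (rfx k).reach_iff]
    rw [rfx_ψ, rfx_ψ]
    have e : k - (k - w) = w := by ring
    rw [e]
    exact h5

theorem rfx_rfx (k : ℤ) (F : Finset Edg) : (rfx k).mp ((rfx k).mp F) = F := by
  ext ⟨x, y, _ | _⟩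
  · simp [LSym.mem_mp]
  · have e : k - (k - x - 1) - 1 = x := by ring
    simp [LSym.mem_mp, e]

theorem TL_iff {v r k : ℤ} {F : Finset Edg} : TL (k - v) r ((rfx k).mp F) ↔ TR v r F := by
  constructor
  · intro h
    have := TR_rfx (k := k) h
    rw [rfx_rfx] at this
    simpa using this
  · exact TL_rfx

theorem pr_TL {v r : ℤ} {S : Finset Edg} (hS : HB v r ⊆ S) : P2 S (TL v r) = tau r := by
  have h0 : P2 S (TL v r) = P2 (HB v r) (TL v r) := by
    apply Pr_local hS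
    intro F _
    exact TL_local (Finset.Subset.refl _)
  rw [h0]
  unfold tau
  have h1 : HB v r = (rfx v).mp (HB 0 r) := by
    rw [HB_rfx, sub_zero]
  rw [h1]
  unfold P2
  rw [LSym.pr]
  apply Pr_congr
  intro F _
  have := TL_iff (v := 0) (r := r) (k := v) (F := F)
  simpa using this

/-- The bottom vertices `0, …, m - 1`. -/
noncomputable def bot (m : ℤ) : Finset Vtx := (Finset.Ico 0 m).image (fun y => (y, (0:ℤ)))

theorem mem_bot {m : ℤ} {v : Vtx} : v ∈ bot m ↔ v.2 = 0 ∧ 0 ≤ v.1 ∧ v.1 < m := by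
  unfold bot
  rw [Finset.mem_image]
  constructor
  · rintro ⟨y, hy, rfl⟩
    rw [Finset.mem_Ico] at hy
    exact ⟨rfl, hy⟩
  · rintro ⟨h1, h2⟩
    exact ⟨v.1, Finset.mem_Ico.mpr h2, by rw [← h1]⟩

open Classical in
/-- The number of tips is at most the number of clusters. -/
theorem sum_tip {m n r : ℤ} (hmn : m ≤ n) (hnr : m + n ≤ r) (F : Finset Edg) :
    ∑ s ∈ Finset.Ico 0 m, ind (TR s r F) ≤
      ((NC src tgt (bot m) {v : Vtx | onH 0 0 n v} (↑(F ∩ HB 0 n) : Set Edg) : ℕ) : ℝ) := by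
  have key : ∀ s ∈ (Finset.Ico 0 m).filter (fun s => TR s r F), ∃ C : Set Vtx,
      C ∈ TC src tgt (bot m) {v : Vtx | onH 0 0 n v} (↑(F ∩ HB 0 n) : Set Edg) ∧
      (s, (0:ℤ)) ∈ C ∧ ∀ w : ℤ, s < w → w < m → (w, (0:ℤ)) ∉ C := by
    intro s hs
    rw [Finset.mem_filter, Finset.mem_Ico] at hs
    obtain ⟨⟨h1, h2⟩, ⟨u, hu, hr⟩, h4⟩ := hs
    have hsub : HB 0 n ⊆ HB s r := RE_subset (by omega) (by omega) le_rfl (by omega)
    refine ⟨clu src tgt (↑(F ∩ HB 0 n) : Set Edg) (s, 0), ?_, Reach.refl _ _, ?_⟩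
    · rw [mem_TC]
      refine ⟨(s, 0), mem_bot.mpr ⟨rfl, h1, h2⟩, ?_, rfl⟩
      obtain ⟨w, hw1, hw2, hw3⟩ := first_exit (a := -n) (b := n) (c := -1) (d := n)
        (u := (s, 0)) (v := u) (G := (↑F : Set Edg) ∩ ↑(HB s r))
        ⟨⟨by show -n ≤ s; omega, by show s ≤ n; omega⟩, by show (-1:ℤ) ≤ 0; omega,
          by show (0:ℤ) ≤ n; omega⟩ hr (by
          unfold onH at hu
          omega)
      have hw4 : inR (s - r) (s + r) 0 (0 + r) w := by
        refine reach_inR (G := (↑F : Set Edg) ∩ ↑(RE (-n) n (-1) n))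
          (u := (s, 0)) ⟨⟨by show s - r ≤ s; omega, by show s ≤ s + r; omega⟩, le_refl _,
            by show (0:ℤ) ≤ 0 + r; omega⟩ (hw3.mono ?_)
        rintro e ⟨⟨h1, h2⟩, h3⟩
        exact ⟨⟨h1, h3⟩, h2⟩
      refine ⟨w, ?_, hw3.mono ?_⟩
      · have := hw4.2.1
        show onH 0 0 n w
        unfold onH
        omega
      · rintro ⟨x, y, _ | _⟩ ⟨⟨h1, h2⟩, h3⟩
        · rw [Finset.coe_inter]
          refine ⟨h1, ?_⟩
          rw [mem_coe, mem_RE_false] at h2 h3 ⊢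
          omega
        · rw [Finset.coe_inter]
          refine ⟨h1, ?_⟩
          rw [mem_coe, mem_RE_true] at h2 h3 ⊢
          omega
    · intro w h5 h6 h7
      apply h4 w h5 (by omega)
      refine Reach.mono ?_ h7
      rw [Finset.coe_inter]
      exact Set.inter_subset_inter_right _ (by exact_mod_cast hsub)
  choose! f hf using key
  have hcard : ((Finset.Ico 0 m).filter (fun s => TR s r F)).card ≤
      (TC src tgt (bot m) {v : Vtx | onH 0 0 n v} (↑(F ∩ HB 0 n) : Set Edg)).card := by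
    apply Finset.card_le_card_of_injOn f
    · intro s hs
      exact (hf s hs).1
    · intro s hs s' hs' heq
      have m1 := (Finset.mem_Ico.mp (Finset.mem_filter.mp hs).1)
      have m2 := (Finset.mem_Ico.mp (Finset.mem_filter.mp hs').1)
      by_contra hne
      rcases lt_or_gt_of_ne hne with hlt | hlt
      · apply (hf s hs).2.2 s' hlt m2.2
        rw [heq]
        exact (hf s' hs').2.1
      · apply (hf s' hs').2.2 s hlt m1.2
        rw [← heq]
        exact (hf s hs).2.1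
  have hsum : ∑ s ∈ Finset.Ico 0 m, ind (TR s r F) =
      (((Finset.Ico 0 m).filter (fun s => TR s r F)).card : ℝ) := by
    rw [Finset.card_filter]
    push_cast
    apply Finset.sum_congr rfl
    intro s _
    unfold ind
    split_ifs <;> rfl
  rw [hsum]
  unfold NC
  exact_mod_cast hcard

/-- The sum of the probabilities of the tips. -/
theorem sum_tau {m n r : ℤ} (hmn : m ≤ n) (hnr : m + n ≤ r) (hm : 0 ≤ m)
    (h1 : P2 (HB 0 n) (HA 0 0 m n) ≤ 1 / 2) : (m : ℝ) * tau r ≤ 8 := by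
  set S : Finset Edg := RE (-(2 * r)) (2 * r) 0 (2 * r) with hS
  have e1 : (m : ℝ) * tau r =
      Ex (fun _ => 1/2) S (fun F => ∑ s ∈ Finset.Ico 0 m, ind (TR s r F)) := by
    rw [Ex_sum]
    have : ∀ s ∈ Finset.Ico 0 m, Ex (fun _ => (1/2 : ℝ)) S (fun F => ind (TR s r F)) = tau r := by
      intro s hs
      rw [Finset.mem_Ico] at hs
      exact pr_TR (RE_subset (by omega) (by omega) le_rfl (by omega))
    rw [Finset.sum_congr rfl this, Finset.sum_const, Int.card_Ico, nsmul_eq_mul]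
    congr 1
    have : ((m - 0).toNat : ℤ) = m := by omega
    exact_mod_cast this.symm
  rw [e1]
  have hB : HB 0 n ⊆ S := RE_subset (by omega) (by omega) le_rfl (by omega)
  have h2 : Ex (fun _ => (1/2 : ℝ)) S (fun F => ∑ s ∈ Finset.Ico 0 m, ind (TR s r F)) ≤
      Ex (fun _ => 1/2) S (fun F =>
        ((NC src tgt (bot m) {v : Vtx | onH 0 0 n v} (↑(F ∩ HB 0 n) : Set Edg) : ℕ) : ℝ)^2) := by
    apply Ex_mono okhalf2
    intro F hF
    refine (sum_tip hmn hnr F).trans ?_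
    have : NC src tgt (bot m) {v : Vtx | onH 0 0 n v} (↑(F ∩ HB 0 n) : Set Edg) ≤
        (NC src tgt (bot m) {v : Vtx | onH 0 0 n v} (↑(F ∩ HB 0 n) : Set Edg))^2 :=
      Nat.le_self_pow two_ne_zero _
    exact_mod_cast this
  refine h2.trans ?_
  have h3 : Ex (fun _ => (1/2 : ℝ)) S (fun F =>
        ((NC src tgt (bot m) {v : Vtx | onH 0 0 n v} (↑(F ∩ HB 0 n) : Set Edg) : ℕ) : ℝ)^2) =
      Ex (fun _ => 1/2) (HB 0 n) (fun F =>
        ((NC src tgt (bot m) {v : Vtx | onH 0 0 n v} (↑F : Set Edg) : ℕ) : ℝ)^2) := by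
    rw [Ex_local hB (f := fun F =>
        ((NC src tgt (bot m) {v : Vtx | onH 0 0 n v} (↑(F ∩ HB 0 n) : Set Edg) : ℕ) : ℝ)^2)]
    · apply Ex_congr
      intro F hF
      rw [Finset.inter_eq_left.mpr hF]
    · intro F _
      rw [Finset.inter_assoc, Finset.inter_self]
  rw [h3]
  refine (NC_sq okhalf2 _ _ _ _ _ (lam := 1/2) (by norm_num) ?_).trans (by norm_num)
  refine le_trans ?_ h1
  apply Pr_mono okhalf2
  rintro F hF ⟨x, hx, b, hb, hr⟩
  obtain ⟨hx1, hx2, hx3⟩ := mem_bot.mp hx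
  refine ⟨x, b, ⟨⟨by omega, by omega⟩, by omega, by omega⟩, hb, ?_⟩
  refine Reach.mono ?_ hr
  intro e he
  exact ⟨he, hF (Finset.mem_coe.mp he)⟩

/-- The probability of a tip is of order `1 / r` at most. -/
theorem tau_le : ∃ C : ℝ, 0 < C ∧ ∀ r : ℤ, 1 ≤ r → tau r ≤ C / r := by
  obtain ⟨C, hC, hA⟩ := HA_upper
  obtain ⟨L, hL⟩ : ∃ L : ℕ, (2 * C) ^ 3 ≤ L ∧ 1 ≤ L := by
    obtain ⟨n, hn⟩ := exists_nat_ge ((2 * C) ^ 3)
    exact ⟨n + 1, by push_cast; linarith, by omega⟩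
  refine ⟨64 * L, by have : (1:ℝ) ≤ L := by exact_mod_cast hL.2
                     linarith, ?_⟩
  intro r hr
  have hr0 : (0:ℝ) < r := by exact_mod_cast (by omega : (0:ℤ) < r)
  have hLr : (1:ℝ) ≤ L := by exact_mod_cast hL.2
  rw [le_div_iff₀ hr0]
  by_cases h : r < 2 * (L + 1)
  · have h1 : tau r ≤ 1 := Pr_le_one okhalf2 _ _
    have h2 : (r : ℝ) ≤ 2 * (L + 1) := by exact_mod_cast h.le
    nlinarith [tau_nonneg r]
  · push Not at h
    -- m = r / (2 L + 2)
    set m : ℤ := r / (2 * (L + 1)) with hm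
    have hLpos : (0:ℤ) < 2 * (L + 1) := by positivity
    have hm1 : 1 ≤ m := by
      rw [hm, Int.le_ediv_iff_mul_le hLpos]
      omega
    have hm2 : m * (2 * (L + 1)) ≤ r := Int.ediv_mul_le _ (by omega)
    have hm3 : r < (m + 1) * (2 * (L + 1)) := by
      rw [hm]
      exact Int.lt_ediv_add_one_mul_self _ hLpos
    have hn : m ≤ L * m := by nlinarith [hL.2, (by exact_mod_cast hL.2 : (1:ℤ) ≤ L)]
    have h5 : P2 (HB 0 (L * m)) (HA 0 0 m (L * m)) ≤ 1 / 2 := by
      refine (hA 0 0 m (L * m) hm1 hn _ (Finset.Subset.refl _)).trans ?_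
      have hmr : (0:ℝ) < m := by exact_mod_cast (by omega : (0:ℤ) < m)
      have e : ((m:ℝ) / ((L * m : ℤ) : ℝ)) = 1 / L := by
        push_cast
        field_simp
      rw [e]
      have h6 : C * ((1:ℝ) / L) ^ ((1:ℝ)/3) ≤ C * (1 / (2 * C)) := by
        apply mul_le_mul_of_nonneg_left _ hC.le
        have h7 : (1:ℝ) / L ≤ (1 / (2 * C))^3 := by
          rw [div_pow, one_pow]
          exact one_div_le_one_div_of_le (by positivity) hL.1
        calc ((1:ℝ) / L) ^ ((1:ℝ)/3) ≤ ((1 / (2 * C))^3) ^ ((1:ℝ)/3) :=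
              Real.rpow_le_rpow (by positivity) h7 (by norm_num)
          _ = 1 / (2 * C) := by
              rw [← Real.rpow_natCast, ← Real.rpow_mul (by positivity)]
              norm_num
      refine h6.trans (le_of_eq ?_)
      field_simp
    have h6 := sum_tau (m := m) (n := L * m) (r := r) hn (by nlinarith) (by omega) h5
    have h7 : (r : ℝ) ≤ 4 * L * (2 * m) := by
      have h8 : (r : ℝ) ≤ (m + 1) * (2 * (L + 1)) := by exact_mod_cast hm3.le
      have h9 : (1:ℝ) ≤ m := by exact_mod_cast hm1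
      nlinarith
    calc tau r * r ≤ tau r * (4 * L * (2 * m)) := mul_le_mul_of_nonneg_left h7 (tau_nonneg r)
      _ = 8 * L * (m * tau r) := by ring
      _ ≤ 8 * L * 8 := mul_le_mul_of_nonneg_left h6 (by positivity)
      _ = 64 * L := by ring

end Pool.Agent.U167.HP
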