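import Pool.Agent.U167.HP.Geo

/-!
The probability of many tips.
-/

set_option maxHeartbeats 1000000

namespace Pool.Agent.U167.HP

open H974 H731C Finset MeasureTheory

/-- There is a tip at `v`. -/
def tip (v r : ℤ) : Set (sqLattice.edgeSet → Bool) := {ω | tipR v r (opn ω) ∨ tipL v r (opn ω)}

theorem tipR_iff {S : Finset Edg} {v r : ℤ} {ω : sqLattice.edgeSet → Bool} (hS : HB v r ⊆ S) :
    tipR v r (opn ω) ↔ TR v r (FF S ω) := by
  have e : (↑(FF S ω) : Set Edg) ∩ ↑(HB v r) = opn ω ∩ ↑(HB v r) := by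
    rw [FF_coe, Set.inter_assoc]
    congr 1
    apply Set.inter_eq_self_of_subset_right
    exact_mod_cast hS
  unfold tipR TR AR
  rw [e]

theorem tipL_iff {S : Finset Edg} {v r : ℤ} {ω : sqLattice.edgeSet → Bool} (hS : HB v r ⊆ S) :
    tipL v r (opn ω) ↔ TL v r (FF S ω) := by
  have e : (↑(FF S ω) : Set Edg) ∩ ↑(HB v r) = opn ω ∩ ↑(HB v r) := by
    rw [FF_coe, Set.inter_assoc]
    congr 1
    apply Set.inter_eq_self_of_subset_right
    exact_mod_cast hS
  unfold tipL TL AR
  rw [e]

variable {n : ℕ}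

open Classical in
/-- The union of the half-boxes. -/
noncomputable def SI (v : Fin n → ℤ) (r : ℤ) (I : Finset (Fin n)) : Finset Edg :=
  I.biUnion (fun i => HB (v i) r)

/-- All tips. -/
def QI (v : Fin n → ℤ) (r : ℤ) (I : Finset (Fin n)) (F : Finset Edg) : Prop :=
  ∀ i ∈ I, TR (v i) r F ∨ TL (v i) r F

theorem SI_sub {v : Fin n → ℤ} {r : ℤ} {I : Finset (Fin n)} {i : Fin n} (hi : i ∈ I) :
    HB (v i) r ⊆ SI v r I := by
  classical
  unfold SI
  intro e he
  rw [Finset.mem_biUnion]
  exact ⟨i, hi, he⟩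

theorem QI_local {v : Fin n → ℤ} {r : ℤ} {I : Finset (Fin n)} (F : Finset Edg) :
    QI v r I F ↔ QI v r I (F ∩ SI v r I) := by
  unfold QI
  apply forall₂_congr
  intro i hi
  exact or_congr (TR_local (SI_sub hi)) (TL_local (SI_sub hi))

theorem HB_disj {v w r : ℤ} (h : 2 * r + 1 ≤ |v - w|) : Disjoint (HB v r) (HB w r) := by
  rw [le_abs] at h
  rw [Finset.disjoint_left]
  rintro ⟨x, y, _ | _⟩ h1 h2
  · rw [mem_RE_false] at h1 h2; omega
  · rw [mem_RE_true] at h1 h2; omega

theorem pr_QI {v : Fin n → ℤ} {r : ℤ} (hv : ∀ i j, i ≠ j → 2 * r + 1 ≤ |v i - v j|)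
    (I : Finset (Fin n)) : P2 (SI v r I) (QI v r I) ≤ (2 * tau r) ^ I.card := by
  classical
  induction I using Finset.induction_on with
  | empty =>
    rw [Finset.card_empty, pow_zero]
    exact Pr_le_one okhalf2 _ _
  | @insert a I ha ih =>
    have hU : SI v r (insert a I) = HB (v a) r ∪ SI v r I := by
      unfold SI
      rw [Finset.biUnion_insert]
    have s1 : HB (v a) r ⊆ SI v r (insert a I) := SI_sub (Finset.mem_insert_self a I)
    have s2 : SI v r I ⊆ SI v r (insert a I) := by
      rw [hU]; exact Finset.subset_union_right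
    have hd : Disjoint (HB (v a) r) (SI v r I) := by
      unfold SI
      rw [Finset.disjoint_biUnion_right]
      intro i hi
      apply HB_disj
      apply hv
      rintro rfl
      exact ha hi
    have e1 : P2 (SI v r (insert a I)) (QI v r (insert a I)) =
        P2 (SI v r (insert a I)) (fun F => (TR (v a) r F ∨ TL (v a) r F) ∧ QI v r I F) := by
      apply Pr_congr
      intro F _
      unfold QI
      rw [Finset.forall_mem_insert]
    have e2 : P2 (SI v r (insert a I)) (fun F => (TR (v a) r F ∨ TL (v a) r F) ∧ QI v r I F) =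
        P2 (SI v r (insert a I)) (fun F => TR (v a) r F ∨ TL (v a) r F) *
          P2 (SI v r (insert a I)) (QI v r I) := by
      apply Pr_indep s1 s2 hd
      · intro F _
        exact or_congr (TR_local (Finset.Subset.refl _)) (TL_local (Finset.Subset.refl _))
      · intro F _
        exact QI_local F
    have e3 : P2 (SI v r (insert a I)) (QI v r I) = P2 (SI v r I) (QI v r I) := by
      apply Pr_local s2
      intro F _
      exact QI_local F
    have e4 : P2 (SI v r (insert a I)) (fun F => TR (v a) r F ∨ TL (v a) r F) ≤ 2 * tau r := by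
      refine (Pr_or_le okhalf2 _ _ _).trans ?_
      have a1 := pr_TR (v := v a) (r := r) s1
      have a2 := pr_TL (v := v a) (r := r) s1
      unfold P2 at a1 a2
      rw [a1, a2]
      linarith
    rw [e1, e2, e3, Finset.card_insert_of_notMem ha, pow_succ, mul_comm]
    apply mul_le_mul ih e4 (Pr_nonneg okhalf2 _ _)
    have := tau_nonneg r
    positivity

/-- The event that there are tips at all points of `I`. -/
def tips (v : Fin n → ℤ) (r : ℤ) (I : Finset (Fin n)) : Set (sqLattice.edgeSet → Bool) :=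
  {ω | ∀ i ∈ I, ω ∈ tip (v i) r}

theorem tips_eq (v : Fin n → ℤ) (r : ℤ) (I : Finset (Fin n)) :
    tips v r I = {ω | QI v r I (FF (SI v r I) ω)} := by
  ext ω
  show (∀ i ∈ I, _) ↔ ∀ i ∈ I, _
  apply forall₂_congr
  intro i hi
  exact or_congr (tipR_iff (SI_sub hi)) (tipL_iff (SI_sub hi))

theorem tips_meas (v : Fin n → ℤ) (r : ℤ) (I : Finset (Fin n)) : MeasurableSet (tips v r I) := by
  rw [tips_eq]
  exact meas_event _ _

theorem tips_le {v : Fin n → ℤ} {r : ℤ} (hv : ∀ i j, i ≠ j → 2 * r + 1 ≤ |v i - v j|)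
    (I : Finset (Fin n)) : (bondLaw half).real (tips v r I) ≤ (2 * tau r) ^ I.card := by
  rw [tips_eq, law_event]
  exact pr_QI hv I

end Pool.Agent.U167.HP
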