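import Pool.Agent.U167.HP.Inf

/-!
Second differences of the law of the connection pattern.
-/

set_option maxHeartbeats 1000000

namespace Pool.Agent.U167.HP

open H974 H731C Finset MeasureTheory

variable {n : ℕ}

/-- The difference in the direction `i`. -/
def D (i : Fin n) (F : (Fin n → ℤ) → ℝ) (x : Fin n → ℤ) : ℝ :=
  F (Function.update x i (x i + 1)) - F x

theorem sft_empty (x : Fin n → ℤ) : sft ∅ x = x := by
  ext k
  unfold sft
  rw [if_neg (Finset.notMem_empty k)]

theorem sft_insert {J : Finset (Fin n)} {i : Fin n} (hi : i ∉ J) (x : Fin n → ℤ) :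
    sft (insert i J) x = sft J (Function.update x i (x i + 1)) := by
  ext k
  unfold sft
  by_cases h : k = i
  · subst h
    rw [if_pos (Finset.mem_insert_self _ _), if_neg hi, Function.update_self]
  · rw [Function.update_of_ne h]
    have : k ∈ insert i J ↔ k ∈ J := by simp [h]
    simp only [this]

theorem Dm_empty (F : (Fin n → ℤ) → ℝ) (x : Fin n → ℤ) : Dm ∅ F x = F x := by
  unfold Dm
  rw [Finset.powerset_empty, Finset.sum_singleton, sft_empty]
  simp

theorem Dm_insert {I : Finset (Fin n)} {i : Fin n} (hi : i ∉ I) (F : (Fin n → ℤ) → ℝ)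
    (x : Fin n → ℤ) : Dm (insert i I) F x = D i (Dm I F) x := by
  unfold D Dm
  rw [Finset.sum_powerset_insert hi, ← Finset.sum_sub_distrib, ← Finset.sum_add_distrib]
  apply Finset.sum_congr rfl
  intro J hJ
  rw [Finset.mem_powerset] at hJ
  have hiJ : i ∉ J := fun h => hi (hJ h)
  have e1 : insert i I \ J = insert i (I \ J) := Finset.insert_sdiff_of_notMem _ hiJ
  have e2 : insert i I \ insert i J = I \ J := by
    ext k
    simp only [Finset.mem_sdiff, Finset.mem_insert, not_or]
    constructor
    · rintro ⟨h1 | h1, h2, h3⟩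
      · exact absurd h1 h2
      · exact ⟨h1, h3⟩
    · rintro ⟨h1, h2⟩
      refine ⟨Or.inr h1, ?_, h2⟩
      rintro rfl
      exact hi h1
  rw [e1, e2, Finset.card_insert_of_notMem (by simp [hi]), sft_insert hiJ]
  ring

theorem Dm_single (i : Fin n) (F : (Fin n → ℤ) → ℝ) (x : Fin n → ℤ) : Dm {i} F x = D i F x := by
  have := Dm_insert (Finset.notMem_empty i) F x
  rw [insert_empty_eq] at this
  rw [this]
  unfold D
  rw [Dm_empty, Dm_empty]

theorem Dm_pair {i j : Fin n} (hij : i ≠ j) (F : (Fin n → ℤ) → ℝ) (x : Fin n → ℤ) :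
    Dm {i, j} F x = D i (D j F) x := by
  rw [Dm_insert (by simpa using hij)]
  unfold D
  rw [Dm_single, Dm_single]
  rfl

theorem telescope {H : (Fin n → ℤ) → ℝ} {y : Fin n → ℤ} {B : ℝ} (S : Finset (Fin n))
    (h : ∀ j ∈ S, ∀ J, J ⊆ S → j ∉ J → |D j H (sft J y)| ≤ B) :
    |H (sft S y) - H y| ≤ S.card * B := by
  induction S using Finset.induction_on with
  | empty => rw [sft_empty]; simp
  | @insert a S ha ih =>
    have h1 := ih (fun j hj J hJ hjJ => h j (Finset.mem_insert_of_mem hj) J
      (hJ.trans (Finset.subset_insert a S)) hjJ)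
    have h2 := h a (Finset.mem_insert_self a S) S (Finset.subset_insert a S) ha
    have e : D a H (sft S y) = H (sft (insert a S) y) - H (sft S y) := by
      unfold D
      have h3 : sft S y a = y a := by
        unfold sft; rw [if_neg ha]
      rw [h3, (sft_upd ha y).2]
    rw [e] at h2
    rw [Finset.card_insert_of_notMem ha]
    push_cast
    have e2 : H (sft (insert a S) y) - H y =
        (H (sft (insert a S) y) - H (sft S y)) + (H (sft S y) - H y) := by ring
    rw [e2]
    refine (abs_add_le _ _).trans ?_
    linarith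

theorem D_shift (E : Set (Set (ℕ × ℕ))) (i : Fin n) (x : Fin n → ℤ) (s : ℤ) :
    D i (PE E) (fun k => x k + s) = D i (PE E) x := by
  unfold D
  rw [PE_shift]
  have : Function.update (fun k => x k + s) i (x i + s + 1) =
      fun k => Function.update x i (x i + 1) k + s := by
    ext k
    by_cases h : k = i
    · subst h
      rw [Function.update_self, Function.update_self]
      ring
    · rw [Function.update_of_ne h, Function.update_of_ne h]
  rw [this, PE_shift]

theorem pure_le {C : ℝ} (h : ∀ (x : Fin n → ℤ) (m : ℤ), 1 ≤ m →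
    (∀ i j, i ≠ j → m ≤ |x i - x j|) → ∀ (E : Set (Set (ℕ × ℕ))) (I : Finset (Fin n)),
    |Dm I (PE E) x| ≤ (C / m) ^ I.card) {x : Fin n → ℤ} {m : ℤ} (hm : 1 ≤ m)
    (hx : ∀ i j, i ≠ j → m + 1 ≤ |x i - x j|) (E : Set (Set (ℕ × ℕ))) (i : Fin n) :
    |D i (D i (PE E)) x| ≤ n * (C / m) ^ 2 := by
  set y := Function.update x i (x i + 1) with hy
  have e1 : sft (Finset.univ.erase i) y = fun k => x k + 1 := by
    ext k
    unfold sft
    by_cases hk : k = i
    · subst hk
      rw [if_neg (Finset.notMem_erase k _), hy, Function.update_self]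
    · rw [if_pos (Finset.mem_erase.mpr ⟨hk, Finset.mem_univ k⟩), hy, Function.update_of_ne hk]
  have e2 : D i (D i (PE E)) x = -(D i (PE E) (sft (Finset.univ.erase i) y) - D i (PE E) y) := by
    rw [e1, D_shift]
    show D i (PE E) y - D i (PE E) x = _
    ring
  rw [e2, abs_neg]
  refine (telescope (B := (C / m) ^ 2) (Finset.univ.erase i) ?_).trans ?_
  · intro j hj J hJ hjJ
    have hji : j ≠ i := Finset.ne_of_mem_erase hj
    rw [← Dm_pair hji]
    have := h (sft J y) m hm (by
      intro k l hkl
      have h1 := hx k l hkl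
      have hk : sft J y k = x k ∨ sft J y k = x k + 1 := by
        unfold sft
        by_cases hki : k = i
        · subst hki
          rw [if_neg (fun h2 => Finset.notMem_erase k _ (hJ h2)), hy, Function.update_self]
          exact Or.inr rfl
        · rw [hy, Function.update_of_ne hki]
          split_ifs
          · exact Or.inr rfl
          · exact Or.inl rfl
      have hl : sft J y l = x l ∨ sft J y l = x l + 1 := by
        unfold sft
        by_cases hki : l = i
        · subst hki
          rw [if_neg (fun h2 => Finset.notMem_erase l _ (hJ h2)), hy, Function.update_self]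
          exact Or.inr rfl
        · rw [hy, Function.update_of_ne hki]
          split_ifs
          · exact Or.inr rfl
          · exact Or.inl rfl
      rw [le_abs] at h1 ⊢
      omega) E {j, i}
    rwa [Finset.card_pair hji] at this
  · have h1 : ((Finset.univ.erase i).card : ℝ) ≤ n := by
      have : (Finset.univ.erase i).card ≤ n := by
        refine (Finset.card_le_card (Finset.erase_subset _ _)).trans ?_
        simp
      exact_mod_cast this
    have h2 : 0 ≤ (C / m) ^ 2 := sq_nonneg _
    exact mul_le_mul_of_nonneg_right h1 h2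

/-- All the bounds. -/
theorem bounds : ∃ C : ℝ, 1 ≤ C ∧ ∀ (n : ℕ) (x : Fin n → ℤ) (m : ℤ), 1 ≤ m →
    (∀ i j, i ≠ j → m ≤ |x i - x j|) → ∀ E : Set (Set (ℕ × ℕ)),
    (∀ I : Finset (Fin n), |Dm I (PE E) x| ≤ (C / m) ^ I.card) ∧
    ∀ i, |D i (D i (PE E)) x| ≤ n * (C / m) ^ 2 := by
  obtain ⟨C, hC, h⟩ := mixed
  refine ⟨2 * C, by linarith, ?_⟩
  intro n x m hm hx E
  have hm0 : (0:ℝ) < m := by exact_mod_cast (by omega : (0:ℤ) < m)
  constructor
  · intro I
    refine (h n x m hm hx E I).trans ?_
    apply pow_le_pow_left₀ (by positivity)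
    gcongr
    linarith
  · intro i
    have hn : (1:ℝ) ≤ n := by
      have : 0 < n := Fin.pos i
      exact_mod_cast this
    by_cases h1 : m = 1
    · subst h1
      have b : |D i (D i (PE E)) x| ≤ 2 := by
        unfold D
        have p1 := PE_nonneg E (Function.update (Function.update x i (x i + 1)) i
          (Function.update x i (x i + 1) i + 1))
        have p2 := PE_le_one E (Function.update (Function.update x i (x i + 1)) i
          (Function.update x i (x i + 1) i + 1))
        have p3 := PE_nonneg E (Function.update x i (x i + 1))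
        have p4 := PE_le_one E (Function.update x i (x i + 1))
        have p5 := PE_nonneg E x
        have p6 := PE_le_one E x
        rw [abs_le]
        constructor <;> linarith
      refine b.trans ?_
      rw [Int.cast_one, div_one]
      nlinarith
    · have hm2 : 1 ≤ m - 1 := by omega
      refine (pure_le (h n) hm2 (fun i j hij => by have := hx i j hij; omega) E i).trans ?_
      have h2 : (m:ℝ) / 2 ≤ ((m - 1 : ℤ) : ℝ) := by
        have : (2:ℝ) ≤ m := by exact_mod_cast (by omega : (2:ℤ) ≤ m)
        push_cast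
        linarith
      have h3 : (0:ℝ) < m / 2 := by positivity
      have h4 : C / ((m - 1 : ℤ) : ℝ) ≤ 2 * C / m := by
        calc C / ((m - 1 : ℤ) : ℝ) ≤ C / (m / 2) := by gcongr
          _ = 2 * C / m := by field_simp
      have h5 : 0 ≤ C / ((m - 1 : ℤ) : ℝ) := by
        have : (0:ℝ) < ((m - 1 : ℤ) : ℝ) := lt_of_lt_of_le h3 h2
        positivity
      exact mul_le_mul_of_nonneg_left (pow_le_pow_left₀ h5 h4 2) (by linarith)

end Pool.Agent.U167.HP
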